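import Pool.Agent.Lib.MP_c3d1b0_coN.Defs

set_option autoImplicit false

/-!
# JOB BalMat: many balanced 0/1 matrices (about 110 lines)

`Bal X k` (see Defs) = 0/1 matrices over `X × X` with all row sums and column sums equal to `k`; here `X = Fin (2 k)`.  The type is finite (a subtype of a finite function type; give the instance
`Finite (Bal X k)` by `inferInstanceAs`/`Subtype.finite`).
(1) Pigeonhole: the `2^(k^2)` Boolean `k × k` matrices `f : Fin k → Fin k → Bool` are mapped to (row sums, column sums) in `(Fin k → Fin (k+1)) × (Fin k → Fin (k+1))`, a set with `(k+1)^(2k)` elements.  Hence some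
fibre `Φ` (all `f` with given row sums `r_i` and column sums `c_j`) satisfies `2^(k^2) ≤ (k+1)^(2k) * card Φ` (`Finset.exists_lt_card_fiber...`, or sum over the fibres `Finset.card_eq_sum_card_fiberwise` and `Finset.sum_le_card_nsmul`).
(2) For `(f₁, f₂, f₃, f₄) ∈ Φ⁴` the matrix over `Bool × Fin k` with blocks: `((false,i),(false,j)) ↦ f₁ i j`, `((false,i),(true,j)) ↦ !f₂ i j`, `((true,i),(false,j)) ↦ !f₃ i j`, `((true,i),(true,j)) ↦ f₄ i j` is in `Bal (Bool × Fin k) k`:
row `(false,i)`: `r_i + (k - r_i) = k`, row `(true,i)`: `(k - r_i) + r_i = k`, and the same for the columns.  The map is injective.  So `(card Φ)^4 ≤ Nat.card (Bal (Bool × Fin k) k)`.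
(3) `Nat.card (Bal X k) = Nat.card (Bal Y k)` for `e : X ≃ Y` (transport `f ↦ fun a b => f (e.symm a) (e.symm b)`), and `Bool × Fin k ≃ Fin (2 k)` (`Fintype.equivOfCardEq`).
(4) `2^(4 k^2) = (2^(k^2))^4 ≤ ((k+1)^(2k) * card Φ)^4 = (k+1)^(8k) * (card Φ)^4`.
-/

namespace Pool.Agent.MP_c3d1b0N

open Finset

private lemma BalMat_cnt (k : ℕ) (e : Fin (2 * k) ≃ Bool × Fin k) (g : Bool × Fin k → Bool) :
    (univ.filter (fun b => g (e b) = true)).card =
      (univ.filter (fun j => g (true, j) = true)).card + (univ.filter (fun j => g (false, j) = true)).card := by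
  rw [Finset.card_filter, Finset.card_filter, Finset.card_filter]
  rw [Equiv.sum_comp e (fun y => if g y = true then 1 else 0), Fintype.sum_prod_type, Fintype.sum_bool]

private lemma BalMat_compl (k : ℕ) (f : Fin k → Bool) :
    (univ.filter (fun j => (!f j) = true)).card + (univ.filter (fun j => f j = true)).card = k := by
  have h := Finset.card_filter_add_card_filter_not (s := (univ : Finset (Fin k))) (fun j => f j = true)
  rw [Finset.card_univ, Fintype.card_fin] at h
  have h2 : (univ.filter (fun j => (!f j) = true)) = (univ.filter (fun j => ¬ (f j = true))) := by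
    apply Finset.filter_congr
    intro j _
    cases f j <;> simp
  rw [h2]
  omega

private def BalMat_M (k : ℕ) (f : Bool → Bool → Fin k → Fin k → Bool) (x y : Bool × Fin k) : Bool :=
  xor (xor x.1 y.1) (f x.1 y.1 x.2 y.2)

private lemma BalMat_row (k : ℕ) (f : Bool → Bool → Fin k → Fin k → Bool) (r : Fin k → ℕ)
    (hr : ∀ b c i, (univ.filter (fun j => f b c i j = true)).card = r i)
    (e : Fin (2 * k) ≃ Bool × Fin k) (x : Bool × Fin k) :
    (univ.filter (fun b => BalMat_M k f x (e b) = true)).card = k := by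
  rw [BalMat_cnt k e (fun y => BalMat_M k f x y)]
  obtain ⟨b, i⟩ := x
  cases b
  · have h1 := BalMat_compl k (fun j => f false true i j)
    have h2 := hr false true i
    have h3 := hr false false i
    simp only [BalMat_M, Bool.false_xor, Bool.true_xor] at *
    omega
  · have h1 := BalMat_compl k (fun j => f true false i j)
    have h2 := hr true false i
    have h3 := hr true true i
    simp only [BalMat_M, Bool.xor_true, Bool.xor_false, Bool.not_true, Bool.false_xor, Bool.true_xor] at *
    omega

private lemma BalMat_col (k : ℕ) (f : Bool → Bool → Fin k → Fin k → Bool) (r : Fin k → ℕ)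
    (hr : ∀ b c i, (univ.filter (fun j => f b c j i = true)).card = r i)
    (e : Fin (2 * k) ≃ Bool × Fin k) (y : Bool × Fin k) :
    (univ.filter (fun b => BalMat_M k f (e b) y = true)).card = k := by
  have h := BalMat_row k (fun b c i j => f c b j i) r (fun b c i => hr c b i) e y
  refine Eq.trans ?_ h
  apply congrArg Finset.card
  apply Finset.filter_congr
  intro b _
  simp only [BalMat_M]
  rw [Bool.xor_comm (e b).1 y.1]

private noncomputable def BalMat_sig (k : ℕ) (f : Fin k → Fin k → Bool) :
    (Fin k → Fin (k + 1)) × (Fin k → Fin (k + 1)) :=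
  (fun i => ⟨(univ.filter (fun j => f i j = true)).card, by
      have := Finset.card_filter_le (univ : Finset (Fin k)) (fun j => f i j = true)
      rw [Finset.card_univ, Fintype.card_fin] at this
      omega⟩,
   fun i => ⟨(univ.filter (fun j => f j i = true)).card, by
      have := Finset.card_filter_le (univ : Finset (Fin k)) (fun j => f j i = true)
      rw [Finset.card_univ, Fintype.card_fin] at this
      omega⟩)

theorem bal_lower (k : ℕ) : 2 ^ (4 * k ^ 2) ≤ (k + 1) ^ (8 * k) * Nat.card (Bal (Fin (2 * k)) k) := by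
  classical
  obtain ⟨c, hc⟩ := Finite.exists_max
    (fun c : (Fin k → Fin (k + 1)) × (Fin k → Fin (k + 1)) =>
      (univ.filter (fun f : Fin k → Fin k → Bool => BalMat_sig k f = c)).card)
  set Φ := univ.filter (fun f : Fin k → Fin k → Bool => BalMat_sig k f = c) with hΦ
  have h1 : 2 ^ (k ^ 2) ≤ (k + 1) ^ (2 * k) * Φ.card := by
    have h2 : (univ : Finset (Fin k → Fin k → Bool)).card = 2 ^ (k ^ 2) := by
      rw [Finset.card_univ, Fintype.card_fun, Fintype.card_fun, Fintype.card_bool, Fintype.card_fin,
        ← pow_mul, sq]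
    have h3 : (univ : Finset ((Fin k → Fin (k + 1)) × (Fin k → Fin (k + 1)))).card =
        (k + 1) ^ (2 * k) := by
      rw [Finset.card_univ, Fintype.card_prod, Fintype.card_fun, Fintype.card_fin, Fintype.card_fin,
        ← pow_add]
      congr 1
      ring
    rw [← h2, ← h3]
    rw [Finset.card_eq_sum_card_fiberwise (f := BalMat_sig k) (t := univ) (fun _ _ => by simp)]
    calc ∑ b, (univ.filter (fun f => BalMat_sig k f = b)).card
        ≤ ∑ _b : (Fin k → Fin (k + 1)) × (Fin k → Fin (k + 1)), Φ.card :=
          Finset.sum_le_sum (fun b _ => hc b)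
      _ = _ := by rw [Finset.sum_const, smul_eq_mul]
  let e : Fin (2 * k) ≃ Bool × Fin k := Fintype.equivOfCardEq (by simp)
  have : Finite (Bal (Fin (2 * k)) k) := by
    unfold Bal
    infer_instance
  have hrow : ∀ f ∈ Φ, ∀ i, (univ.filter (fun j => f i j = true)).card = (c.1 i : ℕ) := by
    intro f hf i
    rw [hΦ, Finset.mem_filter] at hf
    rw [← hf.2]
    rfl
  have hcol : ∀ f ∈ Φ, ∀ i, (univ.filter (fun j => f j i = true)).card = (c.2 i : ℕ) := by
    intro f hf i
    rw [hΦ, Finset.mem_filter] at hf
    rw [← hf.2]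
    rfl
  let G : (Bool → Bool → Φ) → Bal (Fin (2 * k)) k := fun F =>
    ⟨fun a b => BalMat_M k (fun s t => (F s t).1) (e a) (e b),
     fun a => BalMat_row k (fun s t => (F s t).1) (fun i => (c.1 i : ℕ))
       (fun s t i => hrow _ (F s t).2 i) e (e a),
     fun b => BalMat_col k (fun s t => (F s t).1) (fun i => (c.2 i : ℕ))
       (fun s t i => hcol _ (F s t).2 i) e (e b)⟩
  have hG : Function.Injective G := by
    intro F F' h
    have h0 : ∀ a b, BalMat_M k (fun s t => (F s t).1) (e a) (e b) =
        BalMat_M k (fun s t => (F' s t).1) (e a) (e b) := by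
      intro a b
      have := congrArg (fun z : Bal (Fin (2 * k)) k => z.1 a b) h
      exact this
    funext s t
    apply Subtype.ext
    funext i j
    have h1 := h0 (e.symm (s, i)) (e.symm (t, j))
    rw [Equiv.apply_symm_apply, Equiv.apply_symm_apply] at h1
    simp only [BalMat_M] at h1
    exact Bool.xor_right_inj.1 h1
  have h5 : Φ.card ^ 4 ≤ Nat.card (Bal (Fin (2 * k)) k) := by
    have h6 := Nat.card_le_card_of_injective G hG
    rw [Nat.card_eq_fintype_card, Fintype.card_fun, Fintype.card_fun, Fintype.card_bool,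
      Fintype.card_coe, ← pow_mul] at h6
    exact h6
  calc 2 ^ (4 * k ^ 2) = (2 ^ (k ^ 2)) ^ 4 := by rw [← pow_mul]; congr 1; ring
    _ ≤ ((k + 1) ^ (2 * k) * Φ.card) ^ 4 := Nat.pow_le_pow_left h1 4
    _ = (k + 1) ^ (8 * k) * Φ.card ^ 4 := by
        rw [mul_pow, ← pow_mul]
        congr 2
        ring
    _ ≤ _ := Nat.mul_le_mul_left _ h5

end Pool.Agent.MP_c3d1b0N
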