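import Pool.Agent.Lib.MP_c3d1b0_coN.Defs

set_option autoImplicit false

/-!
# JOB Blocks: repetition of a binary block (about 80 lines)

(0) `sg (2 m) = sg m`, `sg (2 m + 1) = sg m + 1` (`Nat.digits_def'` / `Nat.digits_two...`), hence by induction on `L`: `sg (x * 2^L + y) = sg x + sg y` for `y < 2^L`, and `sg (2^k * x) = sg x`.
(1) Given `u > 0`.  Replace `u` by `u' = 2^k u` with `k` so large that `a_i u' + b_i ≥ 0` for all `i` (`a_i ≥ 1`): `sg (a_i u') = sg (a_i u)`.  Choose `L` with `a_i u' < 2^L` and `a_i u' + |b_i| < 2^L` for all `i`.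
(2) `t_T := ∑_{j < T} u' 2^(j L)` (or recursively `t_0 = 0`, `t_{T+1} = u' + 2^L t_T`).  Then `lin (a_i) (b_i) t_{T+1} = (a_i u' + b_i) + 2^L (a_i t_T)` and `sg (a_i t_T) = T sg (a_i u')` (induction), so
`sg (lin (a_i) (b_i) t_{T+1}) = sg (lin (a_i) (b_i) u') + T sg (a_i u)`.
(3) `t_T → ∞`, so for all large `T`: `K ≥ -∑ c_i sg(lin ..) = -∑ c_i sg (lin (a_i) (b_i) u') + T (-∑ c_i sg (a_i u))`; if the integer `-∑ c_i sg (a_i u)` were `≥ 1` this would be unbounded in `T`.
-/

namespace Pool.Agent.MP_c3d1b0N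

open Finset Filter

private lemma Blocks_step (n : ℕ) : sg n = n % 2 + sg (n / 2) := by
  unfold sg
  rcases Nat.eq_zero_or_pos n with h | h
  · subst h; simp
  · rw [Nat.digits_def' (by norm_num) h, List.sum_cons]

private lemma Blocks_split (L : ℕ) : ∀ x y : ℕ, y < 2 ^ L → sg (x * 2 ^ L + y) = sg x + sg y := by
  induction L with
  | zero =>
    intro x y hy
    have : y = 0 := by simpa using hy
    subst this
    have h0 : sg 0 = 0 := by unfold sg; simp
    rw [pow_zero, mul_one, add_zero, h0, add_zero]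
  | succ L ih =>
    intro x y hy
    have h1 : (x * 2 ^ (L + 1) + y) = 2 * (x * 2 ^ L) + y := by ring
    have h2 : (2 * (x * 2 ^ L) + y) % 2 = y % 2 := by omega
    have h3 : (2 * (x * 2 ^ L) + y) / 2 = x * 2 ^ L + y / 2 := by omega
    have h4 : y / 2 < 2 ^ L := by
      rw [pow_succ] at hy
      omega
    rw [Blocks_step (x * 2 ^ (L + 1) + y), Blocks_step y, h1, h2, h3, ih x (y / 2) h4]
    ring

private def Blocks_t (u L : ℕ) : ℕ → ℕ
  | 0 => 0
  | T + 1 => u + 2 ^ L * Blocks_t u L T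

private lemma Blocks_ge {u : ℕ} (hu : 0 < u) (L T : ℕ) : T ≤ Blocks_t u L T := by
  induction T with
  | zero => exact Nat.zero_le _
  | succ T ih =>
    have h1 : 1 * Blocks_t u L T ≤ 2 ^ L * Blocks_t u L T := Nat.mul_le_mul_right _ Nat.one_le_two_pow
    simp only [Blocks_t]
    omega

private lemma Blocks_sg {a u L : ℕ} (h : a * u < 2 ^ L) (T : ℕ) :
    sg (a * Blocks_t u L T) = T * sg (a * u) := by
  induction T with
  | zero =>
    simp only [Blocks_t, mul_zero, zero_mul]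
    unfold sg
    simp
  | succ T ih =>
    have h1 : a * Blocks_t u L (T + 1) = (a * Blocks_t u L T) * 2 ^ L + a * u := by
      simp only [Blocks_t]
      ring
    rw [h1, Blocks_split L _ _ h, ih]
    ring

theorem block_le {ι : Type} [Fintype ι] {a : ι → ℕ} {b c : ι → ℤ} {K : ℤ} (ha : ∀ i, 0 < a i)
    (hK : ∀ᶠ t : ℕ in atTop, -∑ i, c i * (sg (lin (a i) (b i) t) : ℤ) ≤ K) (u : ℕ) (hu : 0 < u) :
    -∑ i, c i * (sg (a i * u) : ℤ) ≤ 0 := by
  obtain ⟨T₀, hT₀⟩ := Filter.eventually_atTop.mp hK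
  by_contra hS
  rw [not_le] at hS
  set B := ∑ i, (b i).natAbs with hB
  have hBi : ∀ i, (b i).natAbs ≤ B := fun i =>
    Finset.single_le_sum (f := fun i => (b i).natAbs) (fun _ _ => Nat.zero_le _) (Finset.mem_univ i)
  set u' := u * 2 ^ B with hu'
  have hu'pos : 0 < u' := by positivity
  have hu'B : B < u' := by
    calc B < 2 ^ B := Nat.lt_two_pow_self
      _ = 1 * 2 ^ B := (one_mul _).symm
      _ ≤ u' := Nat.mul_le_mul_right _ hu
  set L := (∑ i, a i * u') + B with hL
  have hai : ∀ i, a i * u' ≤ ∑ i, a i * u' := fun i =>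
    Finset.single_le_sum (f := fun i => a i * u') (fun _ _ => Nat.zero_le _) (Finset.mem_univ i)
  have hpos : ∀ i, u' ≤ a i * u' := fun i => Nat.le_mul_of_pos_left _ (ha i)
  have hLt : L < 2 ^ L := Nat.lt_two_pow_self
  have hsgu : ∀ i, sg (a i * u') = sg (a i * u) := by
    intro i
    have h1 : a i * u' = (a i * u) * 2 ^ B + 0 := by rw [hu']; ring
    have h0 : sg 0 = 0 := by unfold sg; simp
    rw [h1, Blocks_split B _ 0 (by positivity), h0, add_zero]
  have hlin : ∀ (i : ι) (T : ℕ), sg (lin (a i) (b i) (Blocks_t u' L (T + 1))) =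
      T * sg (a i * u) + sg (lin (a i) (b i) u') := by
    intro i T
    have h1 := hBi i
    have h2 := hai i
    have h3 := hpos i
    have h5 : (lin (a i) (b i) u' : ℤ) = (a i : ℤ) * u' + b i := by
      unfold lin
      rw [Int.toNat_of_nonneg]
      have : ((a i * u' : ℕ) : ℤ) = (a i : ℤ) * u' := by push_cast; ring
      omega
    have h6 : lin (a i) (b i) u' < 2 ^ L := by
      have : ((a i * u' : ℕ) : ℤ) = (a i : ℤ) * u' := by push_cast; ring
      omega
    have h7 : lin (a i) (b i) (Blocks_t u' L (T + 1)) = (a i * Blocks_t u' L T) * 2 ^ L + lin (a i) (b i) u' := by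
      have h8 : ((a i : ℤ) * (Blocks_t u' L (T + 1) : ℕ) + b i) =
          (((a i * Blocks_t u' L T) * 2 ^ L + lin (a i) (b i) u' : ℕ) : ℤ) := by
        simp only [Blocks_t]
        push_cast
        rw [h5]
        ring
      unfold lin at h8 ⊢
      rw [h8, Int.toNat_natCast]
    rw [h7, Blocks_split L _ _ h6, Blocks_sg (by omega) T, hsgu i]
  have hsum : ∀ T : ℕ, -∑ i, c i * (sg (lin (a i) (b i) (Blocks_t u' L (T + 1))) : ℤ) =
      -∑ i, c i * (sg (lin (a i) (b i) u') : ℤ) + T * (-∑ i, c i * (sg (a i * u) : ℤ)) := by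
    intro T
    rw [mul_neg, Finset.mul_sum, ← neg_add, ← Finset.sum_add_distrib]
    congr 1
    apply Finset.sum_congr rfl
    intro i _
    rw [hlin i T]
    push_cast
    ring
  set W := -∑ i, c i * (sg (lin (a i) (b i) u') : ℤ) with hW
  set S := -∑ i, c i * (sg (a i * u) : ℤ) with hSdef
  have h1 := hT₀ (Blocks_t u' L (T₀ + (K - W).natAbs + 1 + 1)) (by
    have := Blocks_ge hu'pos L (T₀ + (K - W).natAbs + 1 + 1)
    omega)
  rw [hsum] at h1
  have h2 : ((T₀ + (K - W).natAbs + 1 : ℕ) : ℤ) * 1 ≤ ((T₀ + (K - W).natAbs + 1 : ℕ) : ℤ) * S :=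
    mul_le_mul_of_nonneg_left (by omega) (by positivity)
  omega

end Pool.Agent.MP_c3d1b0N
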