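import Pool.Agent.Lib.MP_c3d1b0_coN.Defs

set_option autoImplicit false

/-!
# JOB FBound: if the exponents cancel then the factorial part is a fraction of numbers `≤ t^(C t)` (about 110 lines)

Hypothesis: for all `α` the sum of the `c_i` with `a_i = α` is `0`.  So `∏_i φ(a_i)^(c_i t) = 1` for every `φ : ℕ → ℚ` with nonzero values (`Finset.prod_fiberwise`, `Finset.prod_zpow`...; `φ(α)^(t ∑_{a_i = α} c_i) = 1`).
With `φ(α) = (α t)!`: `FF a b c d t = ∏_i ρ_i^(c_i t) * ∏_i ((m_i)!)^(d_i)`, `m_i = lin (a_i) (b_i) t`, `ρ_i = m_i! / (a_i t)!`.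
For large `t` (`a_i t ≥ |b_i|`, `t ≥ ...`): if `b_i ≥ 0` then `ρ_i` is the natural number `(a_i t + 1) ⋯ (a_i t + b_i) ≤ (2 a_i t)^(b_i)` (`Nat.factorial_mul_pow_le_factorial`/`Nat.ascFactorial`, or `n! ≤ m! * n^(n-m)`: `Nat.factorial_le...`), if `b_i < 0` then `1/ρ_i` is a natural
number `≤ (a_i t)^(|b_i|)`.  In both cases `ρ_i = A/B` with natural numbers `0 < A, B ≤ t^K` for large `t` (`K` depends on `a_i`, `b_i`), so `ρ_i^(c_i t) = A'/B'` with `0 < A', B' ≤ t^(K |c_i| t)`.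
`(m_i)! ≤ m_i^(m_i) ≤ (t^2)^(2 a_i t)` for large `t`; so `((m_i)!)^(d_i) = A''/B''` with `0 < A'', B'' ≤ t^(4 a_i |d_i| t)`.  Multiply everything (`Finset.prod_induction` or choose, `Finset.prod_le_prod`); `C = ∑_i (K_i |c_i| + 4 a_i |d_i|)`.
A clean way: define `Q C t x : Prop := ∃ A B : ℕ, 0 < A ∧ 0 < B ∧ A ≤ t^(C t) ∧ B ≤ t^(C t) ∧ x = A / B` and show it is closed under products (constants add) and under `zpow` by a fixed integer.
-/

namespace Pool.Agent.MP_c3d1b0N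

open Finset Filter

private def FBound_P (E t : ℕ) (x : ℚ) : Prop :=
  ∃ A B : ℕ, 0 < A ∧ 0 < B ∧ A ≤ t ^ E ∧ B ≤ t ^ E ∧ x = (A : ℚ) / B

private theorem FBound_mul {E E' t : ℕ} {x y : ℚ} (h : FBound_P E t x) (h' : FBound_P E' t y) :
    FBound_P (E + E') t (x * y) := by
  obtain ⟨A, B, hA, hB, hA1, hB1, hx⟩ := h
  obtain ⟨A', B', hA', hB', hA1', hB1', hy⟩ := h'
  refine ⟨A * A', B * B', Nat.mul_pos hA hA', Nat.mul_pos hB hB', ?_, ?_, ?_⟩
  · rw [pow_add]
    exact Nat.mul_le_mul hA1 hA1'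
  · rw [pow_add]
    exact Nat.mul_le_mul hB1 hB1'
  · rw [hx, hy, div_mul_div_comm]
    push_cast
    rfl

private theorem FBound_inv {E t : ℕ} {x : ℚ} (h : FBound_P E t x) : FBound_P E t x⁻¹ := by
  obtain ⟨A, B, hA, hB, hA1, hB1, hx⟩ := h
  exact ⟨B, A, hB, hA, hB1, hA1, by rw [hx, inv_div]⟩

private theorem FBound_pow {E t : ℕ} {x : ℚ} (h : FBound_P E t x) (n : ℕ) :
    FBound_P (E * n) t (x ^ n) := by
  obtain ⟨A, B, hA, hB, hA1, hB1, hx⟩ := h
  refine ⟨A ^ n, B ^ n, Nat.pow_pos hA, Nat.pow_pos hB, ?_, ?_, ?_⟩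
  · rw [pow_mul]
    exact Nat.pow_le_pow_left hA1 n
  · rw [pow_mul]
    exact Nat.pow_le_pow_left hB1 n
  · rw [hx, div_pow]
    push_cast
    rfl

private theorem FBound_zpow {E t : ℕ} {x : ℚ} (h : FBound_P E t x) (n : ℤ) :
    FBound_P (E * n.natAbs) t (x ^ n) := by
  obtain ⟨m, rfl | rfl⟩ := n.eq_nat_or_neg
  · rw [zpow_natCast, Int.natAbs_natCast]
    exact FBound_pow h m
  · rw [zpow_neg, zpow_natCast, Int.natAbs_neg, Int.natAbs_natCast]
    exact FBound_inv (FBound_pow h m)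

private theorem FBound_prod {ι : Type} {t : ℕ} (s : Finset ι) (E : ι → ℕ) (x : ι → ℚ)
    (h : ∀ i ∈ s, FBound_P (E i) t (x i)) : FBound_P (∑ i ∈ s, E i) t (∏ i ∈ s, x i) := by
  classical
  induction s using Finset.induction_on with
  | empty =>
    rw [Finset.sum_empty, Finset.prod_empty]
    exact ⟨1, 1, Nat.one_pos, Nat.one_pos, by simp, by simp, by simp⟩
  | insert i s hi ih =>
    rw [Finset.sum_insert hi, Finset.prod_insert hi]
    exact FBound_mul (h i (Finset.mem_insert_self i s))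
      (ih fun j hj => h j (Finset.mem_insert_of_mem hj))

private theorem FBound_prod_zpow {ι : Type} (s : Finset ι) (x : ℚ) (hx : x ≠ 0) (f : ι → ℤ) :
    ∏ i ∈ s, x ^ f i = x ^ ∑ i ∈ s, f i := by
  classical
  induction s using Finset.induction_on with
  | empty => rw [Finset.sum_empty, Finset.prod_empty, zpow_zero]
  | insert i s hi ih => rw [Finset.sum_insert hi, Finset.prod_insert hi, ih, zpow_add₀ hx]

private theorem FBound_group {ι : Type} [Fintype ι] {a : ι → ℕ} {c : ι → ℤ}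
    (hg : ∀ α : ℕ, ∑ i ∈ univ.filter (fun i => a i = α), c i = 0) (φ : ℕ → ℚ)
    (hφ : ∀ n, φ n ≠ 0) (t : ℕ) : ∏ i, φ (a i) ^ (c i * (t : ℤ)) = 1 := by
  classical
  rw [← Finset.prod_fiberwise_of_maps_to (s := (univ : Finset ι)) (t := univ.image a) (g := a)
    (fun i _ => Finset.mem_image_of_mem a (Finset.mem_univ i))]
  refine Finset.prod_eq_one fun α _ => ?_
  have h1 : ∏ i ∈ univ.filter (fun i => a i = α), φ (a i) ^ (c i * (t : ℤ)) =
      ∏ i ∈ univ.filter (fun i => a i = α), φ α ^ (c i * (t : ℤ)) := by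
    refine Finset.prod_congr rfl fun i hi => ?_
    rw [(Finset.mem_filter.1 hi).2]
  rw [h1, FBound_prod_zpow _ _ (hφ α), ← Finset.sum_mul, hg α, zero_mul, zpow_zero]

private theorem FBound_asc {n k t : ℕ} (ht : n + k ≤ t ^ 2) :
    FBound_P (2 * k) t (((Nat.factorial (n + k) : ℕ) : ℚ) / ((Nat.factorial n : ℕ) : ℚ)) := by
  have h1 := Nat.factorial_mul_ascFactorial n k
  have h2 : (n + 1).ascFactorial k ≤ t ^ (2 * k) := by
    refine (Nat.ascFactorial_le_pow_add n k).trans ?_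
    rw [pow_mul]
    exact Nat.pow_le_pow_left ht k
  have h3 : 0 < (n + 1).ascFactorial k := Nat.ascFactorial_pos n k
  have h4 : 1 ≤ t ^ (2 * k) := le_trans h3 h2
  refine ⟨(n + 1).ascFactorial k, 1, h3, Nat.one_pos, h2, h4, ?_⟩
  have h5 : ((Nat.factorial n : ℕ) : ℚ) ≠ 0 := by
    exact_mod_cast Nat.factorial_ne_zero n
  rw [← h1]
  push_cast
  field_simp

private theorem FBound_rho {a : ℕ} {b : ℤ} {t : ℕ} (ha : 0 < a) (h1 : a + 1 ≤ t)
    (h2 : b.natAbs ≤ t) : FBound_P (2 * b.natAbs) t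
      (((Nat.factorial (lin a b t) : ℕ) : ℚ) / ((Nat.factorial (a * t) : ℕ) : ℚ)) := by
  have hat : t ≤ a * t := Nat.le_mul_of_pos_left t ha
  have hsq : a * t + t ≤ t ^ 2 := by nlinarith
  obtain ⟨m, rfl | rfl⟩ := b.eq_nat_or_neg
  · rw [Int.natAbs_natCast] at h2 ⊢
    have e : lin a (m : ℤ) t = a * t + m := by
      unfold lin
      have : ((a : ℤ) * (t : ℤ) + (m : ℤ)) = ((a * t + m : ℕ) : ℤ) := by push_cast; ring
      rw [this, Int.toNat_natCast]
    rw [e]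
    exact FBound_asc (by omega)
  · rw [Int.natAbs_neg, Int.natAbs_natCast] at h2 ⊢
    have e : lin a (-(m : ℤ)) t = a * t - m := by
      unfold lin
      have : ((a : ℤ) * (t : ℤ) + -(m : ℤ)) = ((a * t - m : ℕ) : ℤ) := by
        rw [Nat.cast_sub (by omega)]
        push_cast
        ring
      rw [this, Int.toNat_natCast]
    rw [e]
    have h3 : FBound_P (2 * m) t (((Nat.factorial (a * t - m + m) : ℕ) : ℚ) /
        ((Nat.factorial (a * t - m) : ℕ) : ℚ)) := FBound_asc (by omega)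
    rw [Nat.sub_add_cancel (by omega)] at h3
    have h4 := FBound_inv h3
    rwa [inv_div] at h4

private theorem FBound_fac {a : ℕ} {b : ℤ} {t : ℕ} (h1 : a + 1 ≤ t) (h2 : b.natAbs ≤ t) :
    FBound_P (2 * (a + 1) * t) t ((Nat.factorial (lin a b t) : ℕ) : ℚ) := by
  have hm : lin a b t ≤ (a + 1) * t := by
    unfold lin
    rw [Int.toNat_le]
    push_cast
    have : b ≤ (b.natAbs : ℤ) := Int.le_natAbs
    have h3 : (b.natAbs : ℤ) ≤ (t : ℤ) := by exact_mod_cast h2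
    linarith
  have hsq : (a + 1) * t ≤ t ^ 2 := by nlinarith
  have ht : 0 < t := by omega
  have h3 : Nat.factorial (lin a b t) ≤ t ^ (2 * (a + 1) * t) := by
    refine (Nat.factorial_le_pow (lin a b t)).trans ?_
    refine (Nat.pow_le_pow_left (hm.trans hsq) _).trans ?_
    rw [← pow_mul]
    refine Nat.pow_le_pow_right ht ?_
    nlinarith
  refine ⟨Nat.factorial (lin a b t), 1, Nat.factorial_pos _, Nat.one_pos, h3,
    le_trans (Nat.factorial_pos _) h3, ?_⟩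
  rw [Nat.cast_one, div_one]

theorem F_bound {ι : Type} [Fintype ι] {a : ι → ℕ} {b c : ι → ℤ} (d : ι → ℤ) (ha : ∀ i, 0 < a i)
    (hg : ∀ α : ℕ, ∑ i ∈ univ.filter (fun i => a i = α), c i = 0) :
    ∃ C : ℕ, ∀ᶠ t : ℕ in atTop, ∃ N₁ N₂ : ℕ, 0 < N₁ ∧ 0 < N₂ ∧ N₁ ≤ t ^ (C * t) ∧ N₂ ≤ t ^ (C * t) ∧
      FF a b c d t = (N₁ : ℚ) / N₂ := by
  refine ⟨∑ i, (2 * (b i).natAbs * (c i).natAbs + 2 * (a i + 1) * (d i).natAbs), ?_⟩
  filter_upwards [eventually_ge_atTop (∑ i, (a i + 1 + (b i).natAbs))] with t ht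
  have hti : ∀ i, a i + 1 + (b i).natAbs ≤ t := by
    intro i
    refine le_trans ?_ ht
    exact Finset.single_le_sum (f := fun i => a i + 1 + (b i).natAbs) (fun j _ => Nat.zero_le _)
      (Finset.mem_univ i)
  have hx : ∀ i ∈ (univ : Finset ι), FBound_P
      ((2 * (b i).natAbs * (c i).natAbs + 2 * (a i + 1) * (d i).natAbs) * t) t
      ((((Nat.factorial (lin (a i) (b i) t) : ℕ) : ℚ) / ((Nat.factorial (a i * t) : ℕ) : ℚ)) ^
        (c i * (t : ℤ)) * ((Nat.factorial (lin (a i) (b i) t) : ℕ) : ℚ) ^ (d i)) := by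
    intro i _
    have h1 := hti i
    have h2 := FBound_zpow (FBound_rho (b := b i) (t := t) (ha i) (by omega) (by omega))
      (c i * (t : ℤ))
    have h3 := FBound_zpow (FBound_fac (a := a i) (b := b i) (t := t) (by omega) (by omega)) (d i)
    have h4 := FBound_mul h2 h3
    rw [Int.natAbs_mul, Int.natAbs_natCast] at h4
    have e : 2 * (b i).natAbs * ((c i).natAbs * t) + 2 * (a i + 1) * t * (d i).natAbs =
      (2 * (b i).natAbs * (c i).natAbs + 2 * (a i + 1) * (d i).natAbs) * t := by ring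
    rwa [e] at h4
  have hp := FBound_prod _ _ _ hx
  rw [← Finset.sum_mul] at hp
  have hFF : FF a b c d t = ∏ i, ((((Nat.factorial (lin (a i) (b i) t) : ℕ) : ℚ) /
      ((Nat.factorial (a i * t) : ℕ) : ℚ)) ^
        (c i * (t : ℤ)) * ((Nat.factorial (lin (a i) (b i) t) : ℕ) : ℚ) ^ (d i)) := by
    have h1 := FBound_group hg (fun n => ((Nat.factorial (n * t) : ℕ) : ℚ))
      (fun n => by exact_mod_cast Nat.factorial_ne_zero (n * t)) t
    unfold FF
    rw [← one_mul (∏ i, ((((Nat.factorial (lin (a i) (b i) t) : ℕ) : ℚ) /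
      ((Nat.factorial (a i * t) : ℕ) : ℚ)) ^
        (c i * (t : ℤ)) * ((Nat.factorial (lin (a i) (b i) t) : ℕ) : ℚ) ^ (d i))), ← h1,
      ← Finset.prod_mul_distrib]
    refine Finset.prod_congr rfl fun i _ => ?_
    have h2 : ((Nat.factorial (lin (a i) (b i) t) : ℕ) : ℚ) ≠ 0 := by
      exact_mod_cast Nat.factorial_ne_zero _
    have h3 : ((Nat.factorial (a i * t) : ℕ) : ℚ) ≠ 0 := by
      exact_mod_cast Nat.factorial_ne_zero _
    have h4 : ((Nat.factorial (a i * t) : ℕ) : ℚ) ^ (c i * (t : ℤ)) ≠ 0 := zpow_ne_zero _ h3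
    rw [zpow_add₀ h2, div_zpow]
    field_simp
  obtain ⟨A, B, hA, hB, hA1, hB1, hAB⟩ := hp
  exact ⟨A, B, hA, hB, hA1, hB1, by rw [hFF, hAB]⟩

end Pool.Agent.MP_c3d1b0N
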