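import Pool.Agent.Lib.MP_c3d1b0_coN.Defs

set_option autoImplicit false

/-!
# JOB Group: the step function vanishes, so the exponents cancel (about 80 lines)

Let `g(u, v) = ∑ c_i ⌊a_i u / v⌋` (division of natural numbers), `≥ 0` for all `v > 0`.
(1) Legendre: for `K` with `a_i u < 2^K` for all `i`: `v_2((a_i u)!) = ∑_{j ∈ Ico 1 (K+1)} a_i u / 2^j` (Mathlib: `padicValNat_factorial`, or `Nat.Prime.emultiplicity_factorial`) and `= a_i u - sg (a_i u)` (`sub_one_mul_padicValNat_factorial`).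
So, using `∑ a_i c_i = 0`: `-∑ c_i sg (a_i u) = ∑_{j ∈ Ico 1 (K+1)} g(u, 2^j)`.
(2) The left side is `≤ 0` and all terms on the right are `≥ 0`: so `g(u, 2^j) = 0` for all `u > 0` and all `j ≥ 1` (take `K` large).
(3) Let `C_α = ∑_{i : a_i = α} c_i`.  Suppose some `C_α ≠ 0`; let `α` be the largest such value (`α ≥ 1`; finitely many values `a_i`, for the other `α` the sum is empty).  There are `j ≥ 1`, `u > 0` with `1 ≤ α u / 2^j` and `(α - 1) u / 2^j < 1`
(real division: `2^j ≤ α u` and `(α - 1) u < 2^j`: take `2^j ≥ α^2 + 1` and `u = ⌈2^j / α⌉`, then `(α - 1) u ≤ (α-1)(2^j/α + 1) < 2^j`, as `2^j / α > α - 1`), and then `⌊α u / 2^j⌋ ≥ 1`, `⌊α' u / 2^j⌋ = 0` for `α' < α`.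
`g(u, 2^j) = ∑_β C_β ⌊β u / 2^j⌋ = C_α ⌊α u / 2^j⌋ ≠ 0`, because `C_β = 0` for `β > α` (`Finset.sum_fiberwise`/`sum_comp`).  Contradiction.
-/

namespace Pool.Agent.MP_c3d1b0N

open Finset Filter

private lemma Group_step (n : ℕ) : sg n = n % 2 + sg (n / 2) := by
  unfold sg
  rcases Nat.eq_zero_or_pos n with h | h
  · subst h; simp
  · rw [Nat.digits_def' (by norm_num) h, List.sum_cons]

private lemma Group_leg (K : ℕ) : ∀ n : ℕ, n < 2 ^ K → (∑ j ∈ range K, n / 2 ^ (j + 1)) + sg n = n := by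
  induction K with
  | zero =>
    intro n hn
    have : n = 0 := by simpa using hn
    subst this
    unfold sg
    simp
  | succ K ih =>
    intro n hn
    have h1 : n / 2 < 2 ^ K := by
      rw [pow_succ] at hn
      omega
    have h2 := ih (n / 2) h1
    have h3 : ∀ j ∈ range K, n / 2 ^ (j + 1 + 1) = (n / 2) / 2 ^ (j + 1) := by
      intro j _
      rw [pow_succ 2 (j + 1), mul_comm, Nat.div_div_eq_div_mul]
    rw [Finset.sum_range_succ', Finset.sum_congr rfl h3, Group_step n]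
    simp only [zero_add, pow_one]
    omega

theorem group_zero {ι : Type} [Fintype ι] {a : ι → ℕ} {c : ι → ℤ} (ha : ∀ i, 0 < a i)
    (hac : ∑ i, (a i : ℤ) * c i = 0)
    (hG : ∀ u v : ℕ, 0 < v → 0 ≤ ∑ i, c i * ((a i * u / v : ℕ) : ℤ))
    (hle : ∀ u : ℕ, 0 < u → -∑ i, c i * (sg (a i * u) : ℤ) ≤ 0) (α : ℕ) :
    ∑ i ∈ univ.filter (fun i => a i = α), c i = 0 := by
  classical
  have hz : ∀ u : ℕ, 0 < u → ∀ j : ℕ, ∑ i, c i * ((a i * u / 2 ^ (j + 1) : ℕ) : ℤ) = 0 := by
    intro u hu j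
    set K := (∑ i, a i * u) + j + 1 with hK
    have hKi : ∀ i, a i * u < 2 ^ K := by
      intro i
      have h1 : a i * u ≤ ∑ i, a i * u :=
        Finset.single_le_sum (f := fun i => a i * u) (fun _ _ => Nat.zero_le _) (Finset.mem_univ i)
      have h2 : K < 2 ^ K := Nat.lt_two_pow_self
      omega
    have h1 : ∑ j ∈ range K, ∑ i, c i * ((a i * u / 2 ^ (j + 1) : ℕ) : ℤ) = -∑ i, c i * (sg (a i * u) : ℤ) := by
      rw [Finset.sum_comm]
      have h2 : ∀ i ∈ (univ : Finset ι), ∑ j ∈ range K, c i * ((a i * u / 2 ^ (j + 1) : ℕ) : ℤ) =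
          ((a i : ℤ) * c i) * u - c i * (sg (a i * u) : ℤ) := by
        intro i _
        rw [← Finset.mul_sum, ← Nat.cast_sum]
        have h3 : ((∑ j ∈ range K, a i * u / 2 ^ (j + 1) : ℕ) : ℤ) = (a i : ℤ) * u - (sg (a i * u) : ℤ) := by
          have h4 := Group_leg K (a i * u) (hKi i)
          have h5 : ((a i * u : ℕ) : ℤ) = (a i : ℤ) * u := by push_cast; ring
          omega
        rw [h3]
        ring
      rw [Finset.sum_congr rfl h2, Finset.sum_sub_distrib, ← Finset.sum_mul, hac]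
      ring
    have h2 : ∀ j ∈ range K, 0 ≤ ∑ i, c i * ((a i * u / 2 ^ (j + 1) : ℕ) : ℤ) :=
      fun j _ => hG u _ (by positivity)
    have h3 : ∑ j ∈ range K, ∑ i, c i * ((a i * u / 2 ^ (j + 1) : ℕ) : ℤ) = 0 :=
      le_antisymm (h1.le.trans (hle u hu)) (Finset.sum_nonneg h2)
    exact (Finset.sum_eq_zero_iff_of_nonneg h2).mp h3 j (Finset.mem_range.mpr (by omega))
  by_contra hne
  set Cf : ℕ → ℤ := fun β => ∑ i ∈ univ.filter (fun i => a i = β), c i with hCf
  have hmem : ∀ β : ℕ, Cf β ≠ 0 → β ∈ univ.image a := by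
    intro β hβ
    by_contra h
    apply hβ
    apply Finset.sum_eq_zero
    intro i hi
    exact absurd (Finset.mem_image.mpr ⟨i, Finset.mem_univ i, (Finset.mem_filter.mp hi).2⟩) h
  set S := (univ.image a).filter (fun β => Cf β ≠ 0) with hS
  have hSne : S.Nonempty := ⟨α, Finset.mem_filter.mpr ⟨hmem α hne, hne⟩⟩
  set γ := S.max' hSne with hγ
  have hγS : γ ∈ S := Finset.max'_mem S hSne
  have hγ0 : Cf γ ≠ 0 := (Finset.mem_filter.mp hγS).2
  have hγpos : 0 < γ := by
    obtain ⟨i, -, hi⟩ := Finset.mem_image.mp (Finset.mem_filter.mp hγS).1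
    rw [← hi]
    exact ha i
  have hbig : ∀ β : ℕ, γ < β → Cf β = 0 := by
    intro β hβ
    by_contra h
    have : β ≤ γ := Finset.le_max' S β (Finset.mem_filter.mpr ⟨hmem β h, h⟩)
    omega
  set N := 2 ^ (γ ^ 2 + 1) with hN
  have hNbig : γ ^ 2 + 1 < N := Nat.lt_two_pow_self
  set u := (N + γ - 1) / γ with hu
  have h1 : γ * u ≤ N + γ - 1 := Nat.mul_div_le _ _
  have h2 : N ≤ γ * u := by
    have h3 := Nat.div_add_mod (N + γ - 1) γ
    have h4 := Nat.mod_lt (N + γ - 1) hγpos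
    rw [← hu] at h3
    omega
  have h3 : γ < u := by
    by_contra h
    rw [not_lt] at h
    have h4 : γ * u ≤ γ * γ := Nat.mul_le_mul_left _ h
    have h5 : γ ^ 2 = γ * γ := sq γ
    omega
  have h4 : (γ - 1) * u < N := by
    have h5 : (γ - 1) * u = γ * u - u := by
      rw [Nat.sub_mul, one_mul]
    omega
  have key : ∑ i, c i * ((a i * u / N : ℕ) : ℤ) = ∑ β ∈ univ.image a, Cf β * ((β * u / N : ℕ) : ℤ) := by
    rw [← Finset.sum_fiberwise_of_maps_to (s := univ) (t := univ.image a) (g := a)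
      (fun i _ => Finset.mem_image_of_mem a (Finset.mem_univ i))]
    apply Finset.sum_congr rfl
    intro β _
    rw [hCf]
    simp only
    rw [Finset.sum_mul]
    apply Finset.sum_congr rfl
    intro i hi
    rw [(Finset.mem_filter.mp hi).2]
  rw [Finset.sum_eq_single γ] at key
  · rw [hz u (by omega) (γ ^ 2)] at key
    rcases mul_eq_zero.mp key.symm with h5 | h5
    · exact hγ0 h5
    · have h6 : 0 < γ * u / N := Nat.div_pos h2 (by positivity)
      have h7 : (γ * u / N : ℕ) = 0 := by exact_mod_cast h5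
      omega
  · intro β _ hβ
    rcases lt_or_gt_of_ne hβ with h5 | h5
    · have h6 : β * u / N = 0 := by
        apply Nat.div_eq_of_lt
        have h7 : β * u ≤ (γ - 1) * u := Nat.mul_le_mul_right _ (by omega)
        omega
      rw [h6]
      simp
    · rw [hbig β h5, zero_mul]
  · intro h
    exact absurd (Finset.mem_filter.mp hγS).1 h

end Pool.Agent.MP_c3d1b0N
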