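import Pool.Agent.Lib.MP_c3d1b0_coN.Defs

set_option autoImplicit false

/-!
# JOB Growth: the final contradiction (about 150 lines)

Hypotheses: `E t = q ^ (t(t-1)/2) * X t`, `X t = N₁ / N₂`, `N₁` a nonzero integer, `N₂ > 0`, both at most `t^(C t)`; `v_2(E t) ≤ A t`; `E t ≤ 2^(2 M² t²) t^(A t)`; and for every `m ≥ 1` there are arbitrarily large `t` with `2^(2 M² t² m) ≤ (E t)^m 2^(t²)`.
Put `e = t(t-1)/2`, `q = α / β` in lowest terms (`α = q.num`, `β = q.den`; `q ≠ 0`).  Then `E t * β^e * N₂ = α^e * N₁` (integers).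
(1) `β^e` is prime to `α^e`, so `β^e ∣ N₁`: `β^e ≤ t^(C t)`; if `β ≥ 2` then `2^(t(t-1)/2) ≤ t^(C t)` for all large `t`, false.  So `β = 1`.
(2) `α^e ∣ E t * N₂`.  If `α` is even then `e ≤ v_2(α^e) ≤ v_2(E t) + v_2(N₂) ≤ A t + C t (log_2 t + 1)`, false for large `t`.  So `α` is odd.
(3) `|α|^e ≤ E t N₂ ≤ 2^(2 M² t²) t^((A + C) t)`.  If `|α| ≥ 2^(4 M²) + 1` then, with `λ = log_2(2^(4M²)+1) > 4 M²`: `λ t(t-1)/2 ≤ 2 M² t² + (A+C) t log_2 t`, false for large `t`.  As `|α|` is odd and `2^(4M²)` is even (`M > 0`), `|α| ≤ 2^(4 M²) - 1`.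
(4) `E t = α^e N₁ / N₂ ≤ (2^(4M²) - 1)^(t²/2) t^(C t)` (`E t ≤ |α|^e |N₁|`).  Let `μ = log_2 (2^(4M²) - 1) < 4 M²`, choose `m ≥ 1` with `1/m < (4 M² - μ)/4`.  For arbitrarily large `t`: `2 M² t² ≤ log_2 (E t) + t²/m ≤ μ t²/2 + C t log_2 t + t²/m`, so
`(4 M² - μ)/4 ≤ (2 M² - μ/2) - 1/m ≤ C (log_2 t)/t`, false for large `t`.
(Real logarithms `Real.logb 2` or `Real.log`; `Real.log t / t → 0`: `Real.isLittleO_log_id_atTop`, or `Real.log t ≤ 2 sqrt t`.)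
-/

namespace Pool.Agent.MP_c3d1b0N

open Finset Filter

private theorem Growth_L1 (c δ : ℝ) (hδ : 0 < δ) :
    ∀ᶠ t : ℕ in atTop, c * t * Real.log t < δ * (t : ℝ) ^ 2 := by
  have h : Tendsto (fun n : ℕ => Real.log (n : ℝ) / (n : ℝ)) atTop (nhds 0) :=
    (Real.isLittleO_log_id_atTop.tendsto_div_nhds_zero).comp tendsto_natCast_atTop_atTop
  have hc : 0 < δ / (|c| + 1) := by positivity
  filter_upwards [h.eventually_lt_const hc, eventually_ge_atTop 1] with t ht ht1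
  have ht0 : (0 : ℝ) < t := by exact_mod_cast ht1
  have hlog : 0 ≤ Real.log (t : ℝ) := Real.log_natCast_nonneg t
  rw [div_lt_iff₀ ht0] at ht
  have h1 : c * t * Real.log t ≤ |c| * t * Real.log t :=
    mul_le_mul_of_nonneg_right (mul_le_mul_of_nonneg_right (le_abs_self c) ht0.le) hlog
  have h2 : |c| * t * Real.log t ≤ |c| * t * (δ / (|c| + 1) * t) :=
    mul_le_mul_of_nonneg_left ht.le (by positivity)
  have h3 : |c| * t * (δ / (|c| + 1) * t) = δ * (t : ℝ) ^ 2 * (|c| / (|c| + 1)) := by ring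
  have h4 : |c| / (|c| + 1) < 1 := by
    rw [div_lt_one (by positivity)]; linarith
  have h5 : 0 < δ * (t : ℝ) ^ 2 := by positivity
  nlinarith

private theorem Growth_e {t : ℕ} (ht : 1 ≤ t) :
    ((t * (t - 1) / 2 : ℕ) : ℝ) = ((t : ℝ) ^ 2 - t) / 2 := by
  obtain ⟨k, rfl⟩ : ∃ k, t = k + 1 := ⟨t - 1, by omega⟩
  have h : 2 * ((k + 1) * (k + 1 - 1) / 2) = (k + 1) * (k + 1 - 1) :=
    Nat.mul_div_cancel' (Nat.even_mul_pred_self (k + 1)).two_dvd
  have h' : (2 : ℝ) * (((k + 1) * (k + 1 - 1) / 2 : ℕ) : ℝ) = ((k : ℝ) + 1) * k := by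
    have h2 : ((2 * ((k + 1) * (k + 1 - 1) / 2) : ℕ) : ℝ) = (((k + 1) * (k + 1 - 1) : ℕ) : ℝ) := by
      rw [h]
    rw [Nat.add_sub_cancel] at h2 ⊢
    push_cast at h2 ⊢
    linarith
  push_cast at h' ⊢
  linarith

private theorem Growth_logpow {t c n : ℕ} (h : n ≤ t ^ (c * t)) (hn : 0 < n) :
    Real.log n ≤ c * t * Real.log t := by
  have h1 : (n : ℝ) ≤ (t : ℝ) ^ (c * t) := by exact_mod_cast h
  have h2 := Real.log_le_log (by exact_mod_cast hn : (0 : ℝ) < n) h1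
  rw [Real.log_pow] at h2
  push_cast at h2
  exact h2

private theorem Growth_int {Et : ℕ} {q : ℚ} {e : ℕ} {N₁ : ℤ} {N₂ : ℕ} (hN₂ : 0 < N₂)
    (h : (Et : ℚ) = q ^ e * ((N₁ : ℚ) / N₂)) :
    (Et : ℤ) * (q.den : ℤ) ^ e * N₂ = q.num ^ e * N₁ := by
  have h0 : (N₂ : ℚ) ≠ 0 := by exact_mod_cast hN₂.ne'
  have h1 : q ^ e * (q.den : ℚ) ^ e = (q.num : ℚ) ^ e := by
    rw [← mul_pow, Rat.mul_den_eq_num]
  have h2 : (Et : ℚ) * (q.den : ℚ) ^ e * N₂ = (q.num : ℚ) ^ e * N₁ := by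
    rw [h, ← h1]
    field_simp
  exact_mod_cast h2

theorem growth_contra (E : ℕ → ℕ) (M : ℕ) (hM : 0 < M) (q : ℚ) (X : ℕ → ℚ) (C : ℕ)
    (hX : ∀ᶠ t : ℕ in atTop, ∃ (N₁ : ℤ) (N₂ : ℕ), 0 < N₂ ∧ N₁.natAbs ≤ t ^ (C * t) ∧ N₂ ≤ t ^ (C * t) ∧
      X t = (N₁ : ℚ) / N₂)
    (hrep : ∀ᶠ t : ℕ in atTop, (E t : ℚ) = q ^ (t * (t - 1) / 2) * X t)
    (hE : ∀ᶠ t : ℕ in atTop, E t ≠ 0)
    (hv : ∃ A : ℕ, ∀ᶠ t : ℕ in atTop, padicValNat 2 (E t) ≤ A * t)
    (hup : ∃ A : ℕ, ∀ᶠ t : ℕ in atTop, E t ≤ 2 ^ (2 * M ^ 2 * t ^ 2) * t ^ (A * t))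
    (hlow : ∀ m : ℕ, 0 < m → ∃ᶠ t : ℕ in atTop, 2 ^ (2 * M ^ 2 * t ^ 2 * m) ≤ (E t) ^ m * 2 ^ (t ^ 2)) :
    False := by
  classical
  obtain ⟨A, hA⟩ := hv
  obtain ⟨A', hA'⟩ := hup
  have hlog2 : 0 < Real.log 2 := Real.log_pos (by norm_num)
  -- the denominator of `q` is `1`
  have hden : q.den = 1 := by
    by_contra hne
    have hd2 : 2 ≤ q.den := by
      have := q.den_pos
      omega
    have hev := Growth_L1 C (Real.log 2 / 4) (by positivity)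
    obtain ⟨t, h1, h2, h3, h4, h5⟩ := (hX.and (hrep.and (hE.and (hev.and
      (eventually_ge_atTop 2))))).exists
    obtain ⟨N₁, N₂, hN₂, hN₁b, hN₂b, hXt⟩ := h1
    rw [hXt] at h2
    have hint := Growth_int hN₂ h2
    have hN₁0 : N₁ ≠ 0 := by
      rintro rfl
      have : (E t : ℤ) * (q.den : ℤ) ^ (t * (t - 1) / 2) * N₂ ≠ 0 := by
        have := q.den_pos
        positivity
      exact this (by rw [hint]; ring)
    have hcop : IsCoprime ((q.den : ℤ) ^ (t * (t - 1) / 2)) (q.num ^ (t * (t - 1) / 2)) := by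
      apply IsCoprime.pow
      rw [Int.isCoprime_iff_nat_coprime]
      simpa using q.reduced.symm
    have hdvd : (q.den : ℤ) ^ (t * (t - 1) / 2) ∣ N₁ := by
      apply hcop.dvd_of_dvd_mul_left
      rw [← hint]
      exact ⟨E t * N₂, by ring⟩
    have hle : q.den ^ (t * (t - 1) / 2) ≤ N₁.natAbs := by
      have h6 : q.den ^ (t * (t - 1) / 2) ∣ N₁.natAbs := by
        have h7 := Int.natAbs_dvd_natAbs.2 hdvd
        simpa [Int.natAbs_pow] using h7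
      exact Nat.le_of_dvd (Int.natAbs_pos.2 hN₁0) h6
    have hle2 : 2 ^ (t * (t - 1) / 2) ≤ t ^ (C * t) :=
      (Nat.pow_le_pow_left hd2 _).trans (hle.trans hN₁b)
    have h8 := Growth_logpow hle2 (by positivity)
    rw [Nat.cast_pow, Real.log_pow, Growth_e (by omega)] at h8
    have ht : (2 : ℝ) ≤ t := by exact_mod_cast h5
    have h9 : Real.log 2 / 4 * (t : ℝ) ^ 2 ≤ ((t : ℝ) ^ 2 - t) / 2 * Real.log 2 := by
      nlinarith [mul_nonneg hlog2.le (by nlinarith : (0 : ℝ) ≤ (t : ℝ) ^ 2 - 2 * t)]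
    push_cast at h8
    linarith
  -- basic facts for large `t`
  have hfacts : ∀ᶠ t : ℕ in atTop, ∃ (N₁ : ℤ) (N₂ : ℕ), 0 < N₂ ∧ N₁.natAbs ≤ t ^ (C * t) ∧
      N₂ ≤ t ^ (C * t) ∧ N₁ ≠ 0 ∧
      E t * N₂ = q.num.natAbs ^ (t * (t - 1) / 2) * N₁.natAbs := by
    filter_upwards [hX, hrep, hE] with t h1 h2 h3
    obtain ⟨N₁, N₂, hN₂, hN₁b, hN₂b, hXt⟩ := h1
    rw [hXt] at h2
    have hint := Growth_int hN₂ h2
    rw [hden] at hint
    have hint' : (E t : ℤ) * N₂ = q.num ^ (t * (t - 1) / 2) * N₁ := by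
      rw [← hint]; push_cast; ring
    refine ⟨N₁, N₂, hN₂, hN₁b, hN₂b, ?_, ?_⟩
    · rintro rfl
      have : (E t : ℤ) * N₂ ≠ 0 := by positivity
      exact this (by rw [hint']; ring)
    · have h4 := congrArg Int.natAbs hint'
      rw [Int.natAbs_mul, Int.natAbs_mul, Int.natAbs_pow] at h4
      simpa using h4
  obtain ⟨a, ha⟩ : ∃ a : ℕ, a = q.num.natAbs := ⟨_, rfl⟩
  rw [← ha] at hfacts
  -- `a` is odd
  have hodd : ¬ 2 ∣ a := by
    intro hdvd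
    have hev := Growth_L1 (A * Real.log 2 + C) (Real.log 2 / 4) (by positivity)
    obtain ⟨t, h1, h3, h4, h5, h6⟩ := (hfacts.and (hE.and (hev.and
      (hA.and (eventually_ge_atTop 3))))).exists
    obtain ⟨N₁, N₂, hN₂, hN₁b, hN₂b, hN₁0, hint⟩ := h1
    have h7 : 2 ^ (t * (t - 1) / 2) ∣ E t * N₂ := by
      rw [hint]
      exact Dvd.dvd.mul_right (pow_dvd_pow_of_dvd hdvd _) _
    have : Fact (Nat.Prime 2) := ⟨Nat.prime_two⟩
    have h8 : t * (t - 1) / 2 ≤ padicValNat 2 (E t * N₂) :=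
      (padicValNat_dvd_iff_le (Nat.mul_ne_zero h3 hN₂.ne')).1 h7
    rw [padicValNat.mul h3 hN₂.ne'] at h8
    have h9 : 2 ^ padicValNat 2 N₂ ≤ t ^ (C * t) :=
      (Nat.le_of_dvd hN₂ pow_padicValNat_dvd).trans hN₂b
    have h10 := Growth_logpow h9 (by positivity)
    rw [Nat.cast_pow, Real.log_pow] at h10
    have h11 : ((t * (t - 1) / 2 : ℕ) : ℝ) ≤ A * t + padicValNat 2 N₂ := by
      have : t * (t - 1) / 2 ≤ A * t + padicValNat 2 N₂ := h8.trans (Nat.add_le_add_right h5 _)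
      exact_mod_cast this
    rw [Growth_e (by omega)] at h11
    have ht : (3 : ℝ) ≤ t := by exact_mod_cast h6
    have hlt : 1 ≤ Real.log (t : ℝ) := by
      rw [Real.le_log_iff_exp_le (by linarith)]
      have := Real.exp_one_lt_d9
      linarith
    have h12 : Real.log 2 / 4 * (t : ℝ) ^ 2 ≤ ((t : ℝ) ^ 2 - t) / 2 * Real.log 2 := by
      nlinarith [mul_nonneg hlog2.le (by nlinarith : (0 : ℝ) ≤ (t : ℝ) ^ 2 - 2 * t)]
    have h13 : ((t : ℝ) ^ 2 - t) / 2 * Real.log 2 ≤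
        (A * t + padicValNat 2 N₂) * Real.log 2 := mul_le_mul_of_nonneg_right h11 hlog2.le
    have h14 : (A : ℝ) * t * Real.log 2 ≤ A * t * Real.log 2 * Real.log t := by
      have : (0 : ℝ) ≤ A * t * Real.log 2 := by positivity
      nlinarith
    push_cast at h10
    nlinarith
  -- the number `2 ^ (4 M ^ 2)`
  obtain ⟨W, hW⟩ : ∃ W : ℕ, W = 2 ^ (4 * M ^ 2) := ⟨_, rfl⟩
  have hM2 : 1 ≤ 4 * M ^ 2 := by
    have : 0 < M ^ 2 := by positivity
    omega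
  have hW2 : 2 ∣ W := by
    rw [hW]; exact dvd_pow_self 2 (by omega)
  have hW1 : 2 ≤ W := by
    rw [hW]
    calc 2 = 2 ^ 1 := rfl
      _ ≤ 2 ^ (4 * M ^ 2) := Nat.pow_le_pow_right (by norm_num) hM2
  have hlogW : Real.log W = 4 * (M : ℝ) ^ 2 * Real.log 2 := by
    rw [hW, Nat.cast_pow, Real.log_pow]; push_cast; ring
  -- `a < W`
  have haW : a < W := by
    by_contra hcon
    have haW1 : W + 1 ≤ a := by
      rcases Nat.lt_or_ge W a with h | h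
      · exact h
      · exfalso
        have : a = W := by omega
        exact hodd (this ▸ hW2)
    obtain ⟨lam, hlam⟩ : ∃ lam : ℝ, lam = Real.log ((W + 1 : ℕ) : ℝ) := ⟨_, rfl⟩
    have hlamW : Real.log W < lam := by
      rw [hlam]
      exact Real.log_lt_log (by exact_mod_cast (by omega : 0 < W)) (by exact_mod_cast Nat.lt_succ_self W)
    have hlam0 : 0 ≤ lam := by rw [hlam]; exact Real.log_natCast_nonneg _
    have hev := Growth_L1 (lam / 2 + A' + C) ((lam - Real.log W) / 2) (by linarith)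
    obtain ⟨t, h1, h3, h4, h5, h6⟩ := (hfacts.and (hE.and (hev.and
      (hA'.and (eventually_ge_atTop 3))))).exists
    obtain ⟨N₁, N₂, hN₂, hN₁b, hN₂b, hN₁0, hint⟩ := h1
    have h7 : (W + 1) ^ (t * (t - 1) / 2) ≤ 2 ^ (2 * M ^ 2 * t ^ 2) * t ^ (A' * t) * t ^ (C * t) := by
      calc (W + 1) ^ (t * (t - 1) / 2) ≤ a ^ (t * (t - 1) / 2) := Nat.pow_le_pow_left haW1 _
        _ ≤ a ^ (t * (t - 1) / 2) * N₁.natAbs :=
            Nat.le_mul_of_pos_right _ (Int.natAbs_pos.2 hN₁0)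
        _ = E t * N₂ := hint.symm
        _ ≤ _ := Nat.mul_le_mul h5 hN₂b
    have ht : (3 : ℝ) ≤ t := by exact_mod_cast h6
    have ht0 : (0 : ℝ) < t := by linarith
    have h8 : (((W + 1 : ℕ) : ℝ)) ^ (t * (t - 1) / 2) ≤
        2 ^ (2 * M ^ 2 * t ^ 2) * (t : ℝ) ^ (A' * t) * (t : ℝ) ^ (C * t) := by exact_mod_cast h7
    have h9 := Real.log_le_log (by positivity) h8
    rw [Real.log_mul (by positivity) (by positivity), Real.log_mul (by positivity) (by positivity),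
      Real.log_pow, Real.log_pow, Real.log_pow, Real.log_pow, Growth_e (by omega), ← hlam] at h9
    push_cast at h9
    have hlt : 1 ≤ Real.log (t : ℝ) := by
      rw [Real.le_log_iff_exp_le (by linarith)]
      have := Real.exp_one_lt_d9
      linarith
    have h10 : lam / 2 * t ≤ lam / 2 * t * Real.log t := by
      have : (0 : ℝ) ≤ lam / 2 * t := by positivity
      nlinarith
    rw [hlogW] at h4
    nlinarith
  -- the contradiction
  have haW' : a ≤ W - 1 := by omega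
  obtain ⟨mu, hmu⟩ : ∃ mu : ℝ, mu = Real.log ((W - 1 : ℕ) : ℝ) := ⟨_, rfl⟩
  have hmuW : mu < Real.log W := by
    rw [hmu]
    exact Real.log_lt_log (by exact_mod_cast (by omega : 0 < W - 1))
      (by exact_mod_cast (by omega : W - 1 < W))
  have hmu0 : 0 ≤ mu := by rw [hmu]; exact Real.log_natCast_nonneg _
  obtain ⟨m, hm⟩ := exists_nat_gt (4 * Real.log 2 / (Real.log W - mu))
  have hdpos : 0 < Real.log W - mu := by linarith
  have hm0 : 0 < m := by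
    have : (0 : ℝ) < m := lt_trans (by positivity) hm
    exact_mod_cast this
  have hm' : 4 * Real.log 2 < m * (Real.log W - mu) := by
    rwa [div_lt_iff₀ hdpos] at hm
  have hev := Growth_L1 C ((Real.log W - mu) / 4) (by linarith)
  obtain ⟨t, h0, h1, h3, h4, h6⟩ := ((hlow m hm0).and_eventually (hfacts.and (hE.and (hev.and
      (eventually_ge_atTop 3))))).exists
  obtain ⟨N₁, N₂, hN₂, hN₁b, hN₂b, hN₁0, hint⟩ := h1
  have h7 : E t ≤ (W - 1) ^ (t * (t - 1) / 2) * t ^ (C * t) := by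
    calc E t ≤ E t * N₂ := Nat.le_mul_of_pos_right _ hN₂
      _ = a ^ (t * (t - 1) / 2) * N₁.natAbs := hint
      _ ≤ _ := Nat.mul_le_mul (Nat.pow_le_pow_left haW' _) hN₁b
  have ht : (3 : ℝ) ≤ t := by exact_mod_cast h6
  have ht0 : (0 : ℝ) < t := by linarith
  have hE0 : (0 : ℝ) < E t := by exact_mod_cast Nat.pos_of_ne_zero h3
  have hW10 : (0 : ℝ) < ((W - 1 : ℕ) : ℝ) := by exact_mod_cast (by omega : 0 < W - 1)
  have h8 : (E t : ℝ) ≤ (((W - 1 : ℕ) : ℝ)) ^ (t * (t - 1) / 2) * (t : ℝ) ^ (C * t) := by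
    exact_mod_cast h7
  have h9 := Real.log_le_log hE0 h8
  rw [Real.log_mul (by positivity) (by positivity), Real.log_pow, Real.log_pow,
    Growth_e (by omega), ← hmu] at h9
  push_cast at h9
  have h10 : (2 : ℝ) ^ (2 * M ^ 2 * t ^ 2 * m) ≤ (E t : ℝ) ^ m * 2 ^ (t ^ 2) := by
    exact_mod_cast h0
  have h11 := Real.log_le_log (by positivity) h10
  rw [Real.log_mul (by positivity) (by positivity), Real.log_pow, Real.log_pow, Real.log_pow] at h11
  push_cast at h11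
  have hmR : (0 : ℝ) < m := by exact_mod_cast hm0
  have hsq : (0 : ℝ) < (t : ℝ) ^ 2 := by positivity
  -- divide by `m`
  have h12 : (m : ℝ) * (2 * (M : ℝ) ^ 2 * (t : ℝ) ^ 2 * Real.log 2) ≤
      m * (((t : ℝ) ^ 2 - t) / 2 * mu + C * t * Real.log t) + (t : ℝ) ^ 2 * Real.log 2 := by
    have := mul_le_mul_of_nonneg_left h9 hmR.le
    nlinarith
  have h13 : (t : ℝ) ^ 2 * Real.log 2 < m * ((Real.log W - mu) / 4 * (t : ℝ) ^ 2) := by
    nlinarith
  have h14 : 2 * (M : ℝ) ^ 2 * (t : ℝ) ^ 2 * Real.log 2 <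
      ((t : ℝ) ^ 2 - t) / 2 * mu + C * t * Real.log t + (Real.log W - mu) / 4 * (t : ℝ) ^ 2 := by
    refine lt_of_mul_lt_mul_left ?_ hmR.le
    calc _ ≤ _ := h12
      _ < m * (((t : ℝ) ^ 2 - t) / 2 * mu + C * t * Real.log t) +
          m * ((Real.log W - mu) / 4 * (t : ℝ) ^ 2) := by linarith
      _ = _ := by ring
  rw [hlogW] at h14 h4
  have h15 : 0 ≤ mu * t := by positivity
  nlinarith

end Pool.Agent.MP_c3d1b0N
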