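import Pool.Agent.Lib.MP_c3d1b0_coN.Defs
import Pool.Agent.Lib.MP_c3d1b0_co.Best4

set_option autoImplicit false

/-!
# JOB TourLow: regular tournaments with a spanning tree from balanced matrices (about 160 lines)

`TG V s r`, `EE V s r` are in `Pool.Agent.Lib.MP_c3d1b0_co.Defs` (pairs: regular tournament `T` of out-degree `s`, parent function `g` of a spanning tree oriented to the root `r`); `EE_congr : EE V s r = EE V' s (e r)` for `e : V ≃ V'` and
`EE_root : EE V s r = EE V s r'` are in `Best4` (namespace `Pool.Agent.MP_c3d1b0`, open).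
(1) `V := Option (Fin L × Fin (2 k))`, `Fintype.card V = 2 (k L) + 1`, so `EE (Fin (2 (k L) + 1)) (k L) 0 = EE V (k L) none` by `EE_congr` and `EE_root` (`Fintype.equivOfCardEq`).
(2) For a family `B : (Σ i : Fin L, Fin i) → Bal (Fin (2 k)) k` (the type has `card^(L(L-1)/2)` elements: `Nat.card_fun`/`Nat.card_pi`, `Fintype.card_sigma`, `Finset.sum_range_id`) let `T : V → V → Bool`:
* `(ℓ, x) → (ℓ', y)` for `ℓ' < ℓ`: iff `B ⟨ℓ, ℓ'⟩ x y = true`; for `ℓ < ℓ'`: iff `B ⟨ℓ', ℓ⟩ y x = false`;
* `(ℓ, x) → (ℓ, y)`: iff (`x < y` and `y - x ≤ k`) or (`y < x` and `k + 1 ≤ x - y`);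
* `(ℓ, x) → none` iff `k ≤ x`; `none → (ℓ, x)` iff `x < k`; no arc `none → none`.
It is a tournament.  Out-degrees: `(ℓ, x)` has `k` out-neighbours in each other layer `ℓ'` (row sum `k`, or `2 k -` column sum `= k`), and `k` out-neighbours in its own layer with `none` (`x < k`: the `k` vertices `x+1, ..., x+k`, and `x - y ≥ k + 1` is
impossible; `x ≥ k`: the `2k - 1 - x` vertices above, the `x - k` vertices `y ≤ x - k - 1`, and `none`: together `k`); so `k L` in all.  `none` has `k` out-neighbours in each layer: `k L`.
(The count is easiest as a sum over the layers: `outdeg T v = (if T v none then 1 else 0) + ∑ ℓ', card {y | T v (ℓ', y)}` by `Fintype.sum_option`, `Fintype.sum_prod_type`, with `outdeg = ∑ b, if T a b then 1 else 0` (`Finset.card_filter`).)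
(3) The parent function `g (ℓ, x) = (ℓ, x + 1)` if `x + 1 < 2 k`, `= none` if `x + 1 = 2 k`, `g none = none`; `IsArb none g` (`g^[2k - x] (ℓ, x) = none`), and `T v (g v) = true` for `v ≠ none` (`k ≥ 1` because `2 k > x ≥ 0`).
(4) `B ↦ (T, g)` is injective (the values `B ⟨ℓ, ℓ'⟩ x y` are values of `T`), so the number of families is at most `EE V (k L) none` (`Nat.card_le_card_of_injective`, with `Finite (TG ..)`).
-/

namespace Pool.Agent.MP_c3d1b0N

open Finset Pool.Agent.MP_c3d1b0

private def TourLow_in (k : ℕ) (x y : Fin (2 * k)) : Bool :=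
  decide ((x.val < y.val ∧ y.val - x.val ≤ k) ∨ (y.val < x.val ∧ k + 1 ≤ x.val - y.val))

private def TourLow_T {k L : ℕ} (B : (Σ i : Fin L, Fin i) → Bal (Fin (2 * k)) k) :
    Option (Fin L × Fin (2 * k)) → Option (Fin L × Fin (2 * k)) → Bool
  | none, none => false
  | none, some q => decide (q.2.val < k)
  | some p, none => decide (k ≤ p.2.val)
  | some p, some q =>
    if h : q.1 < p.1 then (B ⟨p.1, ⟨q.1, h⟩⟩).1 p.2 q.2
    else if h : p.1 < q.1 then !(B ⟨q.1, ⟨p.1, h⟩⟩).1 q.2 p.2
    else TourLow_in k p.2 q.2

private def TourLow_g {k L : ℕ} : Option (Fin L × Fin (2 * k)) → Option (Fin L × Fin (2 * k))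
  | none => none
  | some p => if h : p.2.val + 1 < 2 * k then some (p.1, ⟨p.2.val + 1, h⟩) else none

private lemma TourLow_arb {k L : ℕ} : IsArb none (TourLow_g (k := k) (L := L)) := by
  refine ⟨rfl, ?_⟩
  have key : ∀ n : ℕ, ∀ p : Fin L × Fin (2 * k), 2 * k - p.2.val ≤ n →
      ∃ m : ℕ, (TourLow_g (k := k) (L := L))^[m] (some p) = none := by
    intro n
    induction n with
    | zero =>
      intro p hp
      have := p.2.2
      omega
    | succ n ih =>
      intro p hp
      by_cases h : p.2.val + 1 < 2 * k
      · obtain ⟨m, hm⟩ := ih (p.1, ⟨p.2.val + 1, h⟩) (by simp only; omega)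
        refine ⟨m + 1, ?_⟩
        rw [Function.iterate_succ_apply]
        have h1 : TourLow_g (k := k) (L := L) (some p) = some (p.1, ⟨p.2.val + 1, h⟩) := by
          simp only [TourLow_g, h, dif_pos]
        rw [h1]
        exact hm
      · refine ⟨1, ?_⟩
        simp only [Function.iterate_one, TourLow_g, h, dif_neg, not_false_eq_true]
  intro v
  cases v with
  | none => exact ⟨0, rfl⟩
  | some p => exact key _ p le_rfl

private lemma TourLow_par {k L : ℕ} (B : (Σ i : Fin L, Fin i) → Bal (Fin (2 * k)) k)
    (v : Option (Fin L × Fin (2 * k))) (hv : v ≠ none) : TourLow_T B v (TourLow_g v) = true := by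
  cases v with
  | none => exact absurd rfl hv
  | some p =>
    have hp := p.2.2
    by_cases h : p.2.val + 1 < 2 * k
    · have h1 : TourLow_g (k := k) (L := L) (some p) = some (p.1, ⟨p.2.val + 1, h⟩) := by
        simp only [TourLow_g, h, dif_pos]
      rw [h1]
      simp only [TourLow_T, lt_irrefl, dif_neg, not_false_eq_true, TourLow_in]
      rw [decide_eq_true_eq]
      left
      constructor <;> omega
    · have h1 : TourLow_g (k := k) (L := L) (some p) = none := by
        simp only [TourLow_g, h, dif_neg, not_false_eq_true]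
      rw [h1]
      simp only [TourLow_T]
      rw [decide_eq_true_eq]
      omega

private lemma TourLow_in_not {k : ℕ} {x y : Fin (2 * k)} (h : x ≠ y) :
    TourLow_in k x y = !TourLow_in k y x := by
  have h' : x.val ≠ y.val := fun e => h (Fin.ext e)
  have hx := x.2
  have hy := y.2
  unfold TourLow_in
  rw [← decide_not, decide_eq_decide]
  omega

private lemma TourLow_tour {k L : ℕ} (B : (Σ i : Fin L, Fin i) → Bal (Fin (2 * k)) k) :
    IsTour (TourLow_T B) := by
  constructor
  · intro a
    cases a with
    | none => rfl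
    | some p =>
      simp only [TourLow_T, lt_irrefl, dif_neg, not_false_eq_true, TourLow_in]
      simp
  · intro a b hab
    cases a with
    | none =>
      cases b with
      | none => exact absurd rfl hab
      | some q =>
        simp only [TourLow_T]
        rw [← decide_not, decide_eq_decide]
        omega
    | some p =>
      cases b with
      | none =>
        simp only [TourLow_T]
        rw [← decide_not, decide_eq_decide]
        omega
      | some q =>
        simp only [TourLow_T]
        rcases lt_trichotomy p.1 q.1 with h | h | h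
        · have h' : ¬ q.1 < p.1 := not_lt.mpr h.le
          simp only [h, h', dif_pos, dif_neg, not_false_eq_true]
        · have h1 : ¬ q.1 < p.1 := by rw [h]; exact lt_irrefl _
          have h2 : ¬ p.1 < q.1 := by rw [h]; exact lt_irrefl _
          simp only [h1, h2, dif_neg, not_false_eq_true]
          apply TourLow_in_not
          intro e
          exact hab (congrArg some (Prod.ext h e))
        · have h' : ¬ p.1 < q.1 := not_lt.mpr h.le
          simp only [h, h', dif_pos, dif_neg, not_false_eq_true, Bool.not_not]

private lemma TourLow_cnt {k : ℕ} (x : Fin (2 * k)) :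
    (if k ≤ x.val then 1 else 0) + (univ.filter (fun y => TourLow_in k x y = true)).card = k := by
  have hx := x.2
  have h1 : (univ.filter (fun y => TourLow_in k x y = true)).card =
      (Finset.Ioc x.val (min (x.val + k) (2 * k - 1)) ∪ range (x.val - k)).card := by
    rw [← Finset.card_map Fin.valEmbedding]
    apply congrArg
    ext j
    simp only [Finset.mem_map, Finset.mem_filter, Finset.mem_univ, true_and, Fin.valEmbedding_apply,
      Finset.mem_union, Finset.mem_Ioc, Finset.mem_range, TourLow_in, decide_eq_true_eq]
    constructor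
    · rintro ⟨y, hy, rfl⟩
      have := y.2
      omega
    · intro h
      exact ⟨⟨j, by omega⟩, by simp only; omega, rfl⟩
  rw [h1, Finset.card_union_of_disjoint]
  · rw [Nat.card_Ioc, Finset.card_range]
    split_ifs <;> omega
  · rw [Finset.disjoint_left]
    intro j hj hj'
    rw [Finset.mem_Ioc] at hj
    rw [Finset.mem_range] at hj'
    omega

private lemma TourLow_none {k : ℕ} : (univ.filter (fun y : Fin (2 * k) => decide (y.val < k) = true)).card = k := by
  have h1 : (univ.filter (fun y : Fin (2 * k) => decide (y.val < k) = true)).card = (range k).card := by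
    rw [← Finset.card_map Fin.valEmbedding]
    apply congrArg
    ext j
    simp only [Finset.mem_map, Finset.mem_filter, Finset.mem_univ, true_and, Fin.valEmbedding_apply,
      Finset.mem_range, decide_eq_true_eq]
    constructor
    · rintro ⟨y, hy, rfl⟩
      exact hy
    · intro h
      exact ⟨⟨j, by omega⟩, h, rfl⟩
  rw [h1, Finset.card_range]

private lemma TourLow_sum {k L : ℕ} (T : Option (Fin L × Fin (2 * k)) → Option (Fin L × Fin (2 * k)) → Bool)
    (v : Option (Fin L × Fin (2 * k))) :
    outdeg T v = (if T v none = true then 1 else 0) +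
      ∑ l : Fin L, (univ.filter (fun y => T v (some (l, y)) = true)).card := by
  unfold outdeg
  rw [Finset.card_filter, Fintype.sum_option, Fintype.sum_prod_type]
  simp only [Finset.card_filter]

private lemma TourLow_deg {k L : ℕ} (B : (Σ i : Fin L, Fin i) → Bal (Fin (2 * k)) k)
    (v : Option (Fin L × Fin (2 * k))) : outdeg (TourLow_T B) v = k * L := by
  rw [TourLow_sum]
  cases v with
  | none =>
    simp only [TourLow_T, TourLow_none]
    simp [mul_comm]
  | some p =>
    obtain ⟨l, x⟩ := p
    have hl := l.2
    have h1 : ∀ l' : Fin L, l' ≠ l →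
        (univ.filter (fun y => TourLow_T B (some (l, x)) (some (l', y)) = true)).card = k := by
      intro l' hne
      rcases lt_or_gt_of_ne hne with h | h
      · simp only [TourLow_T, h, dif_pos]
        exact (B ⟨l, ⟨l', h⟩⟩).2.1 x
      · have h' : ¬ l' < l := not_lt.mpr h.le
        have h'' : l < l' := h
        simp only [TourLow_T, h', h'', dif_pos, dif_neg, not_false_eq_true]
        have h2 := (B ⟨l', ⟨l, h''⟩⟩).2.2 x
        have h3 := Finset.card_filter_add_card_filter_not (s := (univ : Finset (Fin (2 * k))))
          (fun y => (B ⟨l', ⟨l, h''⟩⟩).1 y x = true)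
        rw [h2, Finset.card_univ, Fintype.card_fin] at h3
        simp only [Bool.not_eq_true] at h3
        simp only [Bool.not_eq_true']
        omega
    have h2 : (univ.filter (fun y => TourLow_T B (some (l, x)) (some (l, y)) = true)).card =
        (univ.filter (fun y => TourLow_in k x y = true)).card := by
      simp only [TourLow_T, lt_irrefl, dif_neg, not_false_eq_true]
    have h3 := TourLow_cnt x
    rw [← Finset.add_sum_erase univ _ (Finset.mem_univ l), h2, Finset.sum_congr rfl (g := fun _ => k)]
    · rw [Finset.sum_const, Finset.card_erase_of_mem (Finset.mem_univ l), Finset.card_univ, Fintype.card_fin,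
        smul_eq_mul]
      have h4 : (if TourLow_T B (some (l, x)) none = true then 1 else 0) = (if k ≤ x.val then 1 else 0) := by
        simp only [TourLow_T, decide_eq_true_eq]
      rw [h4, ← add_assoc, h3]
      obtain ⟨m, rfl⟩ : ∃ m, L = m + 1 := ⟨L - 1, by omega⟩
      simp only [Nat.add_sub_cancel]
      ring
    · intro l' hl'
      exact h1 l' (Finset.ne_of_mem_erase hl')

private lemma TourLow_card (L : ℕ) : Nat.card (Σ i : Fin L, Fin i) = L * (L - 1) / 2 := by
  rw [Nat.card_sigma]
  simp only [Nat.card_eq_fintype_card, Fintype.card_fin]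
  rw [Fin.sum_univ_eq_sum_range (fun i => i) L, Finset.sum_range_id]

theorem tour_lower (k L : ℕ) :
    (Nat.card (Bal (Fin (2 * k)) k)) ^ (L * (L - 1) / 2) ≤ EE (Fin (2 * (k * L) + 1)) (k * L) 0 := by
  have hcard : Fintype.card (Option (Fin L × Fin (2 * k))) = Fintype.card (Fin (2 * (k * L) + 1)) := by
    simp only [Fintype.card_option, Fintype.card_prod, Fintype.card_fin]
    ring
  have e := Fintype.equivOfCardEq hcard
  rw [← EE_root (k * L) (e none) 0, ← EE_congr e (k * L) none, ← TourLow_card L, ← Nat.card_fun]
  unfold EE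
  refine Nat.card_le_card_of_injective
    (fun B => (⟨(TourLow_T B, TourLow_g), TourLow_tour B, TourLow_deg B, TourLow_arb, TourLow_par B⟩ :
      TG (Option (Fin L × Fin (2 * k))) (k * L) none)) ?_
  intro B B' h
  have h1 : TourLow_T B = TourLow_T B' := congrArg (fun z => z.1.1) h
  funext i
  obtain ⟨i, j⟩ := i
  apply Subtype.ext
  funext x y
  have hj : (⟨j.val, j.2.trans i.2⟩ : Fin L) < i := j.2
  have h2 := congrFun (congrFun h1 (some (i, x))) (some (⟨j.val, j.2.trans i.2⟩, y))
  simp only [TourLow_T, hj, dif_pos] at h2
  exact h2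

end Pool.Agent.MP_c3d1b0N
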