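import Pool.Agent.Lib.MP_c3d1b0_coN.BalMat
import Pool.Agent.Lib.MP_c3d1b0_coN.TourLow

set_option autoImplicit false

/-!
# JOB LimLow: the lower bound along `s = M t + r` (about 80 lines)

Given `m ≥ 1`.  Choose `L' ≥ 1` large (fixed), `L = M L' + 1`, and for `k' → ∞`: `k = M k' + r`, `t = k' L + r L'`; then `k L = M t + r` (ring: `(M k' + r)(M L' + 1) = M (k' L + r L') + r`), and `t → ∞` as `k' → ∞`.
`bal_lower`: `β := Nat.card (Bal (Fin (2 k)) k)`, `2^(4 k²) ≤ (k+1)^(8k) β`; `tour_lower`: `β^(L(L-1)/2) ≤ E := EE ..`.  Raise to the power `P = L(L-1)/2` (`2 P = L (L - 1)`): `2^(4 k² P) ≤ (k+1)^(8 k P) E`, that is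
`2^(2 k² L (L-1)) ≤ (k+1)^(4 k L (L-1)) E`.  With `s = k L = M t + r`: `2 k² L(L-1) = 2 s² - 2 s k` and `s² ≥ M² t²`.
Power `m`: `2^(2 s² m) ≤ 2^(2 s k m) (k+1)^(4 s (L-1) m) E^m`.  To show: `2^(2 s k m) (k+1)^(4 s (L-1) m) ≤ 2^(t²)` for large `k'`:
`s ≤ (M + r) t`, `k ≤ s / L`; `2 s k m = 2 m s² / L ≤ 2 m (M + r)² t² / L ≤ t² / 2` if `L ≥ 4 m (M + r)²` (choose `L' = 4 m (M + r)²`, so `L ≥ L'` as `M > 0`).
`(k + 1)^(4 s (L-1) m) ≤ 2^(t²/2)` for large `k'` (`k + 1 ≤ t + r + 1`...): e.g. `k + 1 ≤ 2^(Nat.log 2 (k+1) + 1)`, the exponent is `≤ 4 (M + r) t (L-1) m (log_2 (k+1) + 1)`, and `log_2 (k + 1) + 1 ≤ k / (8 (M + r) L m ...)` for large `k`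
(any of: `n^2 ≤ 2^n`-type bounds, `Nat.log`-lemmas, real `isLittleO`).  For exact arithmetic use `t² / 2`-free form: show `4 s k m ≤ t²` and `(k+1)^(8 s (L-1) m) ≤ 2^(t²)` and multiply (squares).
-/

namespace Pool.Agent.MP_c3d1b0N

open Finset Filter Pool.Agent.MP_c3d1b0

private theorem LimLow_expo (A c : ℕ) : ∀ᶠ n : ℕ in atTop, (A * n) ^ c ≤ 2 ^ n := by
  have h := (isLittleO_pow_const_const_pow_of_one_lt (R := ℝ) c (r := 2) (by norm_num))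
  have hA : (0 : ℝ) < 1 / ((A : ℝ) ^ c + 1) := by positivity
  filter_upwards [h.bound hA] with n hn
  rw [Real.norm_of_nonneg (by positivity), Real.norm_of_nonneg (by positivity)] at hn
  have h1 : ((A : ℝ) ^ c + 1) * (n : ℝ) ^ c ≤ 2 ^ n := by
    have h0 : (0 : ℝ) < (A : ℝ) ^ c + 1 := by positivity
    calc ((A : ℝ) ^ c + 1) * (n : ℝ) ^ c ≤ ((A : ℝ) ^ c + 1) * (1 / ((A : ℝ) ^ c + 1) * 2 ^ n) :=
          mul_le_mul_of_nonneg_left hn h0.le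
      _ = 2 ^ n := by field_simp
  have h2 : ((A : ℝ) * n) ^ c ≤ 2 ^ n := by
    rw [mul_pow]
    have h3 : (0 : ℝ) ≤ (n : ℝ) ^ c := by positivity
    nlinarith
  exact_mod_cast h2

theorem lim_low (M r : ℕ) (hM : 0 < M) (m : ℕ) (hm : 0 < m) : ∃ᶠ t : ℕ in atTop,
    2 ^ (2 * M ^ 2 * t ^ 2 * m) ≤ (EE (Fin (2 * (M * t + r) + 1)) (M * t + r) 0) ^ m * 2 ^ (t ^ 2) := by
  obtain ⟨L', hL'⟩ : ∃ L' : ℕ, L' = 4 * m * (M + r) ^ 2 := ⟨_, rfl⟩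
  obtain ⟨L, hL⟩ : ∃ L : ℕ, L = M * L' + 1 := ⟨_, rfl⟩
  obtain ⟨c, hc⟩ : ∃ c : ℕ, c = 8 * (M + r) * (L - 1) * m := ⟨_, rfl⟩
  obtain ⟨K0, hK0⟩ := eventually_atTop.1 (LimLow_expo (M + r + 1) c)
  rw [frequently_atTop]
  intro N
  obtain ⟨k', hk'⟩ : ∃ k' : ℕ, k' = N + K0 + 1 := ⟨_, rfl⟩
  obtain ⟨k, hk⟩ : ∃ k : ℕ, k = M * k' + r := ⟨_, rfl⟩
  obtain ⟨t, ht⟩ : ∃ t : ℕ, t = k' * L + r * L' := ⟨_, rfl⟩
  have hL1 : 1 ≤ L := by rw [hL]; exact Nat.le_add_left _ _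
  have hk't : k' ≤ t := by
    rw [ht]
    calc k' = k' * 1 := (mul_one _).symm
      _ ≤ k' * L := Nat.mul_le_mul_left _ hL1
      _ ≤ _ := Nat.le_add_right _ _
  have ht1 : 1 ≤ t := by omega
  refine ⟨t, by omega, ?_⟩
  have hkL : k * L = M * t + r := by
    rw [hk, ht, hL]; ring
  have hE := tour_lower k L
  rw [hkL] at hE
  have hB := bal_lower k
  set E : ℕ := EE (Fin (2 * (M * t + r) + 1)) (M * t + r) 0 with hEdef
  set β : ℕ := Nat.card (Bal (Fin (2 * k)) k) with hβ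
  obtain ⟨P, hP⟩ : ∃ P : ℕ, P = L * (L - 1) / 2 := ⟨_, rfl⟩
  have hP2 : 2 * P = L * (L - 1) := by
    rw [hP]; exact Nat.mul_div_cancel' (Nat.even_mul_pred_self L).two_dvd
  rw [← hP] at hE
  obtain ⟨l, hl⟩ : ∃ l : ℕ, l = L - 1 := ⟨_, rfl⟩
  have hLl : L = l + 1 := by omega
  rw [← hl] at hP2 hc
  obtain ⟨s, hs⟩ : ∃ s : ℕ, s = M * t + r := ⟨_, rfl⟩
  rw [← hs] at hkL
  -- power P
  have h1 : 2 ^ (4 * k ^ 2 * P) ≤ (k + 1) ^ (8 * k * P) * E := by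
    calc 2 ^ (4 * k ^ 2 * P) = (2 ^ (4 * k ^ 2)) ^ P := by rw [pow_mul]
      _ ≤ ((k + 1) ^ (8 * k) * β) ^ P := Nat.pow_le_pow_left hB P
      _ = (k + 1) ^ (8 * k * P) * β ^ P := by rw [mul_pow, ← pow_mul]
      _ ≤ (k + 1) ^ (8 * k * P) * E := Nat.mul_le_mul_left _ hE
  have e1 : 4 * k ^ 2 * P = 2 * k ^ 2 * (L * l) := by rw [← hP2]; ring
  have e2 : 8 * k * P = 4 * s * l := by
    rw [← hkL]
    calc 8 * k * P = 4 * k * (2 * P) := by ring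
      _ = 4 * (k * L) * l := by rw [hP2]; ring
  have e3 : 2 * k ^ 2 * (L * l) + 2 * s * k = 2 * s ^ 2 := by
    rw [← hkL, hLl]; ring
  rw [e1, e2] at h1
  have h2 : 2 ^ (2 * s ^ 2) ≤ 2 ^ (2 * s * k) * (k + 1) ^ (4 * s * l) * E := by
    rw [← e3, pow_add]
    calc 2 ^ (2 * k ^ 2 * (L * l)) * 2 ^ (2 * s * k)
        ≤ (k + 1) ^ (4 * s * l) * E * 2 ^ (2 * s * k) := Nat.mul_le_mul_right _ h1
      _ = _ := by ring
  -- the size of s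
  have hsM : M * t ≤ s := by rw [hs]; exact Nat.le_add_right _ _
  have hst : s ≤ (M + r) * t := by
    rw [hs, add_mul]
    exact Nat.add_le_add_left (Nat.le_mul_of_pos_right r ht1) _
  have hLbig : 4 * m * (M + r) ^ 2 ≤ L := by
    rw [hL, ← hL']
    calc L' = 1 * L' := (one_mul _).symm
      _ ≤ M * L' := Nat.mul_le_mul_right _ hM
      _ ≤ _ := Nat.le_add_right _ _
  have c1 : 4 * s * k * m ≤ t ^ 2 := by
    have hh : L * (4 * s * k * m) ≤ L * t ^ 2 := by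
      calc L * (4 * s * k * m) = 4 * m * s * (k * L) := by ring
        _ = 4 * m * s ^ 2 := by rw [hkL]; ring
        _ ≤ 4 * m * ((M + r) * t) ^ 2 := Nat.mul_le_mul_left _ (Nat.pow_le_pow_left hst 2)
        _ = 4 * m * (M + r) ^ 2 * t ^ 2 := by ring
        _ ≤ L * t ^ 2 := Nat.mul_le_mul_right _ hLbig
    exact Nat.le_of_mul_le_mul_left hh hL1
  have c2 : (k + 1) ^ (8 * s * l * m) ≤ 2 ^ (t ^ 2) := by
    have hk1 : k + 1 ≤ (M + r + 1) * k' := by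
      rw [hk]
      have : 1 ≤ k' := by omega
      nlinarith [Nat.mul_le_mul_left r this]
    have hc' : 8 * s * l * m ≤ c * t := by
      rw [hc]
      calc 8 * s * l * m ≤ 8 * ((M + r) * t) * l * m := by
            exact Nat.mul_le_mul_right _ (Nat.mul_le_mul_right _ (Nat.mul_le_mul_left _ hst))
        _ = 8 * (M + r) * l * m * t := by ring
    calc (k + 1) ^ (8 * s * l * m) ≤ (k + 1) ^ (c * t) :=
          Nat.pow_le_pow_right (Nat.succ_pos k) hc'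
      _ = ((k + 1) ^ c) ^ t := by rw [pow_mul]
      _ ≤ (((M + r + 1) * k') ^ c) ^ t :=
          Nat.pow_le_pow_left (Nat.pow_le_pow_left hk1 c) t
      _ ≤ (2 ^ k') ^ t := Nat.pow_le_pow_left (hK0 k' (by omega)) t
      _ = 2 ^ (k' * t) := by rw [pow_mul]
      _ ≤ 2 ^ (t ^ 2) := by
          refine Nat.pow_le_pow_right (by norm_num) ?_
          rw [pow_two]; exact Nat.mul_le_mul_right _ hk't
  have c3 : 2 ^ (2 * s * k * m) * (k + 1) ^ (4 * s * l * m) ≤ 2 ^ (t ^ 2) := by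
    refine (Nat.pow_le_pow_iff_left (n := 2) (by norm_num)).1 ?_
    calc (2 ^ (2 * s * k * m) * (k + 1) ^ (4 * s * l * m)) ^ 2
        = 2 ^ (4 * s * k * m) * (k + 1) ^ (8 * s * l * m) := by
          rw [mul_pow, ← pow_mul, ← pow_mul]
          congr 2 <;> ring
      _ ≤ 2 ^ (t ^ 2) * 2 ^ (t ^ 2) :=
          Nat.mul_le_mul (Nat.pow_le_pow_right (by norm_num) c1) c2
      _ = (2 ^ (t ^ 2)) ^ 2 := by ring
  calc 2 ^ (2 * M ^ 2 * t ^ 2 * m) ≤ 2 ^ (2 * s ^ 2 * m) := by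
        refine Nat.pow_le_pow_right (by norm_num) ?_
        have : (M * t) ^ 2 ≤ s ^ 2 := Nat.pow_le_pow_left hsM 2
        calc 2 * M ^ 2 * t ^ 2 * m = 2 * (M * t) ^ 2 * m := by ring
          _ ≤ 2 * s ^ 2 * m := Nat.mul_le_mul_right _ (Nat.mul_le_mul_left _ this)
    _ = (2 ^ (2 * s ^ 2)) ^ m := by rw [pow_mul]
    _ ≤ (2 ^ (2 * s * k) * (k + 1) ^ (4 * s * l) * E) ^ m := Nat.pow_le_pow_left h2 m
    _ = E ^ m * (2 ^ (2 * s * k * m) * (k + 1) ^ (4 * s * l * m)) := by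
        rw [mul_pow, mul_pow, ← pow_mul, ← pow_mul]; ring
    _ ≤ E ^ m * 2 ^ (t ^ 2) := Nat.mul_le_mul_left _ c3

end Pool.Agent.MP_c3d1b0N
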