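import Pool.Agent.Lib.MP_c3d1b0_coN.EEup

set_option autoImplicit false
set_option linter.unusedSectionVars false

/-!
# JOB LimUp: the upper bound along `s = M t + r` (about 50 lines)

`EE_upper` with `s = M t + r`: `s (2 s + 1) = 2 s^2 + s ≤ 2 M² t² + K t` for `t ≥ 1` with `K = 4 M r + 2 r^2 + M + r`, `2^(K t) ≤ t^(K t)` for `t ≥ 2`; `2 s + 1 ≤ (2 M + 2 r + 1) t ≤ t^2` for `t ≥ 2 M + 2 r + 1`,
so `(2 s + 1)^(2 s + 1) ≤ (t^2)^((2 M + 2 r + 1) t)`.  `A = K + 2 (2 M + 2 r + 1)`.  Second statement: `t^(A t) ≤ 2^(A t^2)` (`t ≤ 2^t`), so `E ≤ 2^((2 M² + A) t²)`.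
-/

namespace Pool.Agent.MP_c3d1b0N

open Finset Filter Pool.Agent.MP_c3d1b0

theorem lim_up (M r : ℕ) : ∃ A : ℕ, ∀ᶠ t : ℕ in atTop,
    EE (Fin (2 * (M * t + r) + 1)) (M * t + r) 0 ≤ 2 ^ (2 * M ^ 2 * t ^ 2) * t ^ (A * t) := by
  refine ⟨(4 * M * r + 2 * r ^ 2 + M + r) + 2 * (2 * M + 2 * r + 1), ?_⟩
  filter_upwards [eventually_ge_atTop (2 * M + 2 * r + 2)] with t ht
  have ht1 : 1 ≤ t := by omega
  refine (EE_upper (M * t + r)).trans ?_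
  have h1 : (M * t + r) * (2 * (M * t + r) + 1) ≤
      2 * M ^ 2 * t ^ 2 + (4 * M * r + 2 * r ^ 2 + M + r) * t := by
    have e1 : (M * t + r) * (2 * (M * t + r) + 1) =
        2 * M ^ 2 * t ^ 2 + (4 * M * r + M) * t + (2 * r ^ 2 + r) * 1 := by ring
    have e2 : 2 * M ^ 2 * t ^ 2 + (4 * M * r + 2 * r ^ 2 + M + r) * t =
        2 * M ^ 2 * t ^ 2 + (4 * M * r + M) * t + (2 * r ^ 2 + r) * t := by ring
    rw [e1, e2]
    exact Nat.add_le_add_left (Nat.mul_le_mul_left _ ht1) _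
  have h2 : 2 * (M * t + r) + 1 ≤ (2 * M + 2 * r + 1) * t := by
    have e1 : 2 * (M * t + r) + 1 = 2 * M * t + (2 * r + 1) * 1 := by ring
    have e2 : (2 * M + 2 * r + 1) * t = 2 * M * t + (2 * r + 1) * t := by ring
    rw [e1, e2]
    exact Nat.add_le_add_left (Nat.mul_le_mul_left _ ht1) _
  have h3 : (2 * M + 2 * r + 1) * t ≤ t ^ 2 := by
    rw [pow_two]
    exact Nat.mul_le_mul_right _ (by omega)
  calc (2 : ℕ) ^ ((M * t + r) * (2 * (M * t + r) + 1)) *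
        (2 * (M * t + r) + 1) ^ (2 * (M * t + r) + 1)
      ≤ 2 ^ (2 * M ^ 2 * t ^ 2 + (4 * M * r + 2 * r ^ 2 + M + r) * t) *
        (t ^ 2) ^ ((2 * M + 2 * r + 1) * t) := by
        refine Nat.mul_le_mul (Nat.pow_le_pow_right (by omega) h1) ?_
        exact (Nat.pow_le_pow_left (h2.trans h3) _).trans
          (Nat.pow_le_pow_right (Nat.pow_pos (by omega)) h2)
    _ ≤ 2 ^ (2 * M ^ 2 * t ^ 2) * t ^ ((4 * M * r + 2 * r ^ 2 + M + r) * t) *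
        (t ^ 2) ^ ((2 * M + 2 * r + 1) * t) := by
        rw [pow_add]
        exact Nat.mul_le_mul_right _ (Nat.mul_le_mul_left _
          (Nat.pow_le_pow_left (by omega) _))
    _ = 2 ^ (2 * M ^ 2 * t ^ 2) *
        t ^ (((4 * M * r + 2 * r ^ 2 + M + r) + 2 * (2 * M + 2 * r + 1)) * t) := by
        rw [mul_assoc, ← pow_mul, ← pow_add]
        congr 2
        ring

theorem lim_up' (M r : ℕ) : ∃ A : ℕ, ∀ᶠ t : ℕ in atTop,
    EE (Fin (2 * (M * t + r) + 1)) (M * t + r) 0 ≤ 2 ^ (A * t ^ 2) := by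
  obtain ⟨A, hA⟩ := lim_up M r
  refine ⟨2 * M ^ 2 + A, ?_⟩
  filter_upwards [hA] with t ht
  refine ht.trans ?_
  have h1 : t ≤ 2 ^ t := Nat.lt_two_pow_self.le
  calc (2 : ℕ) ^ (2 * M ^ 2 * t ^ 2) * t ^ (A * t)
      ≤ 2 ^ (2 * M ^ 2 * t ^ 2) * (2 ^ t) ^ (A * t) :=
        Nat.mul_le_mul_left _ (Nat.pow_le_pow_left h1 _)
    _ = 2 ^ ((2 * M ^ 2 + A) * t ^ 2) := by
        rw [← pow_mul, ← pow_add]
        congr 1
        ring

end Pool.Agent.MP_c3d1b0N
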