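import Pool.Agent.Lib.MP_c3d1b0_coN.TwoVal

set_option autoImplicit false

/-!
# JOB Star: `v_2(q) ≥ 0`, and the digit sums are bounded on one side (about 90 lines)

From `two_val` and `HBound h C`: `D h(t) = z ≠ 0`, `v_2(h t) = v_2(z) - v_2(D)`, `0 ≤ v_2(D) ≤ C t`, `0 ≤ v_2(z)` and `2^(v_2(z)) ≤ |z| ≤ t^(C t) ≤ 2^(C t (Nat.log 2 t + 1))`, so `v_2(z) ≤ C t (Nat.log 2 t + 1)`.
(1) `v_2(q) ≥ 0`: otherwise `v_2(q) ≤ -1` and, as `v_2(E t) ≥ 0`: `t(t-1)/2 ≤ - v_2(q) t(t-1)/2 = ... ≤ v_2(h t) - v_2(E t) - t ∑ c_i sg(..) + K t ≤ C t (log_2 t + 1) + t ∑ |c_i| (log_2 (m_i) + 1) + K t = O(t log t)`, contradiction for large `t`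
(`sg m ≤ Nat.log 2 m + 1`: number of digits `Nat.digits_len`/`Nat.digits_length_le`, each digit `≤ 1`; `m_i ≤ (a_i + |b_i|) t`).
(2) `- t ∑ c_i sg(m_i) ≤ v_2(E t) - v_2(q) t(t-1)/2 - v_2(h t) + K t ≤ A t + 0 + C t + K t`; divide by `t > 0`.
-/

namespace Pool.Agent.MP_c3d1b0N

open Finset Filter

private theorem star_sg_le (n : ℕ) : sg n ≤ Nat.log 2 n + 1 := by
  unfold sg
  by_cases hn : n = 0
  · subst hn
    simp
  · have h1 : (Nat.digits 2 n).sum ≤ (Nat.digits 2 n).length • 1 := by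
      refine List.sum_le_card_nsmul _ _ fun x hx => ?_
      have := Nat.digits_lt_base (by norm_num : 1 < 2) hx
      omega
    rw [Nat.length_digits 2 n (by norm_num) hn, smul_eq_mul, mul_one] at h1
    exact h1

private theorem star_log_mul (B t : ℕ) : Nat.log 2 (B * t) ≤ Nat.log 2 B + Nat.log 2 t + 2 := by
  by_cases h0 : B * t = 0
  · rw [h0]
    simp
  have h1 : B < 2 ^ (Nat.log 2 B + 1) := Nat.lt_pow_succ_log_self (by norm_num) B
  have h2 : t < 2 ^ (Nat.log 2 t + 1) := Nat.lt_pow_succ_log_self (by norm_num) t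
  have h3 : B * t ≤ 2 ^ (Nat.log 2 B + Nat.log 2 t + 2) := by
    calc B * t ≤ 2 ^ (Nat.log 2 B + 1) * 2 ^ (Nat.log 2 t + 1) := Nat.mul_le_mul h1.le h2.le
      _ = 2 ^ (Nat.log 2 B + Nat.log 2 t + 2) := by
        rw [← pow_add]
        ring_nf
  calc Nat.log 2 (B * t) ≤ Nat.log 2 (2 ^ (Nat.log 2 B + Nat.log 2 t + 2)) := Nat.log_mono_right h3
    _ = _ := Nat.log_pow (by norm_num) _

private theorem star_log_pow (C t : ℕ) : Nat.log 2 (t ^ (C * t)) ≤ C * t * (Nat.log 2 t + 1) := by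
  have h2 : t ≤ 2 ^ (Nat.log 2 t + 1) := (Nat.lt_pow_succ_log_self (by norm_num) t).le
  have h3 : t ^ (C * t) ≤ 2 ^ (C * t * (Nat.log 2 t + 1)) := by
    calc t ^ (C * t) ≤ (2 ^ (Nat.log 2 t + 1)) ^ (C * t) := Nat.pow_le_pow_left h2 _
      _ = _ := by
        rw [← pow_mul]
        ring_nf
  calc Nat.log 2 (t ^ (C * t)) ≤ Nat.log 2 (2 ^ (C * t * (Nat.log 2 t + 1))) :=
        Nat.log_mono_right h3
    _ = _ := Nat.log_pow (by norm_num) _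

/-- bounds for the valuation of `h t` -/
private theorem star_h {h : ℕ → ℚ} {C : ℕ} (hB : HBound h C) :
    ∀ᶠ t : ℕ in atTop, h t ≠ 0 → -((C : ℤ) * t) ≤ padicValRat 2 (h t) ∧
      padicValRat 2 (h t) ≤ (C : ℤ) * t * ((Nat.log 2 t : ℤ) + 1) := by
  filter_upwards [hB] with t ht h0
  obtain ⟨D, z, hD, hD1, hD2, hz, hz1⟩ := ht
  have hDq : (D : ℚ) ≠ 0 := by exact_mod_cast hD.ne'
  have : Fact (Nat.Prime 2) := ⟨Nat.prime_two⟩
  have h1 : padicValRat 2 ((D : ℚ) * h t) = padicValRat 2 (D : ℚ) + padicValRat 2 (h t) :=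
    padicValRat.mul hDq h0
  rw [hz, padicValRat.of_int, padicValRat.of_nat] at h1
  have h2 : padicValInt 2 z ≤ C * t * (Nat.log 2 t + 1) := by
    show padicValNat 2 z.natAbs ≤ _
    exact (padicValNat_le_nat_log _).trans ((Nat.log_mono_right hz1).trans (star_log_pow C t))
  have h3 : ((padicValInt 2 z : ℕ) : ℤ) ≤ (C : ℤ) * t * ((Nat.log 2 t : ℤ) + 1) := by
    exact_mod_cast h2
  have h4 : ((padicValNat 2 D : ℕ) : ℤ) ≤ (C : ℤ) * t := by exact_mod_cast hD2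
  constructor
  · have : (0 : ℤ) ≤ ((padicValInt 2 z : ℕ) : ℤ) := Int.natCast_nonneg _
    linarith
  · have : (0 : ℤ) ≤ ((padicValNat 2 D : ℕ) : ℤ) := Int.natCast_nonneg _
    linarith

/-- `log t` is small against `t` -/
private theorem star_small (α β : ℤ) :
    ∀ᶠ t : ℕ in atTop, 2 * α + 2 * β * (Nat.log 2 t : ℤ) < (t : ℤ) - 1 := by
  have h1 : ∀ᶠ t : ℕ in atTop, Real.log t ≤ Real.log 2 / (2 * (2 * |(β : ℝ)| + 1)) * t := by
    have h2 := (Real.isLittleO_log_id_atTop.comp_tendsto tendsto_natCast_atTop_atTop).def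
      (c := Real.log 2 / (2 * (2 * |(β : ℝ)| + 1))) (by
        have := Real.log_pos (by norm_num : (1 : ℝ) < 2)
        positivity)
    filter_upwards [h2] with t ht
    have h3 : ‖Real.log t‖ ≤ Real.log 2 / (2 * (2 * |(β : ℝ)| + 1)) * ‖(t : ℝ)‖ := ht
    rw [Real.norm_natCast] at h3
    exact (le_abs_self _).trans h3
  have h2 : ∀ᶠ t : ℕ in atTop, 4 * |(α : ℝ)| + 2 < t :=
    tendsto_natCast_atTop_atTop.eventually_gt_atTop _
  filter_upwards [h1, h2, eventually_ge_atTop 1] with t ht ht2 ht1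
  have hl2 := Real.log_pos (by norm_num : (1 : ℝ) < 2)
  have hL : ((Nat.log 2 t : ℕ) : ℝ) * Real.log 2 ≤ Real.log t := by
    have h3 : 2 ^ Nat.log 2 t ≤ t := Nat.pow_log_le_self 2 (by omega)
    have h4 : ((2 : ℝ) ^ Nat.log 2 t) ≤ t := by exact_mod_cast h3
    have h5 := Real.log_le_log (by positivity) h4
    rwa [Real.log_pow] at h5
  have hb0 : (0 : ℝ) < 2 * |(β : ℝ)| + 1 := by positivity
  have h6 : ((Nat.log 2 t : ℕ) : ℝ) * (2 * (2 * |(β : ℝ)| + 1)) ≤ t := by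
    have h7 : ((Nat.log 2 t : ℕ) : ℝ) * Real.log 2 ≤
        Real.log 2 / (2 * (2 * |(β : ℝ)| + 1)) * t := hL.trans ht
    have h8 : Real.log 2 / (2 * (2 * |(β : ℝ)| + 1)) * t =
        (t / (2 * (2 * |(β : ℝ)| + 1))) * Real.log 2 := by ring
    rw [h8] at h7
    have h9 := le_of_mul_le_mul_right h7 hl2
    rwa [le_div_iff₀ (by positivity)] at h9
  have hLn : (0 : ℝ) ≤ ((Nat.log 2 t : ℕ) : ℝ) := Nat.cast_nonneg _
  have h10 : 2 * (α : ℝ) + 2 * (β : ℝ) * ((Nat.log 2 t : ℕ) : ℝ) < (t : ℝ) - 1 := by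
    have e1 : (α : ℝ) ≤ |(α : ℝ)| := le_abs_self _
    have e2 : (β : ℝ) * ((Nat.log 2 t : ℕ) : ℝ) ≤ |(β : ℝ)| * ((Nat.log 2 t : ℕ) : ℝ) :=
      mul_le_mul_of_nonneg_right (le_abs_self _) hLn
    nlinarith
  have h11 : ((2 * α + 2 * β * (Nat.log 2 t : ℤ) : ℤ) : ℝ) < (((t : ℤ) - 1 : ℤ) : ℝ) := by
    push_cast
    exact h10
  exact_mod_cast h11

/-- the digit sums are `O(log t)` -/
private theorem star_dig {ι : Type} [Fintype ι] (a : ι → ℕ) (b c : ι → ℤ) :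
    ∃ α β : ℤ, ∀ t : ℕ, 1 ≤ t →
      -∑ i, c i * (sg (lin (a i) (b i) t) : ℤ) ≤ α + β * (Nat.log 2 t : ℤ) := by
  refine ⟨∑ i, |c i| * ((Nat.log 2 (a i + (b i).natAbs) : ℤ) + 3), ∑ i, |c i|, fun t ht => ?_⟩
  rw [← Finset.sum_neg_distrib, Finset.sum_mul, ← Finset.sum_add_distrib]
  refine Finset.sum_le_sum fun i _ => ?_
  have h1 : lin (a i) (b i) t ≤ (a i + (b i).natAbs) * t := by
    unfold lin
    have h2 : (b i) ≤ ((b i).natAbs : ℤ) := Int.le_natAbs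
    have h3 : ((b i).natAbs : ℤ) * 1 ≤ ((b i).natAbs : ℤ) * t :=
      mul_le_mul_of_nonneg_left (by exact_mod_cast ht) (Int.natCast_nonneg _)
    rw [Int.toNat_le]
    push_cast
    push_cast at h2 h3
    nlinarith
  have h2 : sg (lin (a i) (b i) t) ≤ Nat.log 2 (a i + (b i).natAbs) + 3 + Nat.log 2 t := by
    have h3 := star_sg_le (lin (a i) (b i) t)
    have h4 := Nat.log_mono_right (b := 2) h1
    have h5 := star_log_mul (a i + (b i).natAbs) t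
    omega
  have h3 : (sg (lin (a i) (b i) t) : ℤ) ≤ (Nat.log 2 (a i + (b i).natAbs) : ℤ) + 3 +
      (Nat.log 2 t : ℤ) := by exact_mod_cast h2
  have h4 : -(c i * (sg (lin (a i) (b i) t) : ℤ)) ≤ |c i| * (sg (lin (a i) (b i) t) : ℤ) := by
    have h5 : -(c i) ≤ |c i| := neg_le_abs _
    have h6 := mul_le_mul_of_nonneg_right h5 (Int.natCast_nonneg (sg (lin (a i) (b i) t)))
    linarith
  have h5 := mul_le_mul_of_nonneg_left h3 (abs_nonneg (c i))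
  refine h4.trans (h5.trans (le_of_eq ?_))
  ring

private theorem star_q {ι : Type} [Fintype ι] {E : ℕ → ℕ} {a : ι → ℕ} {b c d : ι → ℤ} {q : ℚ} {h : ℕ → ℚ} {C : ℕ}
    (R : Rep E a b c d q h) (hB : HBound h C) (hE : ∀ᶠ t : ℕ in atTop, E t ≠ 0)
    (hac : ∑ i, (a i : ℤ) * c i = 0) : 0 ≤ padicValRat 2 q := by
  by_contra hq
  push Not at hq
  obtain ⟨K, hK⟩ := two_val R hE hac
  obtain ⟨α, β, hαβ⟩ := star_dig a b c
  have hS := star_small (K + C + α) (C + β)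
  obtain ⟨t, hKt, hBt, hSt, ht1⟩ := (hK.and ((star_h hB).and (hS.and (eventually_ge_atTop 2)))).exists
  obtain ⟨h0, hKt⟩ := hKt
  obtain ⟨-, hup⟩ := hBt h0
  have h1 := hαβ t (by omega)
  have h2 := (abs_le.1 hKt).2
  set S := ∑ i, c i * (sg (lin (a i) (b i) t) : ℤ) with hSdef
  set L : ℤ := (Nat.log 2 t : ℤ) with hL
  have htz : (2 : ℤ) ≤ (t : ℤ) := by exact_mod_cast ht1
  have hT : 2 * ((t * (t - 1) / 2 : ℕ) : ℤ) = (t : ℤ) * ((t : ℤ) - 1) := by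
    have h3 : 2 * (t * (t - 1) / 2) = t * (t - 1) :=
      Nat.mul_div_cancel' (Nat.even_mul_pred_self t).two_dvd
    have h4 : ((2 * (t * (t - 1) / 2) : ℕ) : ℤ) = ((t * (t - 1) : ℕ) : ℤ) := by rw [h3]
    have h5 : ((t - 1 : ℕ) : ℤ) = (t : ℤ) - 1 := by
      have : 1 ≤ t := by omega
      push_cast [Nat.cast_sub this]
      ring
    rw [Nat.cast_mul, Nat.cast_mul, h5] at h4
    exact_mod_cast h4
  set T : ℤ := ((t * (t - 1) / 2 : ℕ) : ℤ) with hTdef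
  have hT0 : 0 ≤ T := Int.natCast_nonneg _
  have hv0 : (0 : ℤ) ≤ (padicValNat 2 (E t) : ℤ) := Int.natCast_nonneg _
  have h3 : T ≤ -(padicValRat 2 q) * T := by nlinarith
  have h4 : -((t : ℤ) * S) ≤ (t : ℤ) * (α + β * L) := by
    have h5 := mul_le_mul_of_nonneg_left h1 (by linarith : (0 : ℤ) ≤ (t : ℤ))
    linarith
  have h5 : T ≤ (t : ℤ) * (K + C * (L + 1) + (α + β * L)) := by
    have e1 : (t : ℤ) * (K + C * (L + 1) + (α + β * L)) =
      K * t + (C : ℤ) * t * (L + 1) + (t : ℤ) * (α + β * L) := by ring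
    rw [e1]
    linarith
  have h6 : (t : ℤ) * ((t : ℤ) - 1) ≤ (t : ℤ) * (2 * (K + C + α) + 2 * (C + β) * L) := by
    have e1 : (t : ℤ) * (2 * (K + C + α) + 2 * (C + β) * L) =
      2 * ((t : ℤ) * (K + C * (L + 1) + (α + β * L))) := by ring
    rw [e1, ← hT]
    linarith
  have h7 := le_of_mul_le_mul_left h6 (by linarith : (0 : ℤ) < (t : ℤ))
  linarith

theorem star {ι : Type} [Fintype ι] {E : ℕ → ℕ} {a : ι → ℕ} {b c d : ι → ℤ} {q : ℚ} {h : ℕ → ℚ} {C : ℕ}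
    (R : Rep E a b c d q h) (hB : HBound h C) (hE : ∀ᶠ t : ℕ in atTop, E t ≠ 0) (hac : ∑ i, (a i : ℤ) * c i = 0)
    (hv : ∃ A : ℕ, ∀ᶠ t : ℕ in atTop, padicValNat 2 (E t) ≤ A * t) :
    ∃ K : ℤ, ∀ᶠ t : ℕ in atTop, -∑ i, c i * (sg (lin (a i) (b i) t) : ℤ) ≤ K := by
  obtain ⟨K, hK⟩ := two_val R hE hac
  obtain ⟨A, hA⟩ := hv
  have hq := star_q R hB hE hac
  refine ⟨K + A + C, ?_⟩
  filter_upwards [hK, hA, star_h hB, eventually_ge_atTop 1] with t hKt hAt hBt ht1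
  obtain ⟨h0, hKt⟩ := hKt
  obtain ⟨hlo, -⟩ := hBt h0
  have h2 := (abs_le.1 hKt).1
  set S := ∑ i, c i * (sg (lin (a i) (b i) t) : ℤ) with hSdef
  have hT0 : (0 : ℤ) ≤ ((t * (t - 1) / 2 : ℕ) : ℤ) := Int.natCast_nonneg _
  have h3 : (0 : ℤ) ≤ padicValRat 2 q * ((t * (t - 1) / 2 : ℕ) : ℤ) := mul_nonneg hq hT0
  have h4 : (padicValNat 2 (E t) : ℤ) ≤ A * t := by exact_mod_cast hAt
  have htz : (1 : ℤ) ≤ (t : ℤ) := by exact_mod_cast ht1
  have h5 : (t : ℤ) * (-S) ≤ (t : ℤ) * (K + A + C) := by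
    have e1 : (t : ℤ) * (K + A + C) = K * t + A * t + C * t := by ring
    rw [e1]
    linarith
  exact le_of_mul_le_mul_left h5 (by linarith)

end Pool.Agent.MP_c3d1b0N
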