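import Pool.Agent.Lib.MP_c3d1b0_coN.LogFac

set_option autoImplicit false

/-!
# JOB StepA: `∑ a_i c_i = 0` (about 80 lines)

Take logarithms of absolute values in `E t = q ^ (t(t-1)/2) * FF a b c d t * h t` (for large `t`, `E t ≠ 0`, so `q ≠ 0` (or `t(t-1)/2 = 0`, not for large `t`), `h t ≠ 0`):
`log (E t) = (t(t-1)/2) log |q| + ∑ (c_i t + d_i) log ((lin (a_i) (b_i) t)!) + log |h t|`.
* `0 ≤ log (E t) ≤ C t^2 log 2`.
* `|(t(t-1)/2) log |q|| ≤ |log |q|| t^2`.
* `|log |h t|| ≤ C t log t`: from `HBound`: `|h t| = |z| / D`, `z ≠ 0` so `1 ≤ |z| ≤ t^(C t)`, `1 ≤ D ≤ t^(C t)`.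
* `log ((lin ..)!) = a_i t log t + O(t)` (`log_fac`), so the middle sum is `(∑ a_i c_i) t^2 log t + O(t^2)` (the terms `d_i a_i t log t` are `O(t^2)`).
Hence `|∑ a_i c_i| t^2 log t ≤ C' t^2` for all large `t`; if the integer `∑ a_i c_i` is not `0` then `log t ≤ C'` for all large `t`, a contradiction.
-/

namespace Pool.Agent.MP_c3d1b0N

open Finset Filter

private theorem stepA_logle {n t C : ℕ} (hn : 0 < n) (h : n ≤ t ^ (C * t)) :
    0 ≤ Real.log (n : ℝ) ∧ Real.log (n : ℝ) ≤ (C : ℝ) * t * Real.log t := by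
  refine ⟨Real.log_natCast_nonneg n, ?_⟩
  have h1 : (n : ℝ) ≤ (t : ℝ) ^ (C * t) := by exact_mod_cast h
  have h2 := Real.log_le_log (by exact_mod_cast hn) h1
  rw [Real.log_pow] at h2
  push_cast at h2
  exact h2

theorem sum_ac {ι : Type} [Fintype ι] {E : ℕ → ℕ} {a : ι → ℕ} {b c d : ι → ℤ} {q : ℚ} {h : ℕ → ℚ} {C : ℕ}
    (R : Rep E a b c d q h) (hB : HBound h C) (hE : ∀ᶠ t : ℕ in atTop, E t ≠ 0)
    (hup : ∃ A : ℕ, ∀ᶠ t : ℕ in atTop, E t ≤ 2 ^ (A * t ^ 2)) :
    ∑ i, (a i : ℤ) * c i = 0 := by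
  classical
  obtain ⟨A, hA⟩ := hup
  choose L hL using fun i => log_fac (a i) (R.apos i) (b i)
  by_contra hS
  have hS1 : (1 : ℝ) ≤ |((∑ i, (a i : ℤ) * c i : ℤ) : ℝ)| := by
    have h1 : (1 : ℤ) ≤ |∑ i, (a i : ℤ) * c i| := Int.one_le_abs hS
    exact_mod_cast h1
  have hSc : ((∑ i, (a i : ℤ) * c i : ℤ) : ℝ) = ∑ i, (a i : ℝ) * (c i : ℝ) := by
    push_cast
    rfl
  rw [hSc] at hS1
  have key : ∀ᶠ t : ℕ in atTop, Real.log t ≤ A * Real.log 2 + |Real.log (q : ℝ)| + C +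
      ∑ i, ((|(c i : ℝ)| + |(d i : ℝ)|) * |L i| + |(d i : ℝ)| * a i) := by
    have hLall : ∀ᶠ t : ℕ in atTop, ∀ i, |Real.log (Nat.factorial (lin (a i) (b i) t) : ℕ) -
        (a i : ℝ) * t * Real.log t| ≤ L i * t := Filter.eventually_all.2 hL
    filter_upwards [R.rep, hB, hE, hA, hLall, Filter.eventually_ge_atTop 1] with t h1 h2 h3 h4 h5 h6
    have ht : (1 : ℝ) ≤ t := by exact_mod_cast h6
    have ht0 : (0 : ℝ) < t := by linarith
    have hlog0 : 0 ≤ Real.log (t : ℝ) := Real.log_nonneg ht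
    have hlogt : Real.log (t : ℝ) ≤ t := by
      have := Real.log_le_sub_one_of_pos ht0
      linarith
    have hE1 : (E t : ℝ) = (q : ℝ) ^ (t * (t - 1) / 2) *
        (∏ i, ((Nat.factorial (lin (a i) (b i) t) : ℕ) : ℝ) ^ (c i * (t : ℤ) + d i)) *
        (h t : ℝ) := by
      have h7 := congrArg (fun x : ℚ => (x : ℝ)) h1
      unfold FF at h7
      simp only [Rat.cast_natCast, Rat.cast_mul, Rat.cast_pow, Rat.cast_prod, Rat.cast_zpow] at h7
      exact h7
    have hEne : (E t : ℝ) ≠ 0 := by exact_mod_cast h3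
    have hne := hEne
    rw [hE1] at hne
    have hh := right_ne_zero_of_mul hne
    have hqP := left_ne_zero_of_mul hne
    have hq := left_ne_zero_of_mul hqP
    have hP := right_ne_zero_of_mul hqP
    have hlogE : Real.log (E t : ℝ) = ((t * (t - 1) / 2 : ℕ) : ℝ) * Real.log (q : ℝ) +
        (∑ i, ((c i : ℝ) * t + d i) *
          Real.log ((Nat.factorial (lin (a i) (b i) t) : ℕ) : ℝ)) + Real.log (h t : ℝ) := by
      rw [hE1, Real.log_mul hqP hh, Real.log_mul hq hP, Real.log_pow, Real.log_prod]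
      · refine congrArg (fun x => ((t * (t - 1) / 2 : ℕ) : ℝ) * Real.log (q : ℝ) + x +
          Real.log (h t : ℝ)) ?_
        refine Finset.sum_congr rfl fun i _ => ?_
        rw [Real.log_zpow]
        push_cast
        ring
      · intro i _
        exact Finset.prod_ne_zero_iff.1 hP i (Finset.mem_univ i)
    have hEup : Real.log (E t : ℝ) ≤ A * (t : ℝ) ^ 2 * Real.log 2 := by
      have h7 : (E t : ℝ) ≤ (2 : ℝ) ^ (A * t ^ 2) := by exact_mod_cast h4
      have h8 := Real.log_le_log (by positivity) h7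
      rw [Real.log_pow] at h8
      push_cast at h8
      exact h8
    have hElow : 0 ≤ Real.log (E t : ℝ) := Real.log_natCast_nonneg _
    have hq1 : |((t * (t - 1) / 2 : ℕ) : ℝ) * Real.log (q : ℝ)| ≤
        (t : ℝ) ^ 2 * |Real.log (q : ℝ)| := by
      rw [abs_mul]
      refine mul_le_mul_of_nonneg_right ?_ (abs_nonneg _)
      rw [abs_of_nonneg (Nat.cast_nonneg _)]
      have h7 : t * (t - 1) / 2 ≤ t ^ 2 := by
        refine (Nat.div_le_self _ _).trans ?_
        rw [sq]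
        exact Nat.mul_le_mul_left t (Nat.sub_le _ _)
      exact_mod_cast h7
    have hh1 : |Real.log (h t : ℝ)| ≤ (C : ℝ) * t * Real.log t := by
      obtain ⟨D, z, hD, hDle, -, hDz, hz⟩ := h2
      have hD' : (D : ℝ) ≠ 0 := by
        have : D ≠ 0 := hD.ne'
        exact_mod_cast this
      have hDz' : (D : ℝ) * (h t : ℝ) = (z : ℝ) := by
        have h7 := congrArg (fun x : ℚ => (x : ℝ)) hDz
        simp only [Rat.cast_natCast, Rat.cast_mul, Rat.cast_intCast] at h7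
        exact h7
      have hz0 : z ≠ 0 := by
        rintro rfl
        rw [Int.cast_zero] at hDz'
        exact (mul_ne_zero hD' hh) hDz'
      have h8 : Real.log (D : ℝ) + Real.log (h t : ℝ) = Real.log ((z.natAbs : ℕ) : ℝ) := by
        rw [← Real.log_mul hD' hh, hDz', Nat.cast_natAbs, Int.cast_abs, Real.log_abs]
      have h9 := stepA_logle hD hDle
      have h10 := stepA_logle (Int.natAbs_pos.2 hz0) hz
      rw [abs_le]
      constructor <;> linarith [h9.1, h9.2, h10.1, h10.2]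
    have hmid : |(∑ i, ((c i : ℝ) * t + d i) *
          Real.log ((Nat.factorial (lin (a i) (b i) t) : ℕ) : ℝ)) -
          (∑ i, (a i : ℝ) * (c i : ℝ)) * ((t : ℝ) ^ 2 * Real.log t)| ≤
        (t : ℝ) ^ 2 * ∑ i, ((|(c i : ℝ)| + |(d i : ℝ)|) * |L i| + |(d i : ℝ)| * a i) := by
      rw [Finset.sum_mul, ← Finset.sum_sub_distrib, Finset.mul_sum]
      refine (Finset.abs_sum_le_sum_abs _ _).trans (Finset.sum_le_sum fun i _ => ?_)
      have e1 : ((c i : ℝ) * t + d i) * Real.log ((Nat.factorial (lin (a i) (b i) t) : ℕ) : ℝ) -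
          (a i : ℝ) * (c i : ℝ) * ((t : ℝ) ^ 2 * Real.log t) =
          ((c i : ℝ) * t + d i) * (Real.log ((Nat.factorial (lin (a i) (b i) t) : ℕ) : ℝ) -
            (a i : ℝ) * t * Real.log t) + (d i : ℝ) * ((a i : ℝ) * (t * Real.log t)) := by
        ring
      rw [e1]
      refine (abs_add_le _ _).trans ?_
      rw [abs_mul, abs_mul, mul_add]
      refine add_le_add ?_ ?_
      · have e2 : |(c i : ℝ) * t + d i| ≤ (|(c i : ℝ)| + |(d i : ℝ)|) * t := by
          refine (abs_add_le _ _).trans ?_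
          rw [abs_mul, abs_of_pos ht0, add_mul]
          have : |(d i : ℝ)| * 1 ≤ |(d i : ℝ)| * t := mul_le_mul_of_nonneg_left ht (abs_nonneg _)
          linarith
        have e3 : |Real.log ((Nat.factorial (lin (a i) (b i) t) : ℕ) : ℝ) -
            (a i : ℝ) * t * Real.log t| ≤ |L i| * t :=
          (h5 i).trans (mul_le_mul_of_nonneg_right (le_abs_self _) ht0.le)
        calc |(c i : ℝ) * t + d i| * |Real.log ((Nat.factorial (lin (a i) (b i) t) : ℕ) : ℝ) -
            (a i : ℝ) * t * Real.log t|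
            ≤ ((|(c i : ℝ)| + |(d i : ℝ)|) * t) * (|L i| * t) :=
              mul_le_mul e2 e3 (abs_nonneg _) (by positivity)
          _ = (t : ℝ) ^ 2 * ((|(c i : ℝ)| + |(d i : ℝ)|) * |L i|) := by ring
      · have e4 : |(a i : ℝ) * ((t : ℝ) * Real.log t)| ≤ (a i : ℝ) * (t : ℝ) ^ 2 := by
          rw [abs_of_nonneg (by positivity)]
          refine mul_le_mul_of_nonneg_left ?_ (Nat.cast_nonneg _)
          rw [sq]
          exact mul_le_mul_of_nonneg_left hlogt ht0.le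
        calc |(d i : ℝ)| * |(a i : ℝ) * ((t : ℝ) * Real.log t)|
            ≤ |(d i : ℝ)| * ((a i : ℝ) * (t : ℝ) ^ 2) :=
              mul_le_mul_of_nonneg_left e4 (abs_nonneg _)
          _ = (t : ℝ) ^ 2 * (|(d i : ℝ)| * a i) := by ring
    have htl : (C : ℝ) * t * Real.log t ≤ (C : ℝ) * (t : ℝ) ^ 2 := by
      rw [mul_assoc, sq]
      exact mul_le_mul_of_nonneg_left (mul_le_mul_of_nonneg_left hlogt ht0.le)
        (Nat.cast_nonneg _)
    have hfin : (t : ℝ) ^ 2 * Real.log t ≤ (t : ℝ) ^ 2 * (A * Real.log 2 + |Real.log (q : ℝ)| + C +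
        ∑ i, ((|(c i : ℝ)| + |(d i : ℝ)|) * |L i| + |(d i : ℝ)| * a i)) := by
      have g1 : (t : ℝ) ^ 2 * Real.log t ≤
          |(∑ i, (a i : ℝ) * (c i : ℝ)) * ((t : ℝ) ^ 2 * Real.log t)| := by
        rw [abs_mul, abs_of_nonneg (a := (t : ℝ) ^ 2 * Real.log t) (by positivity)]
        have : 1 * ((t : ℝ) ^ 2 * Real.log t) ≤
            |∑ i, (a i : ℝ) * (c i : ℝ)| * ((t : ℝ) ^ 2 * Real.log t) :=
          mul_le_mul_of_nonneg_right hS1 (by positivity)
        linarith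
      have g2 : |(∑ i, (a i : ℝ) * (c i : ℝ)) * ((t : ℝ) ^ 2 * Real.log t)| ≤
          |Real.log (E t : ℝ) - ((t * (t - 1) / 2 : ℕ) : ℝ) * Real.log (q : ℝ) -
            Real.log (h t : ℝ)| +
          (t : ℝ) ^ 2 * ∑ i, ((|(c i : ℝ)| + |(d i : ℝ)|) * |L i| + |(d i : ℝ)| * a i) := by
        have g3 : Real.log (E t : ℝ) - ((t * (t - 1) / 2 : ℕ) : ℝ) * Real.log (q : ℝ) -
            Real.log (h t : ℝ) = ∑ i, ((c i : ℝ) * t + d i) *
              Real.log ((Nat.factorial (lin (a i) (b i) t) : ℕ) : ℝ) := by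
          rw [hlogE]
          ring
        rw [g3]
        have g4 := abs_sub_abs_le_abs_sub
          ((∑ i, (a i : ℝ) * (c i : ℝ)) * ((t : ℝ) ^ 2 * Real.log t))
          (∑ i, ((c i : ℝ) * t + d i) *
            Real.log ((Nat.factorial (lin (a i) (b i) t) : ℕ) : ℝ))
        rw [abs_sub_comm ((∑ i, (a i : ℝ) * (c i : ℝ)) * ((t : ℝ) ^ 2 * Real.log t))] at g4
        linarith
      have g5 : |Real.log (E t : ℝ) - ((t * (t - 1) / 2 : ℕ) : ℝ) * Real.log (q : ℝ) -
            Real.log (h t : ℝ)| ≤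
          A * (t : ℝ) ^ 2 * Real.log 2 + (t : ℝ) ^ 2 * |Real.log (q : ℝ)| +
            (C : ℝ) * (t : ℝ) ^ 2 := by
        have g6 := abs_sub (Real.log (E t : ℝ) -
          ((t * (t - 1) / 2 : ℕ) : ℝ) * Real.log (q : ℝ)) (Real.log (h t : ℝ))
        have g7 := abs_sub (Real.log (E t : ℝ))
          (((t * (t - 1) / 2 : ℕ) : ℝ) * Real.log (q : ℝ))
        rw [abs_of_nonneg hElow] at g7
        linarith
      refine (g1.trans g2).trans ?_
      have g8 : (t : ℝ) ^ 2 * (A * Real.log 2 + |Real.log (q : ℝ)| + C +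
          ∑ i, ((|(c i : ℝ)| + |(d i : ℝ)|) * |L i| + |(d i : ℝ)| * a i)) =
          A * (t : ℝ) ^ 2 * Real.log 2 + (t : ℝ) ^ 2 * |Real.log (q : ℝ)| +
            (C : ℝ) * (t : ℝ) ^ 2 + (t : ℝ) ^ 2 *
            ∑ i, ((|(c i : ℝ)| + |(d i : ℝ)|) * |L i| + |(d i : ℝ)| * a i) := by
        ring
      rw [g8]
      linarith
    exact le_of_mul_le_mul_left hfin (by positivity)
  have h7 : Filter.Tendsto (fun t : ℕ => Real.log (t : ℝ)) atTop atTop :=
    Real.tendsto_log_atTop.comp tendsto_natCast_atTop_atTop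
  obtain ⟨t, ht1, ht2⟩ := (key.and (h7.eventually_gt_atTop _)).exists
  exact absurd ht1 (not_le.2 ht2)

end Pool.Agent.MP_c3d1b0N
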