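import Pool.Agent.Lib.MP_c3d1b0_coN.Primes

set_option autoImplicit false

/-!
# JOB StepB: the step function is nonnegative (about 150 lines)

Suppose `g := ∑ c_i ⌊a_i u / v⌋ ≤ -1` for some `u`, `v > 0` (then `u > 0`).  Put `x = u / v > 0` (real), `A = max a_i`, `B = max |b_i|`.
(1) There is `ε > 0` with: for real `ξ ∈ [x, x + ε]`: `⌊a_i ξ⌋ = ⌊a_i x⌋` for all `i`, more precisely `a_i (x + ε) + ε ≤ ⌊a_i x⌋ + 1` for all `i` (finitely many strict inequalities `a_i x < ⌊a_i x⌋ + 1`).  Natural division: `a_i u / v = ⌊a_i x⌋` (`Nat.floor_div_eq_div`).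
(2) Let `N` be a natural number (chosen below), `δ > 0` so small that `(x + ε/2)(1 + δ) + δ ≤ x + ε`.  By `many_primes` there are arbitrarily large `y` with at least `N` primes in `(y, (1+δ) y]`.  Let `s` (called `t` in the representation) be
`t := ⌈(x + ε/2)(1 + δ) y⌉₊`.  For a prime `p ∈ (y, (1+δ) y]`: `t / p ≥ (x + ε/2)(1+δ) y / ((1+δ) y) = x + ε/2` and `t / p ≤ ((x + ε/2)(1+δ) y + 1) / y ≤ x + ε` for `1/y ≤ δ`.
(3) For `y` large (`p ε/2 ≥ B`, `p ε ≥ B`): `⌊(a_i t + b_i) / p⌋ = ⌊a_i x⌋`: `(a_i t + b_i)/p ≥ a_i x + a_i ε/2 - B/p ≥ a_i x ≥ ⌊a_i x⌋` and `(a_i t + b_i)/p ≤ a_i (x+ε) + B/p < ⌊a_i x⌋ + 1` (make the last inequality strict).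
And `m_i = a_i t + b_i < p^2` for large `y`, so `v_p(m_i!) = ⌊m_i / p⌋` (Legendre, `padicValNat_factorial` with `Ico 1 2`) `= ⌊a_i x⌋ = a_i u / v`.
(4) `v_p(q) = 0` for `p` large (`p` larger than numerator and denominator of `q ≠ 0`).  So `0 ≤ v_p(E t) = ∑ (c_i t + d_i) ⌊a_i x⌋ + v_p(h t) = t g + ∑ d_i ⌊a_i x⌋ + v_p(h t) ≤ -t + K_0 + v_p(h t)`, with `K_0 = ∑ |d_i| ⌊a_i x⌋`: `v_p(h t) ≥ t - K_0`.
(5) `HBound`: `D h(t) = z`, `z ≠ 0`, `v_p(z) ≥ v_p(h t) ≥ t - K_0`, so `p^(t - K_0) ∣ z` for `N` different primes `p > y`; so `y^(N (t - K_0)) ≤ |z| ≤ t^(C t)`.  As `t ≤ (x + ε) (1+δ) y + 1 ≤ K_1 y` (with a natural number `K_1`):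
`(t / K_1)^(N (t - K_0)) ≤ t^(C t)`.  With `N = 4 C + 4`: for large `t`: `t - K_0 ≥ t/2`, `t / K_1 ≥ t^(1/2)`, left side `≥ t^(N t / 4) > t^(C t)`.  Contradiction (all inequalities can be done with real logarithms, or with natural numbers: `t ≥ K_1^2`, so `(t/K_1)^2 ≥ t`).
-/

namespace Pool.Agent.MP_c3d1b0N

open Finset Filter

private lemma StepB_prod (p : ℕ) [Fact p.Prime] {ι : Type} (s : Finset ι) (f : ι → ℚ) (hf : ∀ i ∈ s, f i ≠ 0) :
    padicValRat p (∏ i ∈ s, f i) = ∑ i ∈ s, padicValRat p (f i) := by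
  classical
  induction s using Finset.induction_on with
  | empty => simp
  | insert i s hi ih =>
    have h1 : ∏ j ∈ s, f j ≠ 0 :=
      Finset.prod_ne_zero_iff.2 fun j hj => hf j (mem_insert_of_mem hj)
    rw [Finset.prod_insert hi, Finset.sum_insert hi,
      padicValRat.mul (hf i (mem_insert_self _ _)) h1,
      ih fun j hj => hf j (mem_insert_of_mem hj)]

private lemma StepB_fac {p m f : ℕ} [hp : Fact p.Prime] (h1 : m / p = f) (h2 : m < p ^ 2) :
    padicValNat p (Nat.factorial m) = f := by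
  have h3 : Nat.log p m < 2 := Nat.log_lt_of_lt_pow' (by norm_num) h2
  rw [padicValNat_factorial h3]
  simp [h1]

private lemma StepB_val {ι : Type} [Fintype ι] {E : ℕ → ℕ} {a : ι → ℕ} {b c d : ι → ℤ} {q : ℚ} {h : ℕ → ℚ}
    (p : ℕ) [hp : Fact p.Prime] (t : ℕ) (f : ι → ℕ)
    (hrep : (E t : ℚ) = q ^ (t * (t - 1) / 2) * FF a b c d t * h t) (hE : E t ≠ 0)
    (hq : padicValRat p q = 0)
    (hf : ∀ i, padicValNat p (Nat.factorial (lin (a i) (b i) t)) = f i) :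
    h t ≠ 0 ∧ (padicValNat p (E t) : ℤ) = ∑ i, (c i * (t : ℤ) + d i) * (f i : ℤ) + padicValRat p (h t) := by
  have hEt : (E t : ℚ) ≠ 0 := Nat.cast_ne_zero.2 hE
  rw [hrep] at hEt
  have hh : h t ≠ 0 := right_ne_zero_of_mul hEt
  have hqF := left_ne_zero_of_mul hEt
  have hq' : q ^ (t * (t - 1) / 2) ≠ 0 := left_ne_zero_of_mul hqF
  have hF : FF a b c d t ≠ 0 := right_ne_zero_of_mul hqF
  refine ⟨hh, ?_⟩
  have h1 : padicValRat p (FF a b c d t) = ∑ i, (c i * (t : ℤ) + d i) * (f i : ℤ) := by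
    unfold FF
    rw [StepB_prod p _ _ fun i _ => zpow_ne_zero _ (Nat.cast_ne_zero.2 (Nat.factorial_ne_zero _))]
    refine Finset.sum_congr rfl fun i _ => ?_
    rw [padicValRat.zpow, padicValRat.of_nat, hf i]
  rw [← padicValRat.of_nat, hrep, padicValRat.mul hqF hh, padicValRat.mul hq' hF, padicValRat.pow, hq, h1]
  ring

private lemma StepB_div {x ε B : ℝ} {a f p t : ℕ} {b : ℤ} (_hx : 0 ≤ x) (hε : 0 < ε) (ha : 0 < a)
    (hf : (f : ℝ) ≤ a * x) (hf' : (a : ℝ) * (x + ε) + ε ≤ f + 1) (h1 : (x + ε / 2) * p ≤ t)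
    (h2 : (t : ℝ) ≤ (x + ε) * p) (hb : |(b : ℝ)| ≤ B) (hB : B < ε / 2 * p) : lin a b t / p = f := by
  have ha' : (1 : ℝ) ≤ a := by exact_mod_cast ha
  have hp0 : (0 : ℝ) ≤ p := Nat.cast_nonneg p
  have hB0 : 0 ≤ B := (abs_nonneg _).trans hb
  have hb1 := neg_abs_le (b : ℝ)
  have hb2 := le_abs_self (b : ℝ)
  have h3 : (f : ℝ) * p + ε / 2 * p ≤ a * t := by
    have h4 : (a : ℝ) * ((x + ε / 2) * p) ≤ a * t := mul_le_mul_of_nonneg_left h1 (by linarith)
    have h5 : (f : ℝ) * p ≤ a * x * p := mul_le_mul_of_nonneg_right hf hp0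
    have h6 : 1 * (ε / 2 * p) ≤ a * (ε / 2 * p) := mul_le_mul_of_nonneg_right ha' (by positivity)
    nlinarith
  have h4 : (a : ℝ) * t ≤ (f + 1) * p - ε * p := by
    have h5 : (a : ℝ) * t ≤ a * ((x + ε) * p) := mul_le_mul_of_nonneg_left h2 (by linarith)
    have h6 : ((a : ℝ) * (x + ε) + ε) * p ≤ (f + 1) * p := mul_le_mul_of_nonneg_right hf' hp0
    nlinarith
  have hf0 : (0 : ℝ) ≤ (f : ℝ) * p := by positivity
  have h5 : (0 : ℤ) ≤ (a : ℤ) * t + b := by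
    have : (0 : ℝ) ≤ ((a : ℤ) * t + b : ℤ) := by
      push_cast
      linarith
    exact_mod_cast this
  have h6 : ((lin a b t : ℕ) : ℝ) = (a : ℝ) * t + b := by
    have h7 : ((lin a b t : ℕ) : ℤ) = (a : ℤ) * t + b := by
      unfold lin
      exact Int.toNat_of_nonneg h5
    exact_mod_cast h7
  apply Nat.div_eq_of_lt_le
  · have : ((f * p : ℕ) : ℝ) ≤ (lin a b t : ℕ) := by
      rw [h6]
      push_cast
      linarith
    exact_mod_cast this
  · have : ((lin a b t : ℕ) : ℝ) < (((f + 1) * p : ℕ) : ℝ) := by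
      rw [h6]
      push_cast
      linarith
    exact_mod_cast this

private lemma StepB_size {C K₀ t y N : ℕ} (hN : N = 4 * C + 1) (hy : 2 ≤ y) (hty : t ≤ y ^ 2) (hK : 2 * K₀ + 1 ≤ t)
    (h : y ^ (N * (t - K₀)) ≤ t ^ (C * t)) : False := by
  have h1 : t ^ (C * t) ≤ (y ^ 2) ^ (C * t) := Nat.pow_le_pow_left hty _
  rw [← pow_mul] at h1
  have h2 : 2 * (C * t) < N * (t - K₀) := by
    subst hN
    obtain ⟨w, hw⟩ : ∃ w, t = K₀ + w := ⟨t - K₀, by omega⟩
    have hw1 : K₀ + 1 ≤ w := by omega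
    subst hw
    rw [Nat.add_sub_cancel_left]
    nlinarith [Nat.mul_le_mul_left C hw1]
  have h3 : y ^ (2 * (C * t)) < y ^ (N * (t - K₀)) := Nat.pow_lt_pow_right (by omega) h2
  omega

theorem G_nonneg {ι : Type} [Fintype ι] {E : ℕ → ℕ} {a : ι → ℕ} {b c d : ι → ℤ} {q : ℚ} {h : ℕ → ℚ} {C : ℕ}
    (R : Rep E a b c d q h) (hB : HBound h C) (hE : ∀ᶠ t : ℕ in atTop, E t ≠ 0) (u v : ℕ) (hv : 0 < v) :
    0 ≤ ∑ i, c i * ((a i * u / v : ℕ) : ℤ) := by
  classical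
  by_contra hneg
  rw [not_le] at hneg
  set f : ι → ℕ := fun i => a i * u / v with hf
  have hg : ∑ i, c i * (f i : ℤ) ≤ -1 := by
    have : ∑ i, c i * (f i : ℤ) < 0 := hneg
    omega
  set x : ℝ := (u : ℝ) / v with hx
  have hx0 : 0 ≤ x := by positivity
  have hv' : (0 : ℝ) < v := by exact_mod_cast hv
  have hfx : ∀ i, (f i : ℝ) ≤ a i * x ∧ (a i : ℝ) * x < f i + 1 := by
    intro i
    have h1 : f i * v ≤ a i * u := Nat.div_mul_le_self _ _
    have h2 : a i * u < (f i + 1) * v := by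
      have := Nat.lt_succ_iff.mpr (le_refl (a i * u / v))
      exact (Nat.div_lt_iff_lt_mul hv).mp this
    have h1' : ((f i : ℝ)) * v ≤ a i * u := by exact_mod_cast h1
    have h2' : (a i : ℝ) * u < (f i + 1) * v := by exact_mod_cast h2
    have h3 : (a i : ℝ) * x = a i * u / v := by rw [hx]; ring
    rw [h3]
    exact ⟨(le_div_iff₀ hv').mpr h1', (div_lt_iff₀ hv').mpr h2'⟩
  obtain ⟨ε, hε, hεi⟩ : ∃ ε : ℝ, 0 < ε ∧ ∀ i, (a i : ℝ) * (x + ε) + ε ≤ f i + 1 := by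
    have h1 : ∀ i, ∀ᶠ ε : ℝ in nhdsWithin 0 (Set.Ioi 0), (a i : ℝ) * (x + ε) + ε < f i + 1 := by
      intro i
      have h2 : Filter.Tendsto (fun ε : ℝ => (a i : ℝ) * (x + ε) + ε) (nhds 0) (nhds ((a i : ℝ) * (x + 0) + 0)) := by
        apply Continuous.tendsto
        fun_prop
      have h3 : (a i : ℝ) * (x + 0) + 0 < f i + 1 := by
        have := (hfx i).2
        linarith
      exact (h2.eventually (gt_mem_nhds h3)).filter_mono nhdsWithin_le_nhds
    have h2 : ∀ᶠ ε : ℝ in nhdsWithin 0 (Set.Ioi 0), ∀ i, (a i : ℝ) * (x + ε) + ε < f i + 1 :=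
      Filter.eventually_all.mpr h1
    obtain ⟨ε, h3, h4⟩ := (h2.and self_mem_nhdsWithin).exists
    exact ⟨ε, h4, fun i => (h3 i).le⟩
  obtain ⟨δ, hδ, hδx⟩ : ∃ δ : ℝ, 0 < δ ∧ (x + ε / 2) * (1 + δ) + δ ≤ x + ε := by
    refine ⟨ε / 2 / (x + ε / 2 + 1), by positivity, ?_⟩
    have h1 : (x + ε / 2) * (1 + ε / 2 / (x + ε / 2 + 1)) + ε / 2 / (x + ε / 2 + 1) =
        x + ε / 2 + (x + ε / 2 + 1) * (ε / 2 / (x + ε / 2 + 1)) := by ring
    rw [h1, mul_div_cancel₀ _ (by positivity : (x + ε / 2 + 1) ≠ 0)]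
    linarith
  obtain ⟨T₁, hT₁⟩ := Filter.eventually_atTop.mp (R.rep.and (hB.and hE))
  set B : ℕ := ∑ i, (b i).natAbs with hBdef
  have hBi : ∀ i, |(b i : ℝ)| ≤ B := by
    intro i
    have h1 : (b i).natAbs ≤ B :=
      Finset.single_le_sum (f := fun i => (b i).natAbs) (fun _ _ => Nat.zero_le _) (Finset.mem_univ i)
    have h2 : |(b i : ℝ)| = ((b i).natAbs : ℝ) := by
      rw [Nat.cast_natAbs]
      push_cast
      rfl
    rw [h2]
    exact_mod_cast h1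
  set F : ℕ := ∑ i, f i with hF
  have hFi : ∀ i, f i ≤ F := fun i =>
    Finset.single_le_sum (f := f) (fun _ _ => Nat.zero_le _) (Finset.mem_univ i)
  set K₀ : ℕ := ∑ i, (d i).natAbs * f i with hK₀
  set K₁ : ℕ := ⌈x + ε⌉₊ with hK₁
  set N : ℕ := 4 * C + 1 with hN
  obtain ⟨y, hy₀, hyN⟩ := many_primes δ hδ N
    (⌈1 / δ⌉₊ + ⌈(B + 1) / (ε / 2)⌉₊ + ⌈(T₁ + 2 * K₀ + 2) / (ε / 2)⌉₊ + F + 2 + K₁ + q.num.natAbs + q.den)
  have hy1 : 1 / δ ≤ y := (Nat.le_ceil _).trans (by exact_mod_cast (by omega : ⌈1 / δ⌉₊ ≤ y))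
  have hy2 : (B + 1) / (ε / 2) ≤ y :=
    (Nat.le_ceil _).trans (by exact_mod_cast (by omega : ⌈((B : ℝ) + 1) / (ε / 2)⌉₊ ≤ y))
  have hy3 : (T₁ + 2 * K₀ + 2) / (ε / 2) ≤ y :=
    (Nat.le_ceil _).trans (by exact_mod_cast (by omega : ⌈((T₁ : ℝ) + 2 * K₀ + 2) / (ε / 2)⌉₊ ≤ y))
  have hε2 : 0 < ε / 2 := by positivity
  rw [div_le_iff₀ hδ] at hy1
  rw [div_le_iff₀ hε2] at hy2 hy3
  have hy0 : (0 : ℝ) ≤ y := Nat.cast_nonneg y
  set t : ℕ := ⌈(x + ε / 2) * (1 + δ) * y⌉₊ with ht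
  have ht1 : (x + ε / 2) * (1 + δ) * y ≤ t := Nat.le_ceil _
  have ht2 : (t : ℝ) < (x + ε / 2) * (1 + δ) * y + 1 := Nat.ceil_lt_add_one (by positivity)
  have ht3 : ε / 2 * y ≤ t := by
    have h1 : 0 ≤ x * (1 + δ) * y := by positivity
    have h2 : 0 ≤ ε / 2 * δ * y := by positivity
    nlinarith
  have ht4 : T₁ + 2 * K₀ + 2 ≤ t := by
    have : ((T₁ + 2 * K₀ + 2 : ℕ) : ℝ) ≤ t := by
      push_cast
      linarith
    exact_mod_cast this
  have ht5 : (t : ℝ) ≤ (x + ε) * y := by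
    have h1 : ((x + ε / 2) * (1 + δ) + δ) * y ≤ (x + ε) * y := mul_le_mul_of_nonneg_right hδx hy0
    nlinarith
  have ht6 : t ≤ y ^ 2 := by
    have h1 : (t : ℝ) ≤ (K₁ : ℝ) * y := ht5.trans (mul_le_mul_of_nonneg_right (Nat.le_ceil _) hy0)
    have h2 : t ≤ K₁ * y := by exact_mod_cast h1
    have h3 : K₁ * y ≤ y * y := Nat.mul_le_mul_right _ (by omega)
    rw [sq]
    omega
  obtain ⟨hrep, ⟨D, z, hD0, hD1, -, hD3, hz⟩, hEt⟩ := hT₁ t (by omega)
  set S := (range (⌊(1 + δ) * y⌋₊ + 1)).filter (fun p => p.Prime ∧ y < p) with hS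
  have hSp : ∀ p ∈ S, p.Prime ∧ y < p ∧ (p : ℝ) ≤ (1 + δ) * y := by
    intro p hp
    rw [hS, Finset.mem_filter, Finset.mem_range] at hp
    refine ⟨hp.2.1, hp.2.2, ?_⟩
    have h1 : p ≤ ⌊(1 + δ) * y⌋₊ := by omega
    exact (Nat.le_floor_iff (by positivity)).mp h1
  have hdvd : ∀ p ∈ S, h t ≠ 0 ∧ ((p : ℤ) ^ (t - K₀)) ∣ z := by
    intro p hp
    obtain ⟨hpp, hyp, hpy⟩ := hSp p hp
    have : Fact p.Prime := ⟨hpp⟩
    have hyp' : (y : ℝ) ≤ p := by exact_mod_cast hyp.le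
    have hp0 : (0 : ℝ) ≤ p := Nat.cast_nonneg p
    have h1 : (x + ε / 2) * p ≤ t := by
      have h2 : (x + ε / 2) * p ≤ (x + ε / 2) * ((1 + δ) * y) := mul_le_mul_of_nonneg_left hpy (by positivity)
      nlinarith
    have h2 : (t : ℝ) ≤ (x + ε) * p := ht5.trans (mul_le_mul_of_nonneg_left hyp' (by positivity))
    have h3 : (B : ℝ) < ε / 2 * p := by
      have h4 : ε / 2 * y ≤ ε / 2 * p := mul_le_mul_of_nonneg_left hyp' hε2.le
      nlinarith
    have hdiv : ∀ i, lin (a i) (b i) t / p = f i := fun i =>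
      StepB_div hx0 hε (R.apos i) (hfx i).1 (hεi i) h1 h2 (hBi i) h3
    have hfac : ∀ i, padicValNat p (Nat.factorial (lin (a i) (b i) t)) = f i := by
      intro i
      apply StepB_fac (hdiv i)
      have h4 : lin (a i) (b i) t < (f i + 1) * p := by
        have h5 : lin (a i) (b i) t / p < f i + 1 := by
          rw [hdiv i]
          exact Nat.lt_succ_self _
        exact (Nat.div_lt_iff_lt_mul hpp.pos).mp h5
      have h5 : (f i + 1) * p ≤ p * p := Nat.mul_le_mul_right _ (by have := hFi i; omega)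
      rw [sq]
      omega
    have hq : padicValRat p q = 0 := by
      unfold padicValRat
      have hE' : (E t : ℚ) ≠ 0 := Nat.cast_ne_zero.2 hEt
      have hq0 : q ≠ 0 := by
        rintro rfl
        have h6 : t * (t - 1) / 2 ≠ 0 := by
          have h7 : 2 * 1 ≤ t * (t - 1) := Nat.mul_le_mul (by omega) (by omega)
          omega
        rw [hrep, zero_pow h6] at hE'
        simp at hE'
      have h6 : padicValInt p q.num = 0 := by
        unfold padicValInt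
        apply padicValNat.eq_zero_of_not_dvd
        intro h7
        have h8 := Nat.le_of_dvd (Int.natAbs_pos.mpr (Rat.num_ne_zero.mpr hq0)) h7
        omega
      have h7 : padicValNat p q.den = 0 := by
        apply padicValNat.eq_zero_of_not_dvd
        intro h7
        have h8 := Nat.le_of_dvd q.den_pos h7
        omega
      rw [h6, h7]
      simp
    obtain ⟨hht, hval⟩ := StepB_val p t f hrep hEt hq hfac
    refine ⟨hht, ?_⟩
    have h4 : (t : ℤ) - K₀ ≤ padicValRat p (h t) := by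
      have h5 : ∑ i, (c i * (t : ℤ) + d i) * (f i : ℤ) = (t : ℤ) * ∑ i, c i * (f i : ℤ) + ∑ i, d i * (f i : ℤ) := by
        rw [Finset.mul_sum, ← Finset.sum_add_distrib]
        apply Finset.sum_congr rfl
        intro i _
        ring
      have h6 : ∑ i, d i * (f i : ℤ) ≤ K₀ := by
        rw [hK₀]
        push_cast
        apply Finset.sum_le_sum
        intro i _
        apply mul_le_mul_of_nonneg_right _ (by positivity)
        exact le_abs_self _
      have h7 : (t : ℤ) * ∑ i, c i * (f i : ℤ) ≤ (t : ℤ) * (-1) := mul_le_mul_of_nonneg_left hg (by positivity)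
      have h8 : (0 : ℤ) ≤ (padicValNat p (E t) : ℤ) := by positivity
      rw [h5] at hval
      linarith
    have hDne : (D : ℚ) ≠ 0 := by exact_mod_cast hD0.ne'
    have hz0 : z ≠ 0 := by
      rintro rfl
      rw [Int.cast_zero] at hD3
      exact (mul_ne_zero hDne hht) hD3
    have h5 : padicValRat p ((z : ℤ) : ℚ) = padicValRat p ((D : ℕ) : ℚ) + padicValRat p (h t) := by
      rw [← hD3, padicValRat.mul hDne hht]
    rw [padicValRat.of_int, padicValRat.of_nat] at h5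
    rw [padicValInt_dvd_iff]
    right
    have h6 : (0 : ℤ) ≤ (padicValNat p D : ℤ) := by positivity
    omega
  obtain ⟨p₀, hp₀⟩ : S.Nonempty := by
    rw [← Finset.card_pos]
    omega
  have hht := (hdvd p₀ hp₀).1
  have hDne : (D : ℚ) ≠ 0 := by exact_mod_cast hD0.ne'
  have hz0 : z ≠ 0 := by
    rintro rfl
    rw [Int.cast_zero] at hD3
    exact (mul_ne_zero hDne hht) hD3
  have hprod : (∏ p ∈ S, (p : ℤ) ^ (t - K₀)) ∣ z := by
    apply Finset.prod_dvd_of_coprime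
    · intro p hp p' hp' hne
      apply IsCoprime.pow
      rw [Nat.isCoprime_iff_coprime]
      exact (Nat.coprime_primes (hSp p hp).1 (hSp p' hp').1).mpr hne
    · intro p hp
      exact (hdvd p hp).2
  have hprod' : (∏ p ∈ S, p ^ (t - K₀)) ≤ z.natAbs := by
    apply Nat.le_of_dvd (Int.natAbs_pos.mpr hz0)
    have h1 := Int.natAbs_dvd_natAbs.mpr hprod
    have h2 : (∏ p ∈ S, (p : ℤ) ^ (t - K₀)).natAbs = ∏ p ∈ S, p ^ (t - K₀) := by
      have : (∏ p ∈ S, (p : ℤ) ^ (t - K₀)) = ((∏ p ∈ S, p ^ (t - K₀) : ℕ) : ℤ) := by push_cast; rfl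
      rw [this, Int.natAbs_natCast]
    rwa [h2] at h1
  have hlow : y ^ (N * (t - K₀)) ≤ ∏ p ∈ S, p ^ (t - K₀) := by
    calc y ^ (N * (t - K₀)) = (y ^ (t - K₀)) ^ N := by rw [← pow_mul, mul_comm]
      _ ≤ (y ^ (t - K₀)) ^ S.card := Nat.pow_le_pow_right (by have : 0 < y := by omega
                                                              positivity) hyN
      _ = ∏ p ∈ S, y ^ (t - K₀) := by rw [Finset.prod_const]
      _ ≤ ∏ p ∈ S, p ^ (t - K₀) := Finset.prod_le_prod' fun p hp => Nat.pow_le_pow_left (hSp p hp).2.1.le _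
  exact StepB_size hN (by omega) ht6 (by omega) ((hlow.trans hprod').trans hz)

end Pool.Agent.MP_c3d1b0N
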