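import Pool.Agent.Lib.MP_c3d1b0_coN.PRec
import Pool.Agent.Lib.MP_c3d1b0_coN.StepA
import Pool.Agent.Lib.MP_c3d1b0_coN.Star
import Pool.Agent.Lib.MP_c3d1b0_coN.Blocks
import Pool.Agent.Lib.MP_c3d1b0_coN.Group
import Pool.Agent.Lib.MP_c3d1b0_coN.StepB
import Pool.Agent.Lib.MP_c3d1b0_coN.FBound
import Pool.Agent.Lib.MP_c3d1b0_coN.Growth
import Pool.Agent.Lib.MP_c3d1b0_coN.LimUp
import Pool.Agent.Lib.MP_c3d1b0_coN.LimLow
import Pool.Agent.Lib.MP_c3d1b0_co.Ec
import Pool.Agent.Lib.MP_c3d1b0_co.V9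

set_option autoImplicit false

/-!
# Assembly of `NoClosedForm`
-/

namespace Pool.Agent.MP_c3d1b0N

open Finset Filter Pool.Agent.MP_c3d1b0

/-- The general form: a sequence with these four growth and valuation bounds has no representation. -/
theorem core {ι : Type} [Fintype ι] {E : ℕ → ℕ} {a : ι → ℕ} {b c d : ι → ℤ} {q : ℚ} {h : ℕ → ℚ} (M : ℕ) (hM : 0 < M)
    (R : Rep E a b c d q h) {C : ℕ} (hB : HBound h C)
    (hE : ∀ᶠ t : ℕ in atTop, E t ≠ 0)
    (hv : ∃ A : ℕ, ∀ᶠ t : ℕ in atTop, padicValNat 2 (E t) ≤ A * t)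
    (hup : ∃ A : ℕ, ∀ᶠ t : ℕ in atTop, E t ≤ 2 ^ (2 * M ^ 2 * t ^ 2) * t ^ (A * t))
    (hup' : ∃ A : ℕ, ∀ᶠ t : ℕ in atTop, E t ≤ 2 ^ (A * t ^ 2))
    (hlow : ∀ m : ℕ, 0 < m → ∃ᶠ t : ℕ in atTop, 2 ^ (2 * M ^ 2 * t ^ 2 * m) ≤ (E t) ^ m * 2 ^ (t ^ 2)) :
    False := by
  have hac := sum_ac R hB hE hup'
  obtain ⟨K, hK⟩ := star R hB hE hac hv
  have hg := group_zero R.apos hac (fun u v hv => G_nonneg R hB hE u v hv) (fun u hu => block_le R.apos hK u hu)
  obtain ⟨C', hF⟩ := F_bound (b := b) d R.apos hg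
  refine growth_contra E M hM q (fun t => FF a b c d t * h t) (C + C') ?_ ?_ hE hv hup hlow
  · filter_upwards [hB, hF] with t h1 h2
    obtain ⟨D, z, hD, hD1, -, hD3, hz⟩ := h1
    obtain ⟨N₁, N₂, hN₁, hN₂, hN₁', hN₂', hFF⟩ := h2
    refine ⟨N₁ * z, N₂ * D, Nat.mul_pos hN₂ hD, ?_, ?_, ?_⟩
    · rw [Int.natAbs_mul, Int.natAbs_natCast, add_mul, pow_add, mul_comm]
      exact Nat.mul_le_mul hz hN₁'
    · rw [add_mul, pow_add, mul_comm]
      exact Nat.mul_le_mul hD1 hN₂'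
    · have hD' : (D : ℚ) ≠ 0 := by exact_mod_cast hD.ne'
      have hN' : (N₂ : ℚ) ≠ 0 := by exact_mod_cast hN₂.ne'
      have hht : h t = (z : ℚ) / D := by
        field_simp
        linarith [hD3]
      show FF a b c d t * h t = _
      rw [hFF, hht]
      push_cast
      field_simp
  · filter_upwards [R.rep] with t ht
    rw [ht, mul_assoc]

/-- No representation of the numbers of Eulerian circuits of the complete graphs along an arithmetic progression. -/
theorem no_rep (M r : ℕ) (hM : 0 < M) {k : ℕ} (a : Fin k → ℕ) (b c d : Fin k → ℤ) (q : ℚ) (h : ℕ → ℚ)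
    (ha : ∀ i, 0 < a i) {C : ℕ} (hB : HBound h C)
    (hrep : ∀ᶠ t : ℕ in atTop, (ec (M * t + r) : ℚ) = q ^ (t * (t - 1) / 2) *
      (∏ i, ((Nat.factorial (lin (a i) (b i) t) : ℕ) : ℚ) ^ (c i * (t : ℤ) + d i)) * h t) : False := by
  have hpos : ∀ᶠ t : ℕ in atTop, 0 < M * t + r := by
    filter_upwards [eventually_ge_atTop 1] with t ht
    have := Nat.mul_pos hM ht
    omega
  have hE : ∀ᶠ t : ℕ in atTop, EE (Fin (2 * (M * t + r) + 1)) (M * t + r) 0 ≠ 0 := by
    filter_upwards [hpos] with t ht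
    exact (EE_val ht).2
  have hv : ∃ A : ℕ, ∀ᶠ t : ℕ in atTop,
      padicValNat 2 (EE (Fin (2 * (M * t + r) + 1)) (M * t + r) 0) ≤ A * t := by
    refine ⟨2 * (M + r), ?_⟩
    filter_upwards [hpos, eventually_ge_atTop 1] with t ht ht1
    rw [(EE_val ht).1]
    have h1 : padicValNat 2 (Nat.factorial (2 * (M * t + r))) ≤ 2 * (M * t + r) := by
      have := sub_one_mul_padicValNat_factorial (p := 2) (2 * (M * t + r))
      omega
    refine h1.trans ?_
    nlinarith
  have R : Rep (fun t => EE (Fin (2 * (M * t + r) + 1)) (M * t + r) 0)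
      (fun i : Option (Fin k) => i.elim M a) (fun i => i.elim ((r : ℤ) - 1) b)
      (fun i => i.elim (-(2 * (M : ℤ))) c) (fun i => i.elim (-(2 * (r : ℤ) + 1)) d) q h := by
    refine ⟨?_, ?_⟩
    · intro i
      cases i with
      | none => exact hM
      | some i => exact ha i
    · filter_upwards [hrep, hpos] with t ht hp
      unfold FF
      rw [Fintype.prod_option]
      simp only [Option.elim]
      have h1 : lin M ((r : ℤ) - 1) t = M * t + r - 1 := by
        unfold lin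
        have : ((M : ℤ) * t + ((r : ℤ) - 1)) = ((M * t + r - 1 : ℕ) : ℤ) := by
          push_cast [Nat.cast_sub hp]
          ring
        rw [this, Int.toNat_natCast]
      have h2 : (-(2 * (M : ℤ)) * (t : ℤ) + -(2 * (r : ℤ) + 1)) = -(((2 * (M * t + r) + 1 : ℕ)) : ℤ) := by
        push_cast
        ring
      rw [h1, h2, zpow_neg, zpow_natCast]
      have h3 := ec_eq hp 0
      have h4 : (ec (M * t + r) : ℚ) = ((Nat.factorial (M * t + r - 1) : ℕ) : ℚ) ^ (2 * (M * t + r) + 1) *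
          (EE (Fin (2 * (M * t + r) + 1)) (M * t + r) 0 : ℚ) := by
        rw [h3]
        push_cast
        ring
      have h5 : (((Nat.factorial (M * t + r - 1) : ℕ) : ℚ) ^ (2 * (M * t + r) + 1)) ≠ 0 := by
        have := Nat.factorial_ne_zero (M * t + r - 1)
        positivity
      rw [h4] at ht
      field_simp
      linarith [ht]
  exact core M hM R hB hE hv (lim_up M r) (lim_up' M r) (lim_low M r hM)

end Pool.Agent.MP_c3d1b0N
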