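import Mathlib

set_option autoImplicit false

/-!
# Definitions for `NoClosedForm`

`lin a b t = a t + b` (truncated at `0`), `FF a b c d t = ∏ i, ((a_i t + b_i)!) ^ (c_i t + d_i)`, `sg n` = binary digit sum,
`Rep E a b c d q h`: `E t = q ^ (t (t - 1) / 2) * FF a b c d t * h t` for all large `t`;
`HBound h C`: for all large `t` there is `D > 0` with `D h(t)` an integer, all numbers at most `t ^ (C t)`, and `v_2(D) ≤ C t`.
-/

namespace Pool.Agent.MP_c3d1b0N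

open Filter Finset

/-- `h` is holonomic (P-recursive): `∑_{j ≤ J} P_j(t) h(t + j) = 0` for all large `t`, with polynomials `P_j` over `ℚ`, `P_J ≠ 0`. -/
def Holonomic (h : ℕ → ℚ) : Prop :=
  ∃ (J : ℕ) (P : Fin (J + 1) → Polynomial ℚ), P (Fin.last J) ≠ 0 ∧
    ∀ᶠ t : ℕ in atTop, ∑ j : Fin (J + 1), (P j).eval (t : ℚ) * h (t + j) = 0

/-- `a t + b`, truncated at `0`. -/
def lin (a : ℕ) (b : ℤ) (t : ℕ) : ℕ := ((a : ℤ) * t + b).toNat

/-- The product of the `((a_i t + b_i)!) ^ (c_i t + d_i)`. -/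
noncomputable def FF {ι : Type} [Fintype ι] (a : ι → ℕ) (b c d : ι → ℤ) (t : ℕ) : ℚ :=
  ∏ i, ((Nat.factorial (lin (a i) (b i) t) : ℕ) : ℚ) ^ (c i * (t : ℤ) + d i)

/-- `E t = q ^ (t (t - 1) / 2) * FF a b c d t * h t` for all large `t`, and all `a_i > 0`. -/
structure Rep {ι : Type} [Fintype ι] (E : ℕ → ℕ) (a : ι → ℕ) (b c d : ι → ℤ) (q : ℚ) (h : ℕ → ℚ) : Prop where
  apos : ∀ i, 0 < a i
  rep : ∀ᶠ t : ℕ in atTop, (E t : ℚ) = q ^ (t * (t - 1) / 2) * FF a b c d t * h t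

/-- Bounds for the numerator and the denominator of `h t`. -/
def HBound (h : ℕ → ℚ) (C : ℕ) : Prop :=
  ∀ᶠ t : ℕ in atTop, ∃ (D : ℕ) (z : ℤ), 0 < D ∧ D ≤ t ^ (C * t) ∧ padicValNat 2 D ≤ C * t ∧
    (D : ℚ) * h t = z ∧ z.natAbs ≤ t ^ (C * t)

/-- The sum of the binary digits. -/
def sg (n : ℕ) : ℕ := (Nat.digits 2 n).sum

/-- Square 0/1 matrices over the index type `X` with all row sums and all column sums equal to `k`. -/
def Bal (X : Type) [Fintype X] (k : ℕ) : Type :=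
  {f : X → X → Bool // (∀ x, (univ.filter (fun y => f x y = true)).card = k) ∧
    ∀ y, (univ.filter (fun x => f x y = true)).card = k}

end Pool.Agent.MP_c3d1b0N
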