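import Pool.Agent.Lib.MP_c3d1b0_coN.Defs
import Pool.Agent.Lib.MP_c3d1b0_co.Defs

set_option autoImplicit false

/-!
# JOB EEup: the trivial upper bound (about 50 lines)

`EE V s r = Nat.card (TG V s r)`, pairs (tournament `T`, parent function `g : V → V`), `V = Fin (2 s + 1)` (definitions in `Pool.Agent.Lib.MP_c3d1b0_co.Defs`).
A tournament `T` is determined by its values on the pairs `b < a`, that is by a function `(Σ a : Fin n, Fin a) → Bool` (`n = 2 s + 1`); the number of these functions is `2 ^ (n (n - 1) / 2) = 2 ^ (s (2 s + 1))`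
(`Fintype.card_sigma`, `Fin.sum_univ_eq_sum_range`, `Finset.sum_range_id`/`Finset.sum_range_id_mul_two`), and the number of functions `g` is `n ^ n`.  The map `(T, g) ↦ (T restricted, g)` is injective on `TG`
(`T a a = false`, `T a b = !T b a`): `Nat.card_le_card_of_injective`.
-/

namespace Pool.Agent.MP_c3d1b0N

open Finset Pool.Agent.MP_c3d1b0

private def EEup_code (s : ℕ) (p : TG (Fin (2 * s + 1)) s 0) :
    ((Σ a : Fin (2 * s + 1), Fin a.val) → Bool) × (Fin (2 * s + 1) → Fin (2 * s + 1)) :=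
  (fun x => p.1.1 x.1 ⟨x.2.val, x.2.isLt.trans x.1.isLt⟩, p.1.2)

private theorem EEup_inj (s : ℕ) : Function.Injective (EEup_code s) := by
  rintro ⟨⟨T, g⟩, hT⟩ ⟨⟨T', g'⟩, hT'⟩ h
  have h1 : (fun x : Σ a : Fin (2 * s + 1), Fin a.val =>
      T x.1 ⟨x.2.val, x.2.isLt.trans x.1.isLt⟩) =
      fun x : Σ a : Fin (2 * s + 1), Fin a.val =>
      T' x.1 ⟨x.2.val, x.2.isLt.trans x.1.isLt⟩ := congrArg Prod.fst h
  have h2 : g = g' := congrArg Prod.snd h
  have hlt : ∀ a b : Fin (2 * s + 1), b < a → T a b = T' a b := fun a b hab =>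
    congrFun h1 ⟨a, ⟨b.val, hab⟩⟩
  have ht : IsTour T := hT.1
  have ht' : IsTour T' := hT'.1
  have h3 : T = T' := by
    funext a b
    rcases lt_trichotomy b a with hab | hab | hab
    · exact hlt a b hab
    · rw [hab, ht.1, ht'.1]
    · rw [ht.2 a b hab.ne, ht'.2 a b hab.ne, hlt b a hab]
  subst h2
  subst h3
  rfl

private theorem EEup_sum (s : ℕ) : ∑ a : Fin (2 * s + 1), Fintype.card (Fin a.val) = s * (2 * s + 1) := by
  have h1 : ∑ a : Fin (2 * s + 1), Fintype.card (Fin a.val) = ∑ i ∈ Finset.range (2 * s + 1), i := by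
    rw [← Fin.sum_univ_eq_sum_range (fun i => i) (2 * s + 1)]
    refine Finset.sum_congr rfl fun a _ => ?_
    rw [Fintype.card_fin]
  have h2 := Finset.sum_range_id_mul_two (2 * s + 1)
  have h3 : 2 * s + 1 - 1 = 2 * s := by omega
  rw [h3] at h2
  rw [h1]
  nlinarith [h2]

theorem EE_upper (s : ℕ) : EE (Fin (2 * s + 1)) s 0 ≤ 2 ^ (s * (2 * s + 1)) * (2 * s + 1) ^ (2 * s + 1) := by
  unfold EE
  refine (Nat.card_le_card_of_injective (EEup_code s) (EEup_inj s)).trans (le_of_eq ?_)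
  rw [Nat.card_eq_fintype_card, Fintype.card_prod, Fintype.card_fun, Fintype.card_fun,
    Fintype.card_sigma, Fintype.card_bool, Fintype.card_fin, EEup_sum]

end Pool.Agent.MP_c3d1b0N
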