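import Pool.Agent.Lib.MP_c3d1b0_coN.Defs

set_option autoImplicit false

/-!
# JOB LogFac: `log ((a t + b)!) = a t log t + O(t)` (about 50 lines)

`(n/e)^n ≤ n! ≤ n^n` (`n ≥ 1`), so `|log n! - n log n| ≤ n`.  (In Mathlib: `Nat.factorial_le_pow`, `Real.exp_one...`, Stirling: `Stirling.le_factorial_stirling` or `Nat.factorial_lt...`; a direct induction also works:
`log n! = ∑_{i ≤ n} log i ≥ n log n - n`, because `(n+1) log (n+1) - (n+1) - (n log n - n) ≤ log (n+1)`, that is `n (log (n+1) - log n) ≤ 1`.)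
With `n = a t + b`: for large `t`: `t ≤ n ≤ 2 a t` if `b ≥ ...`; in general `a t / 2 ≤ n ≤ 2 a t`, so `|log n - log t| ≤ log (2 a) + log 2` and `|n - a t| = |b|`:
`|n log n - a t log t| ≤ n |log n - log t| + |b| log t ≤ C t`.
-/

namespace Pool.Agent.MP_c3d1b0N

open Finset Filter

private theorem LogFac_aux (n : ℕ) (hn : 1 ≤ n) :
    |Real.log (Nat.factorial n : ℕ) - (n : ℝ) * Real.log n| ≤ n := by
  have hn0 : (0 : ℝ) < n := by exact_mod_cast hn
  have hf : (0 : ℝ) < (Nat.factorial n : ℕ) := by exact_mod_cast Nat.factorial_pos n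
  have h1 : Real.log (Nat.factorial n : ℕ) ≤ (n : ℝ) * Real.log n := by
    rw [← Real.log_pow]
    apply Real.log_le_log hf
    exact_mod_cast Nat.factorial_le_pow n
  have h2 : (n : ℝ) * Real.log n - Real.log (Nat.factorial n : ℕ) ≤ n := by
    have h3 := Real.pow_div_factorial_le_exp (n : ℝ) hn0.le n
    have h4 : 0 < (n : ℝ) ^ n / (Nat.factorial n : ℕ) := div_pos (pow_pos hn0 n) hf
    have h5 := Real.log_le_log h4 h3
    rw [Real.log_exp, Real.log_div (pow_pos hn0 n).ne' hf.ne', Real.log_pow] at h5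
    exact h5
  rw [abs_le]
  constructor
  · linarith
  · linarith

theorem log_fac (a : ℕ) (ha : 0 < a) (b : ℤ) :
    ∃ C : ℝ, ∀ᶠ t : ℕ in atTop,
      |Real.log (Nat.factorial (lin a b t) : ℕ) - (a : ℝ) * t * Real.log t| ≤ C * t := by
  refine ⟨2 * a + 2 * a * (Real.log (2 * a) + Real.log 2) + |(b : ℝ)|, ?_⟩
  filter_upwards [eventually_ge_atTop (2 * b.natAbs + 1)] with t ht
  have hb1 : |b| = (b.natAbs : ℤ) := Int.abs_eq_natAbs b
  have htz : 2 * |b| + 1 ≤ (t : ℤ) := by rw [hb1]; exact_mod_cast ht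
  have haz : (1 : ℤ) ≤ (a : ℤ) := by exact_mod_cast ha
  have htpos : (0 : ℤ) < t := by
    have := abs_nonneg b
    linarith
  have hat : (t : ℤ) ≤ a * t := by nlinarith
  have hbl : -|b| ≤ b := neg_abs_le b
  have hbu : b ≤ |b| := le_abs_self b
  have hnz : ((lin a b t : ℕ) : ℤ) = a * t + b := by
    unfold lin
    rw [Int.toNat_of_nonneg]
    have := abs_nonneg b
    linarith
  obtain ⟨n, hn⟩ : ∃ n, n = lin a b t := ⟨_, rfl⟩
  rw [← hn] at hnz ⊢
  have hnr : (n : ℝ) = a * t + b := by exact_mod_cast hnz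
  have htr : 2 * |(b : ℝ)| + 1 ≤ (t : ℝ) := by exact_mod_cast htz
  have har : (1 : ℝ) ≤ a := by exact_mod_cast haz
  have hb0 : 0 ≤ |(b : ℝ)| := abs_nonneg _
  have ht0 : (0 : ℝ) < t := by linarith
  have hatr : (t : ℝ) ≤ a * t := by nlinarith
  have hblr : -|(b : ℝ)| ≤ b := neg_abs_le _
  have hbur : (b : ℝ) ≤ |(b : ℝ)| := le_abs_self _
  have hn1 : (t : ℝ) / 2 ≤ n := by rw [hnr]; linarith
  have hn2 : (n : ℝ) ≤ 2 * a * t := by rw [hnr]; linarith
  have hnpos : (0 : ℝ) < n := by linarith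
  have hn1' : 1 ≤ n := by
    have : 0 < n := by exact_mod_cast hnpos
    omega
  have hA := LogFac_aux n hn1'
  have hl1 : Real.log t - Real.log 2 ≤ Real.log n := by
    rw [← Real.log_div ht0.ne' two_ne_zero]
    exact Real.log_le_log (by linarith) hn1
  have hl2 : Real.log n ≤ Real.log (2 * a) + Real.log t := by
    rw [← Real.log_mul (by positivity) ht0.ne']
    exact Real.log_le_log hnpos hn2
  have hlog2 : 0 ≤ Real.log 2 := Real.log_nonneg (by norm_num)
  have hlog2a : 0 ≤ Real.log (2 * a) := Real.log_nonneg (by linarith)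
  have hlt : Real.log t ≤ t := (Real.log_le_sub_one_of_pos ht0).trans (by linarith)
  have hlt0 : 0 ≤ Real.log t := Real.log_nonneg (by linarith)
  have hd : |Real.log n - Real.log t| ≤ Real.log (2 * a) + Real.log 2 := by
    rw [abs_le]; constructor <;> linarith
  have h1 : |(n : ℝ) * (Real.log n - Real.log t)|
      ≤ 2 * a * t * (Real.log (2 * a) + Real.log 2) := by
    rw [abs_mul, abs_of_pos hnpos]
    exact mul_le_mul hn2 hd (abs_nonneg _) (by positivity)
  have h2 : |(b : ℝ) * Real.log t| ≤ |(b : ℝ)| * t := by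
    rw [abs_mul, abs_of_nonneg hlt0]
    exact mul_le_mul_of_nonneg_left hlt hb0
  have e : Real.log (Nat.factorial n : ℕ) - (a : ℝ) * t * Real.log t
      = (Real.log (Nat.factorial n : ℕ) - (n : ℝ) * Real.log n)
        + (n : ℝ) * (Real.log n - Real.log t) + (b : ℝ) * Real.log t := by
    rw [hnr]; ring
  rw [e]
  calc _ ≤ |(Real.log (Nat.factorial n : ℕ) - (n : ℝ) * Real.log n)|
        + |(n : ℝ) * (Real.log n - Real.log t)| + |(b : ℝ) * Real.log t| := abs_add_three _ _ _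
    _ ≤ n + 2 * a * t * (Real.log (2 * a) + Real.log 2) + |(b : ℝ)| * t := by
        gcongr
    _ ≤ 2 * a * t + 2 * a * t * (Real.log (2 * a) + Real.log 2) + |(b : ℝ)| * t := by
        gcongr
    _ = _ := by ring

end Pool.Agent.MP_c3d1b0N
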