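import Pool.Agent.Lib.MP_c3d1b0_coN.PolyVal

set_option autoImplicit false

/-!
# JOB PRec: bounds for holonomic sequences (about 120 lines)

`Holonomic h` gives `C` with `HBound h C`.
(1) Clear denominators: there are integer polynomials `Q_j`, `Q_J ≠ 0`, with `∑_j Q_j(t) h(t+j) = 0` for `t ≥ t_0` (common denominator of all coefficients: e.g. `IsLocalization.integerNormalization` or
`Polynomial.exists_... `; or choose `N ≠ 0` with `N P_j` integral for all `j` by `Finset.prod` of the denominators of the coefficients; `Polynomial.map (Int.castRingHom ℚ)`).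
(2) `Q_J` has finitely many roots, so `Q_J(t) ≠ 0` for `t ≥ t_1 ≥ t_0`.  Case `J = 0`: then `h(t) = 0` for `t ≥ t_1`, take `D = 1`, `z = 0`.
(3) `D(t) := B * ∏_{t_1 ≤ i, i + J ≤ t} |Q_J(i)|` with `B` the product of the denominators of `h(t_1), ..., h(t_1 + J - 1)`.  For `t ≥ t_1`: `D(t) h(t)` is an integer, by strong induction: for `t = i + J`, `i ≥ t_1`:
`D(t) h(t) = ∓ (D(t) / |Q_J(i)|) ∑_{j < J} Q_j(i) h(i + j)`, and `D(i+j) ∣ D(t - 1) = D(t) / |Q_J(i)|`.
(4) `|Q_j(i)| ≤ A (i + 1)^d` for all `i`, `j`; so `D(t) ≤ B (A (t+1)^d)^t ≤ t^(C t)` for large `t`, and `|h(t)| ≤ A' ∏_{i ≤ t} (J A (i+1)^d + 1) ≤ A' (..)^t` by the same induction (`|Q_J(i)| ≥ 1`), so `|D(t) h(t)| ≤ t^(C t)` for large `t`.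
(5) `v_2(D(t)) = v_2(B) + ∑ v_2(Q_J(i)) ≤ v_2(B) + C (t + 1)` by `poly_val_sum`.
-/

namespace Pool.Agent.MP_c3d1b0N

open Finset Filter

private theorem PRec_int (p : Polynomial ℚ) : ∃ (b : ℤ) (q : Polynomial ℤ), b ≠ 0 ∧
    (p ≠ 0 → q ≠ 0) ∧ ∀ t : ℤ, ((q.eval t : ℤ) : ℚ) = (b : ℚ) * p.eval (t : ℚ) := by
  obtain ⟨b, hb, h⟩ := IsLocalization.integerNormalization_spec (nonZeroDivisors ℤ) p
  have hb0 : b ≠ 0 := nonZeroDivisors.ne_zero hb
  refine ⟨b, IsLocalization.integerNormalization (nonZeroDivisors ℤ) p, hb0, ?_, ?_⟩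
  · intro hp hq
    rw [hq, Polynomial.map_zero] at h
    have h2 := h.symm
    rw [smul_eq_zero] at h2
    rcases h2 with h2 | h2
    · exact hb0 h2
    · exact hp h2
  · intro t
    have h1 := Polynomial.eval_intCast_map (algebraMap ℤ ℚ)
      (IsLocalization.integerNormalization (nonZeroDivisors ℤ) p) t
    rw [h] at h1
    rw [Polynomial.eval_smul] at h1
    simp only [zsmul_eq_mul, algebraMap_int_eq, eq_intCast, Int.cast_id] at h1
    exact h1.symm

private theorem PRec_bd (q : Polynomial ℤ) : ∃ A d : ℕ, ∀ i : ℕ,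
    (q.eval (i : ℤ)).natAbs ≤ A * (i + 1) ^ d := by
  refine ⟨∑ k ∈ range (q.natDegree + 1), (q.coeff k).natAbs, q.natDegree, ?_⟩
  intro i
  rw [Polynomial.eval_eq_sum_range]
  refine (Int.natAbs_sum_le _ _).trans ?_
  rw [Finset.sum_mul]
  apply Finset.sum_le_sum
  intro k hk
  rw [Int.natAbs_mul]
  apply Nat.mul_le_mul_left
  rw [Int.natAbs_pow, Int.natAbs_natCast]
  calc i ^ k ≤ (i + 1) ^ k := Nat.pow_le_pow_left (by omega) k
    _ ≤ (i + 1) ^ q.natDegree := Nat.pow_le_pow_right (by omega) (by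
        have := Finset.mem_range.mp hk
        omega)

private theorem PRec_bd2 {J : ℕ} (Q : Fin (J + 1) → Polynomial ℤ) : ∃ A d : ℕ, 1 ≤ A ∧
    ∀ (j : Fin (J + 1)) (i : ℕ), ((Q j).eval (i : ℤ)).natAbs ≤ A * (i + 1) ^ d := by
  choose A d h using fun j => PRec_bd (Q j)
  refine ⟨∑ j, A j + 1, ∑ j, d j, by omega, ?_⟩
  intro j i
  refine (h j i).trans ?_
  apply Nat.mul_le_mul
  · have := Finset.single_le_sum (f := A) (fun _ _ => Nat.zero_le _) (Finset.mem_univ j)
    omega
  · apply Nat.pow_le_pow_right (by omega)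
    exact Finset.single_le_sum (f := d) (fun _ _ => Nat.zero_le _) (Finset.mem_univ j)

/-- integer coefficients -/
private theorem PRec_clear (h : ℕ → ℚ) (H : Holonomic h) :
    ∃ (J : ℕ) (Q : Fin (J + 1) → Polynomial ℤ) (t1 : ℕ), Q (Fin.last J) ≠ 0 ∧
      (∀ t : ℕ, t1 ≤ t → (Q (Fin.last J)).eval (t : ℤ) ≠ 0) ∧
      ∀ t : ℕ, t1 ≤ t → ∑ j : Fin (J + 1), (((Q j).eval (t : ℤ) : ℤ) : ℚ) * h (t + j) = 0 := by
  obtain ⟨J, P, hP, hrel⟩ := H
  choose b q hb hq hev using fun j => PRec_int (P j)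
  obtain ⟨t0, ht0⟩ := eventually_atTop.mp hrel
  obtain ⟨Q, hQ⟩ : ∃ Q : Fin (J + 1) → Polynomial ℤ, Q = fun j =>
    Polynomial.C (∏ i ∈ univ.erase j, b i) * q j := ⟨_, rfl⟩
  have hQ0 : Q (Fin.last J) ≠ 0 := by
    rw [hQ]
    apply mul_ne_zero
    · rw [Ne, Polynomial.C_eq_zero]
      exact Finset.prod_ne_zero_iff.mpr (fun i _ => hb i)
    · exact hq _ hP
  have hfin : {t : ℤ | (Q (Fin.last J)).IsRoot t}.Finite :=
    (Q (Fin.last J)).finite_setOfPred_isRoot hQ0
  obtain ⟨m, hm⟩ := hfin.bddAbove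
  refine ⟨J, Q, max t0 (m.toNat + 1), hQ0, ?_, ?_⟩
  · intro t ht h0
    have h1 : (t : ℤ) ≤ m := hm h0
    have h2 : m.toNat + 1 ≤ t := (le_max_right _ _).trans ht
    omega
  · intro t ht
    have h1 := ht0 t ((le_max_left _ _).trans ht)
    have e : ∀ j : Fin (J + 1), (((Q j).eval (t : ℤ) : ℤ) : ℚ) * h (t + j)
        = ((∏ i, b i : ℤ) : ℚ) * ((P j).eval (t : ℚ) * h (t + j)) := by
      intro j
      have e1 : (((Q j).eval (t : ℤ) : ℤ) : ℚ) = ((∏ i, b i : ℤ) : ℚ) * (P j).eval (t : ℚ) := by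
        rw [hQ]
        simp only [Polynomial.eval_mul, Polynomial.eval_C, Int.cast_mul]
        rw [hev j (t : ℤ), ← Finset.mul_prod_erase univ b (Finset.mem_univ j)]
        push_cast
        ring
      rw [e1, mul_assoc]
    rw [Finset.sum_congr rfl (fun j _ => e j), ← Finset.mul_sum, h1, mul_zero]

private theorem PRec_val_prod (s : Finset ℕ) (w : ℕ → ℕ) (hw : ∀ i ∈ s, w i ≠ 0) :
    padicValNat 2 (∏ i ∈ s, w i) = ∑ i ∈ s, padicValNat 2 (w i) := by
  classical
  induction s using Finset.induction_on with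
  | empty => simp
  | insert a s ha ih =>
    have h2 : ∀ i ∈ s, w i ≠ 0 := fun i hi => hw i (Finset.mem_insert_of_mem hi)
    rw [Finset.prod_insert ha, Finset.sum_insert ha,
      padicValNat.mul (hw a (Finset.mem_insert_self a s)) (Finset.prod_ne_zero_iff.mpr h2), ih h2]

theorem hbound_of_holonomic (h : ℕ → ℚ) (H : Holonomic h) : ∃ C : ℕ, HBound h C := by
  obtain ⟨J, Q, t1, hQ0, hne, hrel⟩ := PRec_clear h H
  obtain ⟨A, d, hA, hbd⟩ := PRec_bd2 Q
  obtain ⟨C0, hC0⟩ := poly_val_sum (Q (Fin.last J)) hQ0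
  obtain ⟨w, hw⟩ : ∃ w : ℕ → ℕ, w = fun i : ℕ => ((Q (Fin.last J)).eval (i : ℤ)).natAbs := ⟨_, rfl⟩
  have hw0 : ∀ i, t1 ≤ i → w i ≠ 0 := by
    intro i hi
    rw [hw]
    exact Int.natAbs_ne_zero.mpr (hne i hi)
  obtain ⟨B, hB⟩ : ∃ B : ℕ, B = ∏ s ∈ Ico t1 (t1 + J), (h s).den := ⟨_, rfl⟩
  have hB0 : B ≠ 0 := by
    rw [hB]
    exact Finset.prod_ne_zero_iff.mpr (fun i _ => (h i).den_nz)
  obtain ⟨G, hG⟩ : ∃ G : ℕ → ℕ, G = fun n => B * ∏ i ∈ Ico t1 n, w i := ⟨_, rfl⟩
  have hG0 : ∀ n, G n ≠ 0 := by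
    intro n
    rw [hG]
    exact mul_ne_zero hB0 (Finset.prod_ne_zero_iff.mpr
      (fun i hi => hw0 i (Finset.mem_Ico.mp hi).1))
  have hGdvd : ∀ m n, m ≤ n → G m ∣ G n := by
    intro m n hmn
    rw [hG]
    exact mul_dvd_mul_left B (Finset.prod_dvd_prod_of_subset _ _ _
      (Finset.Ico_subset_Ico le_rfl hmn))
  have hGs : ∀ i, t1 ≤ i → G (i + 1) = G i * w i := by
    intro i hi
    rw [hG]
    simp only
    rw [Finset.prod_Ico_succ_top hi, mul_assoc]
  -- the recursion solved for the last term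
  have hstep : ∀ i, t1 ≤ i → (((Q (Fin.last J)).eval (i : ℤ) : ℤ) : ℚ) * h (i + J)
      = - ∑ j : Fin J, (((Q j.castSucc).eval (i : ℤ) : ℤ) : ℚ) * h (i + j) := by
    intro i hi
    have h1 := hrel i hi
    rw [Fin.sum_univ_castSucc] at h1
    simp only [Fin.val_castSucc, Fin.val_last] at h1
    linear_combination h1
  -- integrality
  have hint : ∀ t, t1 ≤ t → ∃ z : ℤ, ((G (t + 1 - J) : ℕ) : ℚ) * h t = z := by
    intro t
    induction t using Nat.strong_induction_on with
    | _ t ih =>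
      intro ht
      by_cases htJ : t < t1 + J
      · have h1 : G (t + 1 - J) = B := by
          rw [hG]
          simp only
          rw [Finset.Ico_eq_empty (by omega)]
          simp
        rw [h1, hB]
        have h2 : (h t).den ∣ ∏ s ∈ Ico t1 (t1 + J), (h s).den :=
          Finset.dvd_prod_of_mem (fun s => (h s).den) (Finset.mem_Ico.mpr ⟨ht, htJ⟩)
        obtain ⟨c, hc⟩ := h2
        rw [hc]
        refine ⟨(h t).num * c, ?_⟩
        have h3 := Rat.den_mul_eq_num (h t)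
        push_cast
        rw [← h3]
        ring
      · obtain ⟨i, rfl⟩ : ∃ i, t = i + J := ⟨t - J, by omega⟩
        have hi : t1 ≤ i := by omega
        have e1 : i + J + 1 - J = i + 1 := by omega
        rw [e1, hGs i hi]
        have hterm : ∀ j : Fin J, ∃ z : ℤ, ((G i : ℕ) : ℚ) * h (i + j) = z := by
          intro j
          obtain ⟨z, hz⟩ := ih (i + j) (by omega) (by omega)
          obtain ⟨c, hc⟩ := hGdvd (i + j + 1 - J) i (by omega)
          refine ⟨z * c, ?_⟩
          rw [hc]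
          push_cast
          rw [← hz]
          ring
        choose z hz using hterm
        have hwz : ∃ e : ℤ, ((w i : ℕ) : ℤ) = e * (Q (Fin.last J)).eval (i : ℤ) := by
          rw [hw]
          simp only
          rcases Int.natAbs_eq ((Q (Fin.last J)).eval (i : ℤ)) with h5 | h5
          · exact ⟨1, by rw [one_mul]; exact h5.symm⟩
          · exact ⟨-1, by rw [neg_one_mul]; linarith⟩
        obtain ⟨e, he⟩ := hwz
        refine ⟨- (e * ∑ j : Fin J, (Q j.castSucc).eval (i : ℤ) * z j), ?_⟩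
        have he' : ((w i : ℕ) : ℚ) = (e : ℚ) * (((Q (Fin.last J)).eval (i : ℤ) : ℤ) : ℚ) := by
          exact_mod_cast he
        have h6 : ∑ j : Fin J, (((Q j.castSucc).eval (i : ℤ) : ℤ) : ℚ) * (z j : ℚ)
            = ((G i : ℕ) : ℚ) * ∑ j : Fin J, (((Q j.castSucc).eval (i : ℤ) : ℤ) : ℚ) * h (i + j) := by
          rw [Finset.mul_sum]
          apply Finset.sum_congr rfl
          intro j _
          rw [← hz j]
          ring
        push_cast
        rw [h6, he']
        have h7 := hstep i hi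
        linear_combination ((G i : ℕ) : ℚ) * (e : ℚ) * h7
  -- size of the values
  obtain ⟨U, hU⟩ : ∃ U : ℕ → ℕ, U = fun i => (J + 1) * A * (i + 1) ^ d := ⟨_, rfl⟩
  have hU1 : ∀ i, 1 ≤ U i := by
    intro i
    rw [hU]
    have : 0 < (J + 1) * A * (i + 1) ^ d := by positivity
    exact this
  have hUmono : ∀ i j, i ≤ j → U i ≤ U j := by
    intro i j hij
    rw [hU]
    exact Nat.mul_le_mul_left _ (Nat.pow_le_pow_left (by omega) d)
  have hwU : ∀ i, w i ≤ U i := by
    intro i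
    rw [hw, hU]
    refine (hbd (Fin.last J) i).trans ?_
    apply Nat.mul_le_mul_right
    nlinarith
  obtain ⟨M, hM⟩ : ∃ M : ℕ, ∀ s ∈ Ico t1 (t1 + J), |h s| ≤ (M : ℚ) := by
    refine ⟨∑ s ∈ Ico t1 (t1 + J), ⌈|h s|⌉₊, ?_⟩
    intro s hs
    refine (Nat.le_ceil _).trans ?_
    exact_mod_cast Finset.single_le_sum (f := fun s => ⌈|h s|⌉₊) (fun _ _ => Nat.zero_le _) hs
  have hprodmono : ∀ m n, m ≤ n → ∏ i ∈ Ico t1 m, U i ≤ ∏ i ∈ Ico t1 n, U i := by
    intro m n hmn
    exact Finset.prod_le_prod_of_subset_of_one_le' (Finset.Ico_subset_Ico le_rfl hmn)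
      (fun i _ _ => hU1 i)
  have hsize : ∀ t, t1 ≤ t → |h t| ≤ ((M * ∏ i ∈ Ico t1 (t + 1 - J), U i : ℕ) : ℚ) := by
    intro t
    induction t using Nat.strong_induction_on with
    | _ t ih =>
      intro ht
      by_cases htJ : t < t1 + J
      · rw [Finset.Ico_eq_empty (by omega), Finset.prod_empty, mul_one]
        exact hM t (Finset.mem_Ico.mpr ⟨ht, htJ⟩)
      · obtain ⟨i, rfl⟩ : ∃ i, t = i + J := ⟨t - J, by omega⟩
        have hi : t1 ≤ i := by omega
        have e1 : i + J + 1 - J = i + 1 := by omega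
        rw [e1, Finset.prod_Ico_succ_top hi]
        have h7 := hstep i hi
        have h8 : (1 : ℚ) ≤ |(((Q (Fin.last J)).eval (i : ℤ) : ℤ) : ℚ)| := by
          have h9 : 1 ≤ |(Q (Fin.last J)).eval (i : ℤ)| := Int.one_le_abs (hne i hi)
          exact_mod_cast h9
        have h10 : |h (i + J)| ≤ |(((Q (Fin.last J)).eval (i : ℤ) : ℤ) : ℚ) * h (i + J)| := by
          rw [abs_mul]
          nlinarith [abs_nonneg (h (i + J))]
        refine h10.trans ?_
        rw [h7, abs_neg]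
        refine (Finset.abs_sum_le_sum_abs _ _).trans ?_
        have h11 : ∀ j : Fin J, |(((Q j.castSucc).eval (i : ℤ) : ℤ) : ℚ) * h (i + j)|
            ≤ ((A * (i + 1) ^ d * (M * ∏ i ∈ Ico t1 i, U i) : ℕ) : ℚ) := by
          intro j
          rw [abs_mul, Nat.cast_mul]
          apply mul_le_mul
          · have h12 := hbd j.castSucc i
            have h13 : |(((Q j.castSucc).eval (i : ℤ) : ℤ) : ℚ)|
                = ((((Q j.castSucc).eval (i : ℤ)).natAbs : ℕ) : ℚ) := by
              rw [Nat.cast_natAbs, Int.cast_abs]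
            rw [h13]
            exact_mod_cast h12
          · refine (ih (i + j) (by omega) (by omega)).trans ?_
            have h14 := hprodmono (i + j + 1 - J) i (by omega)
            exact_mod_cast Nat.mul_le_mul_left M h14
          · exact abs_nonneg _
          · exact Nat.cast_nonneg _
        refine (Finset.sum_le_sum (fun j _ => h11 j)).trans ?_
        rw [Finset.sum_const, Finset.card_univ, Fintype.card_fin, nsmul_eq_mul]
        have h15 : J * (A * (i + 1) ^ d * (M * ∏ i ∈ Ico t1 i, U i))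
            ≤ M * ((∏ i ∈ Ico t1 i, U i) * U i) := by
          have h16 : J * (A * (i + 1) ^ d) ≤ U i := by
            rw [hU]
            simp only
            rw [← mul_assoc]
            apply Nat.mul_le_mul_right
            nlinarith
          calc J * (A * (i + 1) ^ d * (M * ∏ i ∈ Ico t1 i, U i))
              = (J * (A * (i + 1) ^ d)) * (M * ∏ i ∈ Ico t1 i, U i) := by ring
            _ ≤ U i * (M * ∏ i ∈ Ico t1 i, U i) := Nat.mul_le_mul_right _ h16
            _ = _ := by ring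
        exact_mod_cast h15
  have hprodU : ∀ t, ∏ i ∈ Ico t1 (t + 1 - J), U i ≤ (U t) ^ (t + 1) := by
    intro t
    have h1 : ∏ i ∈ Ico t1 (t + 1 - J), U i ≤ (U t) ^ (Ico t1 (t + 1 - J)).card := by
      apply Finset.prod_le_pow_card
      intro i hi
      have := (Finset.mem_Ico.mp hi).2
      exact hUmono i t (by omega)
    refine h1.trans (Nat.pow_le_pow_right (hU1 t) ?_)
    rw [Nat.card_Ico]
    omega
  have hGU : ∀ t, G (t + 1 - J) ≤ B * (U t) ^ (t + 1) := by
    intro t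
    rw [hG]
    apply Nat.mul_le_mul_left
    refine le_trans ?_ (hprodU t)
    exact Finset.prod_le_prod' (fun i _ => hwU i)
  have hUt : ∀ t, 2 ≤ t → (J + 1) * A ≤ t → (U t) ^ (t + 1) ≤ t ^ ((4 * d + 2) * t) := by
    intro t h2 hA
    have h3 : U t ≤ t ^ (2 * d + 1) := by
      rw [hU]
      simp only
      calc (J + 1) * A * (t + 1) ^ d ≤ t * (t ^ 2) ^ d := by
            apply Nat.mul_le_mul hA
            apply Nat.pow_le_pow_left
            nlinarith
        _ = t ^ (2 * d + 1) := by ring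
    calc (U t) ^ (t + 1) ≤ (t ^ (2 * d + 1)) ^ (t + 1) := Nat.pow_le_pow_left h3 _
      _ = t ^ ((2 * d + 1) * (t + 1)) := by rw [← pow_mul]
      _ ≤ t ^ ((4 * d + 2) * t) := by
          apply Nat.pow_le_pow_right (by omega)
          nlinarith
  have hself : ∀ n t : ℕ, 1 ≤ t → n ≤ t → n ≤ t ^ t := by
    intro n t h1 hn
    calc n ≤ t := hn
      _ = t ^ 1 := (pow_one t).symm
      _ ≤ t ^ t := Nat.pow_le_pow_right (by omega) h1
  refine ⟨(8 * d + 6) + (padicValNat 2 B + 2 * C0 + 1), ?_⟩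
  filter_upwards [eventually_ge_atTop (t1 + 2 + (J + 1) * A + B + M)] with t ht
  have ht2 : 2 ≤ t := by omega
  have htA : (J + 1) * A ≤ t := by omega
  obtain ⟨z, hz⟩ := hint t (by omega)
  have hUtt := hUt t ht2 htA
  have hpowmono : ∀ a b : ℕ, a ≤ b → t ^ (a * t) ≤ t ^ (b * t) := by
    intro a b hab
    exact Nat.pow_le_pow_right (by omega) (Nat.mul_le_mul_right t hab)
  have hGt : G (t + 1 - J) ≤ t ^ ((4 * d + 3) * t) := by
    calc G (t + 1 - J) ≤ B * (U t) ^ (t + 1) := hGU t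
      _ ≤ t ^ t * t ^ ((4 * d + 2) * t) := Nat.mul_le_mul (hself B t (by omega) (by omega)) hUtt
      _ = t ^ ((4 * d + 3) * t) := by rw [← pow_add]; congr 1; ring
  refine ⟨G (t + 1 - J), z, Nat.pos_of_ne_zero (hG0 _), ?_, ?_, hz, ?_⟩
  · exact hGt.trans (hpowmono _ _ (by omega))
  · have h1 : padicValNat 2 (G (t + 1 - J)) = padicValNat 2 B
        + ∑ i ∈ Ico t1 (t + 1 - J), padicValNat 2 (w i) := by
      rw [hG]
      simp only
      rw [padicValNat.mul hB0 (Finset.prod_ne_zero_iff.mpr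
        (fun i hi => hw0 i (Finset.mem_Ico.mp hi).1)),
        PRec_val_prod _ _ (fun i hi => hw0 i (Finset.mem_Ico.mp hi).1)]
    have h2 : ∑ i ∈ Ico t1 (t + 1 - J), padicValNat 2 (w i)
        ≤ ∑ i ∈ range (t + 1), padicValNat 2 (w i) := by
      apply Finset.sum_le_sum_of_subset
      intro i hi
      have := (Finset.mem_Ico.mp hi).2
      exact Finset.mem_range.mpr (by omega)
    have h3 : ∑ i ∈ range (t + 1), padicValNat 2 (w i) ≤ C0 * (t + 1 + 1) := by
      rw [hw]
      exact hC0 (t + 1)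
    rw [h1]
    have h4 : C0 * (t + 1 + 1) ≤ C0 * (2 * t) := Nat.mul_le_mul_left _ (by omega)
    have h5 : padicValNat 2 B ≤ padicValNat 2 B * t := Nat.le_mul_of_pos_right _ (by omega)
    nlinarith
  · have h1 : ((z.natAbs : ℕ) : ℚ) ≤ ((t ^ ((8 * d + 6) * t) : ℕ) : ℚ) := by
      rw [Nat.cast_natAbs, Int.cast_abs, ← hz, abs_mul, Nat.abs_cast]
      have h2 := hsize t (by omega)
      have h3 : M * ∏ i ∈ Ico t1 (t + 1 - J), U i ≤ t ^ ((4 * d + 3) * t) := by
        calc M * ∏ i ∈ Ico t1 (t + 1 - J), U i ≤ t ^ t * t ^ ((4 * d + 2) * t) :=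
              Nat.mul_le_mul (hself M t (by omega) (by omega)) ((hprodU t).trans hUtt)
          _ = t ^ ((4 * d + 3) * t) := by rw [← pow_add]; congr 1; ring
      calc ((G (t + 1 - J) : ℕ) : ℚ) * |h t|
          ≤ ((t ^ ((4 * d + 3) * t) : ℕ) : ℚ) * ((t ^ ((4 * d + 3) * t) : ℕ) : ℚ) := by
            apply mul_le_mul
            · exact_mod_cast hGt
            · exact h2.trans (by exact_mod_cast h3)
            · exact abs_nonneg _
            · exact Nat.cast_nonneg _
        _ = ((t ^ ((8 * d + 6) * t) : ℕ) : ℚ) := by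
            rw [← Nat.cast_mul, ← pow_add]
            congr 2
            ring
    have h2 : z.natAbs ≤ t ^ ((8 * d + 6) * t) := by exact_mod_cast h1
    exact h2.trans (hpowmono _ _ (by omega))

end Pool.Agent.MP_c3d1b0N
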