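import Pool.Agent.Lib.MP_c3d1b0_coN.Defs

set_option autoImplicit false

/-!
# JOB PolyVal: the 2-adic valuations of the values of a polynomial are bounded on average (about 90 lines)

`P ≠ 0` in `ℤ[x]`, degree `d`, leading coefficient `c`.  Claim: `∑_{t < n} v_2(P(t)) ≤ C (n + 1)` (with `v_2(0) = 0`).

(1) LEMMA.  Let `t_0 < t_1 < ... < t_d` be `d + 1` integers with `2^k ∣ P(t_i)` for all `i`.  Then `2^k ∣ c * ∏_{i<j} (t_j - t_i)`.
Proof: Lagrange interpolation: `c = ∑_i P(t_i) / ∏_{j ≠ i} (t_i - t_j)`, multiply with the Vandermonde product: `c V = ∑_i P(t_i) (V / ∏_{j≠i} (t_i - t_j))` with integers `V / ∏ ...`.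
(Alternative without Lagrange: induction on the degree.  For all `P` of degree `≤ d` and `d + 1` distinct points with `2^k ∣ P(t_i)`: write `P(x) - P(t_0) = (x - t_0) Q(x)`, `Q` integral of degree `≤ d - 1`
with the same leading coefficient; then `2^k ∣ (t_i - t_0) Q(t_i)`, so `2^k ∣ V_0 Q(t_i)` for all `i ≥ 1` with `V_0 = ∏_{i ≥ 1} (t_i - t_0)`; apply the induction to `V_0 Q`.
The result is `2^k ∣ c W` with a product `W ≠ 0` of a number `N_d` (depending on `d` only) of differences `t_j - t_i`; this is all that is needed.)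
(2) So if all `t_i` are in an interval of length `ℓ`, then `2^k ≤ |c| ℓ ^ N` with `N = N_d`; hence each interval `[x, x + ℓ)` with `|c| ℓ^N < 2^k` contains at most `d` solutions `t` of `2^k ∣ P(t)`, `P(t) ≠ 0` or not.
With `ℓ_k = ` the largest natural number with `|c| ℓ_k^N < 2^k` (`ℓ_k ≥ 2^(k/N) / (2|c|)`, say, for `k ≥ k_0`), the number `N_k` of `t < n` with `2^k ∣ P(t)` is at most `d (n / ℓ_k + 1)` for `k ≥ k_0` and at most `n` for all `k`.
(3) `v_2(m) = ∑_{k ≥ 1} [2^k ∣ m]` for `m ≠ 0`, and `2^k ∣ P(t) ≠ 0` implies `2^k ≤ |P(t)| ≤ A (n+1)^d`, `k ≤ K := C' (1 + log_2 (n+1))`.  So the sum is at most `k_0 n + ∑_{k ≤ K} d (n / ℓ_k + 1) ≤ k_0 n + C'' n + d K ≤ C (n + 1)`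
(`∑_k 2^(-k/N)` converges; `K ≤ C (n+1)`).
A cheaper bookkeeping is allowed: e.g. group the `k` in blocks of length `N`: `N_k ≤ N_{N j}` for `N j ≤ k`, and `ℓ_{N j} ≥ 2^j / C`.
-/

namespace Pool.Agent.MP_c3d1b0N

open Finset

private theorem PolyVal_norm_ge (z : ℤ) (hz : z ≠ 0) : 1 / |(z : ℚ)| ≤ padicNorm 2 (z : ℚ) := by
  have h1 : (2 : ℤ) ^ padicValInt 2 z ∣ z := by exact_mod_cast padicValInt_dvd z
  have h2 : (2 : ℤ) ^ padicValInt 2 z ≤ |z| :=
    Int.le_of_dvd (abs_pos.mpr hz) ((dvd_abs _ _).mpr h1)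
  have h3 : (2 : ℚ) ^ padicValInt 2 z ≤ |(z : ℚ)| := by exact_mod_cast h2
  rw [padicNorm.eq_zpow_of_nonzero (by exact_mod_cast hz), padicValRat.of_int, zpow_neg,
    zpow_natCast, one_div]
  exact inv_anti₀ (by positivity) (by exact_mod_cast h3)

private theorem PolyVal_key (P : Polynomial ℤ) (hP : P ≠ 0) (S : Finset ℕ) (l : ℕ)
    (hl : ∀ s ∈ S, ∀ t ∈ S, |(s : ℤ) - t| ≤ l) (hS : S.card = P.natDegree + 1) (k : ℕ)
    (hk : ∀ t ∈ S, (2 : ℤ) ^ k ∣ P.eval (t : ℤ)) :
    (2 : ℤ) ^ k ≤ |P.leadingCoeff| * (l : ℤ) ^ P.natDegree := by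
  have hinj : Function.Injective (Int.castRingHom ℚ) := Int.cast_injective
  have hRd : (P.map (Int.castRingHom ℚ)).degree = (P.natDegree : WithBot ℕ) := by
    rw [Polynomial.degree_map_eq_of_injective hinj, Polynomial.degree_eq_natDegree hP]
  have hv : Set.InjOn (fun i : ℕ => (i : ℚ)) S := by
    intro a _ b _ h
    simpa using h
  have hlead := Lagrange.leadingCoeff_eq_sum hv (P := P.map (Int.castRingHom ℚ)) (by
    rw [hRd, hS]; norm_cast)
  have hlc : (P.map (Int.castRingHom ℚ)).leadingCoeff = ((P.leadingCoeff : ℤ) : ℚ) := by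
    rw [Polynomial.leadingCoeff_map_of_injective hinj]
    simp
  rw [hlc] at hlead
  have hc0 : P.leadingCoeff ≠ 0 := Polynomial.leadingCoeff_ne_zero.mpr hP
  have h1 := PolyVal_norm_ge P.leadingCoeff hc0
  have h2 : padicNorm 2 ((P.leadingCoeff : ℤ) : ℚ) ≤ ((2 : ℚ) ^ k)⁻¹ * (l : ℚ) ^ P.natDegree := by
    rw [hlead]
    apply padicNorm.sum_le' _ (by positivity)
    intro i hi
    rw [padicNorm.div]
    have e1 : Polynomial.eval ((fun i : ℕ => (i : ℚ)) i) (P.map (Int.castRingHom ℚ))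
        = ((P.eval (i : ℤ) : ℤ) : ℚ) := by
      have := Polynomial.eval_intCast_map (Int.castRingHom ℚ) P (i : ℤ)
      simpa using this
    have e2 : padicNorm 2 (Polynomial.eval ((fun i : ℕ => (i : ℚ)) i)
        (P.map (Int.castRingHom ℚ))) ≤ ((2 : ℚ) ^ k)⁻¹ := by
      rw [e1]
      have := (padicNorm.dvd_iff_norm_le (p := 2) (n := k) (z := P.eval (i : ℤ))).mp
        (by exact_mod_cast hk i hi)
      simpa using this
    have e3 : ∏ j ∈ S.erase i, ((fun i : ℕ => (i : ℚ)) i - (fun i : ℕ => (i : ℚ)) j)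
        = ((∏ j ∈ S.erase i, ((i : ℤ) - j) : ℤ) : ℚ) := by
      push_cast
      rfl
    have hD0 : (∏ j ∈ S.erase i, ((i : ℤ) - j) : ℤ) ≠ 0 := by
      rw [Finset.prod_ne_zero_iff]
      intro j hj h
      have : (i : ℤ) = j := by linarith
      exact (Finset.ne_of_mem_erase hj) (by exact_mod_cast this.symm)
    have hD1 : |(∏ j ∈ S.erase i, ((i : ℤ) - j) : ℤ)| ≤ (l : ℤ) ^ P.natDegree := by
      rw [Finset.abs_prod]
      have hc : (S.erase i).card = P.natDegree := by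
        rw [Finset.card_erase_of_mem hi, hS]; rfl
      rw [← hc]
      refine (Finset.prod_le_prod (fun j _ => abs_nonneg _)
        (fun j hj => hl i hi j (Finset.mem_of_mem_erase hj))).trans ?_
      rw [Finset.prod_const]
    have e4 := PolyVal_norm_ge _ hD0
    rw [← e3] at e4
    have hDpos : (0 : ℚ) < |((∏ j ∈ S.erase i, ((i : ℤ) - j) : ℤ) : ℚ)| :=
      abs_pos.mpr (by exact_mod_cast hD0)
    have hD2 : |((∏ j ∈ S.erase i, ((i : ℤ) - j) : ℤ) : ℚ)| ≤ (l : ℚ) ^ P.natDegree := by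
      exact_mod_cast hD1
    have hposn : 0 < padicNorm 2 (∏ j ∈ S.erase i,
        ((fun i : ℕ => (i : ℚ)) i - (fun i : ℕ => (i : ℚ)) j)) :=
      lt_of_lt_of_le (by rw [e3]; positivity) e4
    rw [div_le_iff₀ hposn]
    refine e2.trans ?_
    have hk0 : (0 : ℚ) ≤ ((2 : ℚ) ^ k)⁻¹ := by positivity
    have h5 : (1 : ℚ) ≤ (l : ℚ) ^ P.natDegree * padicNorm 2 (∏ j ∈ S.erase i,
        ((fun i : ℕ => (i : ℚ)) i - (fun i : ℕ => (i : ℚ)) j)) := by
      rw [e3] at e4 ⊢
      calc (1 : ℚ) = |((∏ j ∈ S.erase i, ((i : ℤ) - j) : ℤ) : ℚ)|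
            * (1 / |((∏ j ∈ S.erase i, ((i : ℤ) - j) : ℤ) : ℚ)|) := by
            rw [mul_one_div_cancel hDpos.ne']
        _ ≤ _ := mul_le_mul hD2 e4 (by positivity) (by positivity)
    calc ((2 : ℚ) ^ k)⁻¹ = ((2 : ℚ) ^ k)⁻¹ * 1 := by ring
      _ ≤ ((2 : ℚ) ^ k)⁻¹ * ((l : ℚ) ^ P.natDegree * padicNorm 2 (∏ j ∈ S.erase i,
        ((fun i : ℕ => (i : ℚ)) i - (fun i : ℕ => (i : ℚ)) j))) :=
          mul_le_mul_of_nonneg_left h5 hk0
      _ = _ := by ring
  have h3 := h1.trans h2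
  have hcpos : (0 : ℚ) < |((P.leadingCoeff : ℤ) : ℚ)| := abs_pos.mpr (by exact_mod_cast hc0)
  have h2k : (0 : ℚ) < (2 : ℚ) ^ k := by positivity
  rw [div_le_iff₀ hcpos] at h3
  have h4 : (2 : ℚ) ^ k ≤ |((P.leadingCoeff : ℤ) : ℚ)| * (l : ℚ) ^ P.natDegree := by
    have h5 := mul_le_mul_of_nonneg_left h3 h2k.le
    calc (2 : ℚ) ^ k = 2 ^ k * 1 := by ring
      _ ≤ 2 ^ k * (((2 : ℚ) ^ k)⁻¹ * (l : ℚ) ^ P.natDegree * |((P.leadingCoeff : ℤ) : ℚ)|) := h5
      _ = (2 ^ k * ((2 : ℚ) ^ k)⁻¹) * (|((P.leadingCoeff : ℤ) : ℚ)| * (l : ℚ) ^ P.natDegree) := by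
          ring
      _ = _ := by rw [mul_inv_cancel₀ h2k.ne', one_mul]
  exact_mod_cast h4

private theorem PolyVal_dvd (P : Polynomial ℤ) (t m : ℕ) (h : m ≤ padicValInt 2 (P.eval (t : ℤ))) :
    (2 : ℤ) ^ m ∣ P.eval (t : ℤ) :=
  (pow_dvd_pow _ h).trans (by exact_mod_cast padicValInt_dvd (p := 2) (P.eval (t : ℤ)))

private theorem PolyVal_count (P : Polynomial ℤ) (hP : P ≠ 0) (n j : ℕ) :
    ((range n).filter (fun t : ℕ => P.leadingCoeff.natAbs + (P.natDegree + 1) * j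
        ≤ padicValInt 2 (P.eval (t : ℤ)))).card ≤ P.natDegree * (n / 2 ^ j + 1) := by
  classical
  have himg : (((range n).filter (fun t : ℕ => P.leadingCoeff.natAbs + (P.natDegree + 1) * j
        ≤ padicValInt 2 (P.eval (t : ℤ)))).image (fun t => t / 2 ^ j)).card ≤ n / 2 ^ j + 1 := by
    have : (((range n).filter (fun t : ℕ => P.leadingCoeff.natAbs + (P.natDegree + 1) * j
        ≤ padicValInt 2 (P.eval (t : ℤ)))).image (fun t => t / 2 ^ j)) ⊆ range (n / 2 ^ j + 1) := by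
      intro b hb
      rw [Finset.mem_image] at hb
      obtain ⟨t, ht, rfl⟩ := hb
      rw [Finset.mem_filter, Finset.mem_range] at ht
      rw [Finset.mem_range]
      have := Nat.div_le_div_right (c := 2 ^ j) ht.1.le
      omega
    simpa using Finset.card_le_card this
  refine (Finset.card_le_mul_card_image (f := fun t => t / 2 ^ j) _ P.natDegree ?_).trans
    (Nat.mul_le_mul_left _ himg)
  intro b _
  by_contra hcon
  push Not at hcon
  obtain ⟨S, hSsub, hScard⟩ := Finset.exists_subset_card_eq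
    (Nat.succ_le_of_lt hcon)
  have hkey := PolyVal_key P hP S (2 ^ j) (by
    intro s hs t ht
    have hs' := hSsub hs
    have ht' := hSsub ht
    simp only [Finset.mem_filter, Finset.mem_range] at hs' ht'
    have h2 : 0 < 2 ^ j := by positivity
    have a1 := Nat.div_add_mod s (2 ^ j)
    have a2 := Nat.div_add_mod t (2 ^ j)
    have a3 := Nat.mod_lt s h2
    have a4 := Nat.mod_lt t h2
    rw [hs'.2] at a1
    rw [ht'.2] at a2
    rw [abs_le]
    generalize s % 2 ^ j = r at a1 a3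
    generalize t % 2 ^ j = r' at a2 a4
    generalize 2 ^ j * b = w at a1 a2
    generalize 2 ^ j = L at a3 a4
    omega) hScard
    (P.leadingCoeff.natAbs + (P.natDegree + 1) * j) (by
    intro t ht
    have ht' := hSsub ht
    simp only [Finset.mem_filter, Finset.mem_range] at ht'
    exact PolyVal_dvd P t _ ht'.1.2)
  have h1 : |P.leadingCoeff| < (2 : ℤ) ^ P.leadingCoeff.natAbs := by
    rw [Int.abs_eq_natAbs]
    exact_mod_cast Nat.lt_two_pow_self
  have h2 : (((2 ^ j : ℕ) : ℤ)) ^ P.natDegree ≤ (2 : ℤ) ^ ((P.natDegree + 1) * j) := by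
    push_cast
    rw [← pow_mul]
    apply pow_le_pow_right₀ (by norm_num)
    nlinarith
  have h3 : (0 : ℤ) < (((2 ^ j : ℕ) : ℤ)) ^ P.natDegree := by positivity
  have h4 : (2 : ℤ) ^ (P.leadingCoeff.natAbs + (P.natDegree + 1) * j)
      < 2 ^ (P.leadingCoeff.natAbs + (P.natDegree + 1) * j) := by
    calc (2 : ℤ) ^ (P.leadingCoeff.natAbs + (P.natDegree + 1) * j)
        ≤ |P.leadingCoeff| * (((2 ^ j : ℕ) : ℤ)) ^ P.natDegree := hkey
      _ < (2 : ℤ) ^ P.leadingCoeff.natAbs * (((2 ^ j : ℕ) : ℤ)) ^ P.natDegree :=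
          mul_lt_mul_of_pos_right h1 h3
      _ ≤ (2 : ℤ) ^ P.leadingCoeff.natAbs * (2 : ℤ) ^ ((P.natDegree + 1) * j) :=
          mul_le_mul_of_nonneg_left h2 (by positivity)
      _ = _ := by rw [pow_add]
  exact lt_irrefl _ h4

private theorem PolyVal_max (P : Polynomial ℤ) (t : ℕ) :
    padicValInt 2 (P.eval (t : ℤ))
      ≤ (∑ i ∈ range (P.natDegree + 1), |P.coeff i|).toNat + P.natDegree * t := by
  rcases eq_or_ne (P.eval (t : ℤ)) 0 with h0 | h0
  · rw [h0]; simp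
  have h1 : (2 : ℤ) ^ padicValInt 2 (P.eval (t : ℤ)) ≤ |P.eval (t : ℤ)| :=
    Int.le_of_dvd (abs_pos.mpr h0) ((dvd_abs _ _).mpr (PolyVal_dvd P t _ le_rfl))
  obtain ⟨B, hB⟩ : ∃ B : ℕ, (B : ℤ) = ∑ i ∈ range (P.natDegree + 1), |P.coeff i| :=
    ⟨(∑ i ∈ range (P.natDegree + 1), |P.coeff i|).toNat,
      Int.toNat_of_nonneg (Finset.sum_nonneg fun i _ => abs_nonneg _)⟩
  rw [← hB, Int.toNat_natCast]
  have h2 : |P.eval (t : ℤ)| ≤ (B : ℤ) * ((2 : ℤ) ^ t) ^ P.natDegree := by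
    rw [Polynomial.eval_eq_sum_range, hB, Finset.sum_mul]
    refine (Finset.abs_sum_le_sum_abs _ _).trans (Finset.sum_le_sum fun i hi => ?_)
    rw [abs_mul, abs_pow]
    apply mul_le_mul_of_nonneg_left _ (abs_nonneg _)
    have hi' : i ≤ P.natDegree := by
      rw [Finset.mem_range] at hi; omega
    have ht : |(t : ℤ)| ≤ (2 : ℤ) ^ t := by
      rw [abs_of_nonneg (Int.natCast_nonneg t)]
      exact_mod_cast Nat.lt_two_pow_self.le
    calc |(t : ℤ)| ^ i ≤ ((2 : ℤ) ^ t) ^ i := pow_le_pow_left₀ (abs_nonneg _) ht i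
      _ ≤ _ := pow_le_pow_right₀ (one_le_pow₀ (by norm_num)) hi'
  have h3 : (B : ℤ) < 2 ^ B := by exact_mod_cast Nat.lt_two_pow_self
  have h4 : (2 : ℤ) ^ padicValInt 2 (P.eval (t : ℤ)) < 2 ^ (B + P.natDegree * t) := by
    calc _ ≤ (B : ℤ) * ((2 : ℤ) ^ t) ^ P.natDegree := h1.trans h2
      _ < 2 ^ B * ((2 : ℤ) ^ t) ^ P.natDegree := mul_lt_mul_of_pos_right h3 (by positivity)
      _ = _ := by rw [← pow_mul, ← pow_add, mul_comm t]
  exact ((pow_lt_pow_iff_right₀ (by norm_num)).mp h4).le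

private theorem PolyVal_levels (v A N J : ℕ) (hN : 0 < N) (hJ : v < J) :
    v ≤ A + N * ((range J).filter (fun j => A + N * j ≤ v)).card := by
  rcases Nat.lt_or_ge v A with h | h
  · omega
  have hsub : range ((v - A) / N + 1) ⊆ (range J).filter (fun j => A + N * j ≤ v) := by
    intro j hj
    rw [Finset.mem_range] at hj
    have h1 : j ≤ (v - A) / N := by omega
    have h2 : j * N ≤ v - A := (Nat.le_div_iff_mul_le hN).mp h1
    rw [Finset.mem_filter, Finset.mem_range]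
    constructor
    · have : j ≤ j * N := Nat.le_mul_of_pos_right _ hN
      omega
    · rw [mul_comm N j]
      omega
  have h1 := Finset.card_le_card hsub
  rw [Finset.card_range] at h1
  have h2 := Nat.mul_le_mul_left N h1
  have h3 : v - A < N * ((v - A) / N + 1) := Nat.lt_mul_div_succ _ hN
  omega

theorem poly_val_sum (P : Polynomial ℤ) (hP : P ≠ 0) :
    ∃ C : ℕ, ∀ n : ℕ, ∑ t ∈ range n, padicValInt 2 (P.eval (t : ℤ)) ≤ C * (n + 1) := by
  obtain ⟨B, hB⟩ : ∃ B : ℕ, B = (∑ i ∈ range (P.natDegree + 1), |P.coeff i|).toNat := ⟨_, rfl⟩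
  obtain ⟨A, hA⟩ : ∃ A : ℕ, A = P.leadingCoeff.natAbs := ⟨_, rfl⟩
  refine ⟨A + (P.natDegree + 1) * (P.natDegree * (2 + (B + P.natDegree + 1))), fun n => ?_⟩
  have h1 : ∀ t ∈ range n, padicValInt 2 (P.eval (t : ℤ))
      ≤ A + (P.natDegree + 1) * ((range (B + P.natDegree * n + 1)).filter
        (fun j => A + (P.natDegree + 1) * j ≤ padicValInt 2 (P.eval (t : ℤ)))).card := by
    intro t ht
    apply PolyVal_levels _ _ _ _ (Nat.succ_pos _)
    have h2 := PolyVal_max P t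
    rw [← hB] at h2
    rw [Finset.mem_range] at ht
    have h3 := Nat.mul_le_mul_left P.natDegree ht.le
    omega
  refine (Finset.sum_le_sum h1).trans ?_
  rw [Finset.sum_add_distrib, ← Finset.mul_sum]
  have h2 : ∑ t ∈ range n, ((range (B + P.natDegree * n + 1)).filter
        (fun j => A + (P.natDegree + 1) * j ≤ padicValInt 2 (P.eval (t : ℤ)))).card
      = ∑ j ∈ range (B + P.natDegree * n + 1), ((range n).filter
        (fun t : ℕ => A + (P.natDegree + 1) * j ≤ padicValInt 2 (P.eval (t : ℤ)))).card := by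
    simp only [Finset.card_filter]
    exact Finset.sum_comm
  rw [h2]
  have h3 : ∑ j ∈ range (B + P.natDegree * n + 1), ((range n).filter
        (fun t : ℕ => A + (P.natDegree + 1) * j ≤ padicValInt 2 (P.eval (t : ℤ)))).card
      ≤ P.natDegree * (2 * n + (B + P.natDegree * n + 1)) := by
    calc _ ≤ ∑ j ∈ range (B + P.natDegree * n + 1), P.natDegree * (n / 2 ^ j + 1) := by
          apply Finset.sum_le_sum
          intro j _
          rw [hA]
          exact PolyVal_count P hP n j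
      _ = P.natDegree * (∑ j ∈ range (B + P.natDegree * n + 1), n / 2 ^ j
            + (B + P.natDegree * n + 1)) := by
          rw [← Finset.mul_sum, Finset.sum_add_distrib]
          simp
      _ ≤ _ := by
          apply Nat.mul_le_mul_left
          have := Nat.geom_sum_le (b := 2) le_rfl n (B + P.natDegree * n + 1)
          omega
  have h4 : ∑ _t ∈ range n, A = A * n := by simp [mul_comm]
  rw [h4]
  have h5 : 2 * n + (B + P.natDegree * n + 1) ≤ (2 + (B + P.natDegree + 1)) * (n + 1) := by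
    nlinarith [Nat.zero_le (B * n), Nat.zero_le (P.natDegree * n)]
  calc _ ≤ A * n + (P.natDegree + 1) * (P.natDegree * ((2 + (B + P.natDegree + 1)) * (n + 1))) := by
        apply Nat.add_le_add_left
        apply Nat.mul_le_mul_left
        exact h3.trans (Nat.mul_le_mul_left _ h5)
    _ ≤ _ := by
        nlinarith

end Pool.Agent.MP_c3d1b0N
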