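import Pool.Agent.Lib.MP_c3d1b0_coN.Defs

set_option autoImplicit false

/-!
# JOB Primes: many primes in short intervals, for some large `y` (about 60 lines)

Suppose not: there are `δ > 0`, `N`, `y_0 ≥ 1` such that for all `y ≥ y_0` there are fewer than `N` primes in `(y, (1 + δ) y]`.  Choose `y_0` with `δ y_0 ≥ 4` too.  Define `y_{k+1} = ⌊(1 + δ) y_k⌋` (natural numbers), so `y_{k+1} ≥ (1 + δ/2) y_k`
(because `δ y_k / 2 ≥ 1`), `y_k ≥ (1 + δ/2)^k`.  The primes `p > y_0` are in the union of the intervals `(y_k, y_{k+1}]`, and the sum of `1/p` over each is at most `N / y_k ≤ N (1 + δ/2)^(-k)`; so `∑ 1/p` converges, in contradiction to Mathlib's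
`Nat.Primes.not_summable_one_div` (or `not_summable_one_div_on_primes : ¬ Summable (indicator {p | p.Prime} (fun n : ℕ ↦ (1 : ℝ) / n))`).
(Summability: bound all finite sums `∑_{n < y_K} indicator` by `∑_{n ≤ y_0} + ∑_k N (1+δ/2)^(-k)`, `summable_of_sum_range_le`.)
-/

namespace Pool.Agent.MP_c3d1b0N

open Finset Filter

private noncomputable def PrimesY (δ : ℝ) (s : ℕ) : ℕ → ℕ
  | 0 => s
  | k + 1 => ⌊(1 + δ) * (PrimesY δ s k : ℝ)⌋₊

private lemma Primes_growth (δ : ℝ) (hδ : 0 < δ) (s : ℕ) (hs : 4 / δ ≤ (s : ℝ)) (k : ℕ) :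
    s ≤ PrimesY δ s k ∧ (1 + δ / 2) * (PrimesY δ s k : ℝ) ≤ (PrimesY δ s (k + 1) : ℝ) := by
  have key : ∀ y : ℕ, s ≤ y → (1 + δ / 2) * (y : ℝ) ≤ ((⌊(1 + δ) * (y : ℝ)⌋₊ : ℕ) : ℝ) := by
    intro y hy
    have h1 : (s : ℝ) ≤ (y : ℝ) := by exact_mod_cast hy
    have h2 : 4 ≤ δ * (y : ℝ) := by
      have h3 : 4 / δ ≤ (y : ℝ) := le_trans hs h1
      rw [div_le_iff₀ hδ] at h3
      linarith
    have h4 : (1 + δ) * (y : ℝ) - 1 < ((⌊(1 + δ) * (y : ℝ)⌋₊ : ℕ) : ℝ) := Nat.sub_one_lt_floor _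
    nlinarith
  induction k with
  | zero => exact ⟨le_refl _, key s (le_refl _)⟩
  | succ k ih =>
    have h1 : s ≤ PrimesY δ s (k + 1) := by
      have h2 : (PrimesY δ s k : ℝ) ≤ (PrimesY δ s (k + 1) : ℝ) := by
        have h3 : (0 : ℝ) ≤ (PrimesY δ s k : ℝ) := Nat.cast_nonneg _
        nlinarith [ih.2]
      have h4 : PrimesY δ s k ≤ PrimesY δ s (k + 1) := by exact_mod_cast h2
      exact le_trans ih.1 h4
    exact ⟨h1, key _ h1⟩

private lemma Primes_pow (δ : ℝ) (hδ : 0 < δ) (s : ℕ) (hs : 4 / δ ≤ (s : ℝ)) (hs1 : 1 ≤ s) (k : ℕ) :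
    (1 + δ / 2) ^ k ≤ (PrimesY δ s k : ℝ) := by
  induction k with
  | zero => simpa [PrimesY] using hs1
  | succ k ih =>
    have h1 := (Primes_growth δ hδ s hs k).2
    rw [pow_succ]
    nlinarith [hδ]

theorem many_primes (δ : ℝ) (hδ : 0 < δ) (N y₀ : ℕ) :
    ∃ y : ℕ, y₀ ≤ y ∧ N ≤ ((range (⌊(1 + δ) * y⌋₊ + 1)).filter (fun p => p.Prime ∧ y < p)).card := by
  by_contra hcon
  push Not at hcon
  obtain ⟨m, hm⟩ := exists_nat_ge (4 / δ)
  set s : ℕ := max y₀ (m + 1) with hsdef
  have hs0 : y₀ ≤ s := le_max_left _ _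
  have hs1 : 1 ≤ s := le_trans (Nat.le_add_left 1 m) (le_max_right _ _)
  have hs : 4 / δ ≤ (s : ℝ) := by
    have h1 : m ≤ s := le_trans (Nat.le_succ m) (le_max_right _ _)
    have h2 : (m : ℝ) ≤ (s : ℝ) := by exact_mod_cast h1
    linarith
  set f : ℕ → ℝ := Set.indicator {p : ℕ | p.Prime} (fun n : ℕ => (1 : ℝ) / n) with hf
  have hf0 : ∀ n, 0 ≤ f n := by
    intro n
    exact Set.indicator_nonneg (fun n _ => by positivity) n
  set r : ℝ := (1 + δ / 2)⁻¹ with hr
  have hr0 : 0 ≤ r := by positivity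
  have hr1 : r < 1 := by
    rw [hr]
    exact inv_lt_one_of_one_lt₀ (by linarith)
  have hstep : ∀ k, ∑ n ∈ range (PrimesY δ s (k + 1) + 1), f n ≤
      ∑ n ∈ range (PrimesY δ s k + 1), f n + N * r ^ k := by
    intro k
    have hg := Primes_growth δ hδ s hs k
    have hYk : s ≤ PrimesY δ s k := hg.1
    have hYpos : (0 : ℝ) < (PrimesY δ s k : ℝ) := by
      have : 0 < PrimesY δ s k := lt_of_lt_of_le hs1 hYk
      exact_mod_cast this
    have hmono : PrimesY δ s k ≤ PrimesY δ s (k + 1) := by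
      have : (PrimesY δ s k : ℝ) ≤ (PrimesY δ s (k + 1) : ℝ) := by nlinarith [hg.2]
      exact_mod_cast this
    have hsub : range (PrimesY δ s k + 1) ⊆ range (PrimesY δ s (k + 1) + 1) :=
      range_subset_range.2 (by omega)
    rw [← Finset.sum_sdiff hsub, add_comm]
    have hle : ∑ n ∈ range (PrimesY δ s (k + 1) + 1) \ range (PrimesY δ s k + 1), f n ≤ N * r ^ k := by
      set T := (range (⌊(1 + δ) * (PrimesY δ s k : ℝ)⌋₊ + 1)).filter
        (fun p => p.Prime ∧ PrimesY δ s k < p) with hT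
      have hcard : T.card < N := hcon _ (le_trans hs0 hYk)
      have h1 : ∑ n ∈ range (PrimesY δ s (k + 1) + 1) \ range (PrimesY δ s k + 1), f n =
          ∑ n ∈ T, f n := by
        symm
        apply Finset.sum_subset
        · intro n hn
          rw [hT, mem_filter, mem_range] at hn
          rw [Finset.mem_sdiff, mem_range, mem_range]
          refine ⟨hn.1, by have := hn.2.2; omega⟩
        · intro n hn hn2
          rw [Finset.mem_sdiff, mem_range, mem_range] at hn
          have hnp : ¬ n.Prime := by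
            intro hp
            apply hn2
            rw [hT, mem_filter, mem_range]
            exact ⟨hn.1, hp, by have := hn.2; omega⟩
          rw [hf]
          exact Set.indicator_of_notMem (by simpa using hnp) _
      rw [h1]
      have h2 : ∀ n ∈ T, f n ≤ r ^ k := by
        intro n hn
        rw [hT, mem_filter, mem_range] at hn
        have hp : n ∈ {p : ℕ | p.Prime} := hn.2.1
        rw [hf, Set.indicator_of_mem hp]
        have h3 : (PrimesY δ s k : ℝ) ≤ (n : ℝ) := by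
          have := hn.2.2
          exact_mod_cast this.le
        have h4 := Primes_pow δ hδ s hs hs1 k
        rw [hr, inv_pow, one_div]
        apply inv_anti₀ (by positivity)
        linarith
      calc ∑ n ∈ T, f n ≤ T.card • (r ^ k) := Finset.sum_le_card_nsmul _ _ _ h2
        _ = (T.card : ℝ) * r ^ k := by rw [nsmul_eq_mul]
        _ ≤ N * r ^ k := by
            apply mul_le_mul_of_nonneg_right _ (by positivity)
            exact_mod_cast hcard.le
    linarith
  have hbound : ∀ K, ∑ n ∈ range (PrimesY δ s K + 1), f n ≤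
      ∑ n ∈ range (s + 1), f n + N * ∑ k ∈ range K, r ^ k := by
    intro K
    induction K with
    | zero => simp [PrimesY]
    | succ K ih =>
      have := hstep K
      rw [Finset.sum_range_succ (fun k => r ^ k), mul_add]
      linarith
  have hgeom : ∀ K, ∑ k ∈ range K, r ^ k ≤ (1 - r)⁻¹ := by
    intro K
    have h1 : Summable (fun k : ℕ => r ^ k) := summable_geometric_of_lt_one hr0 hr1
    rw [← tsum_geometric_of_lt_one hr0 hr1]
    exact h1.sum_le_tsum _ (fun i _ => by positivity)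
  apply not_summable_one_div_on_primes
  apply summable_of_sum_range_le (c := ∑ n ∈ range (s + 1), f n + N * (1 - r)⁻¹) hf0
  intro n
  obtain ⟨K, hK⟩ : ∃ K, n ≤ PrimesY δ s K + 1 := by
    obtain ⟨K, hK⟩ := pow_unbounded_of_one_lt (n : ℝ) (show (1 : ℝ) < 1 + δ / 2 by linarith)
    refine ⟨K, ?_⟩
    have h1 := Primes_pow δ hδ s hs hs1 K
    have h2 : (n : ℝ) ≤ (PrimesY δ s K : ℝ) := by linarith
    have h3 : n ≤ PrimesY δ s K := by exact_mod_cast h2
    omega
  calc ∑ i ∈ range n, f i ≤ ∑ i ∈ range (PrimesY δ s K + 1), f i :=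
        Finset.sum_le_sum_of_subset_of_nonneg (range_subset_range.2 hK) (fun i _ _ => hf0 i)
    _ ≤ ∑ n ∈ range (s + 1), f n + N * ∑ k ∈ range K, r ^ k := hbound K
    _ ≤ _ := by
        have := hgeom K
        have h0 : (0 : ℝ) ≤ N := Nat.cast_nonneg _
        have := mul_le_mul_of_nonneg_left this h0
        linarith

end Pool.Agent.MP_c3d1b0N
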