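import Pool.Agent.Lib.MP_c3d1b0_coN.Defs

set_option autoImplicit false

/-!
# JOB TwoVal: 2-adic valuation of the representation (about 90 lines)

For large `t` (so large that `a_i t + b_i ≥ 0`, `E t ≠ 0`, `t ≥ 2`): `q ≠ 0`, `h t ≠ 0` and
`v_2(E t) = v_2(q) t(t-1)/2 + ∑ (c_i t + d_i) v_2(m_i!) + v_2(h t)`, `m_i = a_i t + b_i`, with `padicValRat` (`padicValRat.mul`, `padicValRat.pow`, `padicValRat.zpow`, `padicValRat.prod`? else `Finset.induction`).
`v_2(m!) = m - sg m` (Mathlib: `sub_one_mul_padicValNat_factorial : (p - 1) * padicValNat p n ! = n - (p.digits n).sum`, with `(p.digits n).sum ≤ n`).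
So the middle sum is `t^2 ∑ a_i c_i + t ∑ (b_i c_i + a_i d_i) + ∑ b_i d_i - t ∑ c_i sg m_i - ∑ d_i sg m_i`; the first term is `0`, and `0 ≤ sg m_i ≤ m_i ≤ (a_i + |b_i|) t`, so the last is `O(t)`.
(`sg m_i ≤ m_i` is enough for the last term.)
-/

namespace Pool.Agent.MP_c3d1b0N

open Finset Filter

private theorem TwoVal_prod {ι : Type} (s : Finset ι) (f : ι → ℚ) (hf : ∀ i ∈ s, f i ≠ 0) :
    padicValRat 2 (∏ i ∈ s, f i) = ∑ i ∈ s, padicValRat 2 (f i) := by
  classical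
  induction s using Finset.induction_on with
  | empty => simp
  | insert i s hi ih =>
    have h1 : ∏ j ∈ s, f j ≠ 0 :=
      Finset.prod_ne_zero_iff.2 fun j hj => hf j (mem_insert_of_mem hj)
    rw [Finset.prod_insert hi, Finset.sum_insert hi,
      padicValRat.mul (hf i (mem_insert_self _ _)) h1,
      ih fun j hj => hf j (mem_insert_of_mem hj)]

private theorem TwoVal_fac (m : ℕ) : (padicValNat 2 (Nat.factorial m) : ℤ) = (m : ℤ) - (sg m : ℤ) := by
  have h1 := sub_one_mul_padicValNat_factorial (p := 2) m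
  have h2 := Nat.digit_sum_le 2 m
  unfold sg
  omega

private theorem TwoVal_sg_le (m : ℕ) : (sg m : ℤ) ≤ m := by
  have h2 := Nat.digit_sum_le 2 m
  unfold sg
  exact_mod_cast h2

private theorem TwoVal_FF {ι : Type} [Fintype ι] (a : ι → ℕ) (b c d : ι → ℤ) (t : ℕ) :
    padicValRat 2 (FF a b c d t) = ∑ i, (c i * (t : ℤ) + d i) *
      ((lin (a i) (b i) t : ℤ) - (sg (lin (a i) (b i) t) : ℤ)) := by
  unfold FF
  rw [TwoVal_prod _ _ fun i _ => zpow_ne_zero _ (Nat.cast_ne_zero.2 (Nat.factorial_ne_zero _))]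
  refine Finset.sum_congr rfl fun i _ => ?_
  rw [padicValRat.zpow, padicValRat.of_nat, TwoVal_fac]

private theorem TwoVal_term {t m s : ℤ} (ht : 1 ≤ t) (a b c d : ℤ) (_ha : 0 ≤ a) (hm : m = a * t + b)
    (hs0 : 0 ≤ s) (hs : s ≤ m) :
    |t * (b * c + a * d) + b * d - d * s| ≤ (|b * c + a * d| + |b * d| + |d| * (a + |b|)) * t := by
  have ht0 : 0 ≤ t := le_trans zero_le_one ht
  have h1 : |t * (b * c + a * d)| = |b * c + a * d| * t := by
    rw [abs_mul, abs_of_nonneg ht0, mul_comm]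
  have h2 : |b * d| ≤ |b * d| * t := le_mul_of_one_le_right (abs_nonneg _) ht
  have h3 : |d * s| ≤ |d| * (a + |b|) * t := by
    rw [abs_mul, abs_of_nonneg hs0, mul_assoc]
    refine mul_le_mul_of_nonneg_left ?_ (abs_nonneg _)
    have h4 : b ≤ |b| * t := (le_abs_self b).trans (le_mul_of_one_le_right (abs_nonneg _) ht)
    calc s ≤ a * t + b := hm ▸ hs
      _ ≤ a * t + |b| * t := by linarith
      _ = (a + |b|) * t := by ring
  calc |t * (b * c + a * d) + b * d - d * s|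
      ≤ |t * (b * c + a * d) + b * d| + |d * s| := abs_sub _ _
    _ ≤ |t * (b * c + a * d)| + |b * d| + |d * s| := by
        have := abs_add_le (t * (b * c + a * d)) (b * d)
        linarith
    _ ≤ (|b * c + a * d| + |b * d| + |d| * (a + |b|)) * t := by
        rw [h1]
        linarith

theorem two_val {ι : Type} [Fintype ι] {E : ℕ → ℕ} {a : ι → ℕ} {b c d : ι → ℤ} {q : ℚ} {h : ℕ → ℚ}
    (R : Rep E a b c d q h) (hE : ∀ᶠ t : ℕ in atTop, E t ≠ 0) (hac : ∑ i, (a i : ℤ) * c i = 0) :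
    ∃ K : ℤ, ∀ᶠ t : ℕ in atTop, h t ≠ 0 ∧
      |(padicValNat 2 (E t) : ℤ) - padicValRat 2 q * ((t * (t - 1) / 2 : ℕ) : ℤ) - padicValRat 2 (h t) +
        (t : ℤ) * ∑ i, c i * (sg (lin (a i) (b i) t) : ℤ)| ≤ K * t := by
  refine ⟨∑ i, (|b i * c i + (a i : ℤ) * d i| + |b i * d i| + |d i| * ((a i : ℤ) + |b i|)), ?_⟩
  have hlin : ∀ᶠ t : ℕ in atTop, ∀ i, (lin (a i) (b i) t : ℤ) = (a i : ℤ) * t + b i := by
    rw [Filter.eventually_all]
    intro i
    filter_upwards [eventually_ge_atTop (b i).natAbs] with t ht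
    have h1 : (1 : ℤ) ≤ (a i : ℤ) := by exact_mod_cast R.apos i
    have h2 : ((b i).natAbs : ℤ) ≤ (t : ℤ) := by exact_mod_cast ht
    have h3 : (t : ℤ) ≤ (a i : ℤ) * t := le_mul_of_one_le_left (Int.natCast_nonneg t) h1
    have h4 : 0 ≤ (a i : ℤ) * t + b i := by omega
    unfold lin
    exact Int.toNat_of_nonneg h4
  filter_upwards [R.rep, hE, hlin, eventually_ge_atTop 2] with t h1 h2 h3 ht
  have hEt : (E t : ℚ) ≠ 0 := Nat.cast_ne_zero.2 h2
  rw [h1] at hEt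
  have hh : h t ≠ 0 := right_ne_zero_of_mul hEt
  have hqF := left_ne_zero_of_mul hEt
  have hq : q ^ (t * (t - 1) / 2) ≠ 0 := left_ne_zero_of_mul hqF
  have hF : FF a b c d t ≠ 0 := right_ne_zero_of_mul hqF
  refine ⟨hh, ?_⟩
  have h4 : (padicValNat 2 (E t) : ℤ) = ((t * (t - 1) / 2 : ℕ) : ℤ) * padicValRat 2 q +
      ∑ i, (c i * (t : ℤ) + d i) * ((lin (a i) (b i) t : ℤ) - (sg (lin (a i) (b i) t) : ℤ)) +
      padicValRat 2 (h t) := by
    rw [← TwoVal_FF, ← padicValRat.pow, ← padicValRat.mul hq hF, ← padicValRat.mul hqF hh, ← h1,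
      padicValRat.of_nat]
  have ht1 : (1 : ℤ) ≤ (t : ℤ) := by
    have : 1 ≤ t := by omega
    exact_mod_cast this
  have h5 : (padicValNat 2 (E t) : ℤ) - padicValRat 2 q * ((t * (t - 1) / 2 : ℕ) : ℤ) -
      padicValRat 2 (h t) + (t : ℤ) * ∑ i, c i * (sg (lin (a i) (b i) t) : ℤ) =
      ∑ i, ((t : ℤ) * (b i * c i + (a i : ℤ) * d i) + b i * d i -
        d i * (sg (lin (a i) (b i) t) : ℤ)) := by
    have h6 : ∑ i, (c i * (t : ℤ) + d i) *
        ((lin (a i) (b i) t : ℤ) - (sg (lin (a i) (b i) t) : ℤ)) =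
        ∑ i, ((t : ℤ) * (b i * c i + (a i : ℤ) * d i) + b i * d i -
          d i * (sg (lin (a i) (b i) t) : ℤ)) + (t : ℤ) ^ 2 * ∑ i, (a i : ℤ) * c i -
          (t : ℤ) * ∑ i, c i * (sg (lin (a i) (b i) t) : ℤ) := by
      rw [Finset.mul_sum, Finset.mul_sum, ← Finset.sum_add_distrib, ← Finset.sum_sub_distrib]
      refine Finset.sum_congr rfl fun i _ => ?_
      rw [h3 i]
      ring
    rw [h4, h6, hac, mul_zero]
    ring
  rw [h5, Finset.sum_mul]
  refine (Finset.abs_sum_le_sum_abs _ _).trans (Finset.sum_le_sum fun i _ => ?_)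
  exact TwoVal_term ht1 (a i : ℤ) (b i) (c i) (d i) (Int.natCast_nonneg _) (h3 i)
    (Int.natCast_nonneg _) (TwoVal_sg_le _)

end Pool.Agent.MP_c3d1b0N
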